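import Pool.Agent.Run7.h356.CFStrat

set_option autoImplicit false
set_option linter.deprecated false

namespace Run7.h356

open Pool.Agent.Helper336.CF

variable {T : Type}

/-- The language of the flat vectors satisfying `A`, on the letters `i, …, i + d - 1`. -/
def LW (a : ℕ → T) (i d : ℕ) (A : (ℕ → ℕ) → Prop) : Set (List T) :=
  {w : List T | ∃ v, A v ∧ w = wd a v i d}

/-- `A` depends only on the letters `i, …, i + d - 1`. -/
def Dep (i d : ℕ) (A : (ℕ → ℕ) → Prop) : Prop :=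
  ∀ v v' : ℕ → ℕ, (∀ t, i ≤ t → t < i + d → v t = v' t) → A v → A v'

theorem cf_glue (a : ℕ → T) (i d e : ℕ) (A B : (ℕ → ℕ) → Prop)
    (hA : Dep i d A) (hB : Dep (i + d) e B)
    (cA : IsCF (LW a i d A)) (cB : IsCF (LW a (i + d) e B)) :
    IsCF (LW a i (d + e) (fun v => A v ∧ B v)) := by
  have := cf_cat cA cB
  convert this using 1
  ext w
  simp only [cat, LW, Set.mem_setOf_eq]
  constructor
  · rintro ⟨v, ⟨h1, h2⟩, rfl⟩
    exact ⟨_, ⟨v, h1, rfl⟩, _, ⟨v, h2, rfl⟩, wd_append a v i d e⟩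
  · rintro ⟨_, ⟨v, h1, rfl⟩, _, ⟨v', h2, rfl⟩, rfl⟩
    refine ⟨fun t => if t < i + d then v t else v' t, ⟨hA v _ ?_ h1, hB v' _ ?_ h2⟩, ?_⟩
    · intro t _ ht
      simp [ht]
    · intro t ht _
      simp [not_lt.2 ht]
    · rw [wd_append]
      congr 1
      · apply wd_congr
        intro t _ ht
        simp [ht]
      · apply wd_congr
        intro t ht _
        simp [not_lt.2 ht]

theorem LW_congr (a : ℕ → T) (i d : ℕ) (A B : (ℕ → ℕ) → Prop) (h : ∀ v, A v ↔ B v) :
    LW a i d A = LW a i d B := by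
  have : A = B := funext fun v => propext (h v)
  rw [this]

theorem LW_or (a : ℕ → T) (i d : ℕ) (A B : (ℕ → ℕ) → Prop) :
    LW a i d (fun v => A v ∨ B v) = LW a i d A ∪ LW a i d B := by
  ext w
  simp only [LW, Set.mem_setOf_eq, Set.mem_union]
  constructor
  · rintro ⟨v, h | h, rfl⟩
    · exact Or.inl ⟨v, h, rfl⟩
    · exact Or.inr ⟨v, h, rfl⟩
  · rintro (⟨v, h, rfl⟩ | ⟨v, h, rfl⟩)
    · exact ⟨v, Or.inl h, rfl⟩
    · exact ⟨v, Or.inr h, rfl⟩

theorem cf_or (a : ℕ → T) (i d : ℕ) (A B : (ℕ → ℕ) → Prop)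
    (hA : IsCF (LW a i d A)) (hB : IsCF (LW a i d B)) :
    IsCF (LW a i d (fun v => A v ∨ B v)) := by
  rw [LW_or]
  exact cf_union hA hB

theorem cf_ex {ι : Type*} [Finite ι] (a : ℕ → T) (i d : ℕ) (A : ι → (ℕ → ℕ) → Prop)
    (hA : ∀ j, IsCF (LW a i d (A j))) :
    IsCF (LW a i d (fun v => ∃ j, A j v)) := by
  have := cf_iUnion (Set.univ : Set ι) Set.finite_univ (fun j => LW a i d (A j))
    (fun j _ => hA j)
  convert this using 1
  ext w
  simp only [LW, Set.mem_setOf_eq, Set.mem_iUnion, Set.mem_univ]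
  constructor
  · rintro ⟨v, ⟨j, h⟩, rfl⟩
    exact ⟨j, trivial, v, h, rfl⟩
  · rintro ⟨j, _, v, h, rfl⟩
    exact ⟨v, ⟨j, h⟩, rfl⟩

/-- One letter, free. -/
theorem cf_one (a : ℕ → T) (i : ℕ) (A : (ℕ → ℕ) → Prop) (hA : ∀ v, A v) :
    IsCF (LW a i 1 A) := by
  have := cf_pow (T := T) (a i)
  convert this using 1
  ext w
  simp only [LW, Set.mem_setOf_eq, wd_one]
  constructor
  · rintro ⟨v, _, rfl⟩
    exact ⟨_, rfl⟩
  · rintro ⟨e, rfl⟩
    exact ⟨fun _ => e, hA _, rfl⟩

theorem cf_free (a : ℕ → T) (i d : ℕ) : IsCF (LW a i d (fun _ => True)) := by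
  induction d with
  | zero =>
    have := cf_singleton (T := T) []
    convert this using 1
    ext w
    simp only [LW, Set.mem_setOf_eq, Set.mem_singleton_iff]
    constructor
    · rintro ⟨v, _, rfl⟩
      simp [wd]
    · rintro rfl
      exact ⟨0, trivial, by simp [wd]⟩
  | succ d ih =>
    have := cf_glue a i d 1 (fun _ => True) (fun _ => True) (fun _ _ _ _ => trivial)
      (fun _ _ _ _ => trivial) ih (cf_one a _ _ (fun _ => trivial))
    simpa using this

/-! ### Two-letter languages -/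

/-- The language of the powers of two letters satisfying `R`. -/
def two (b c : T) (R : ℕ → ℕ → Prop) : Set (List T) :=
  {w | ∃ x y, R x y ∧ w = List.replicate x b ++ List.replicate y c}

theorem two_congr (b c : T) (R R' : ℕ → ℕ → Prop) (h : ∀ x y, R x y ↔ R' x y) :
    two b c R = two b c R' := by
  have : R = R' := funext fun x => funext fun y => propext (h x y)
  rw [this]

theorem cf_two_wrap (b c : T) (α γ : ℕ) (R : ℕ → ℕ → Prop) (h : IsCF (two b c R)) :
    IsCF (two b c (fun x y => ∃ m x' y', R x' y' ∧ x = m * α + x' ∧ y = m * γ + y')) := by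
  have := cf_wrap2 b c α γ h
  convert this using 1
  ext w
  constructor
  · rintro ⟨x, y, ⟨m, x', y', hR, rfl, rfl⟩, rfl⟩
    refine ⟨m, _, ⟨x', y', hR, rfl⟩, ?_⟩
    rw [List.replicate_add, add_comm (m * γ) y', List.replicate_add]
    simp only [List.append_assoc]
  · rintro ⟨m, _, ⟨x', y', hR, rfl⟩, rfl⟩
    refine ⟨_, _, ⟨m, x', y', hR, rfl, rfl⟩, ?_⟩
    rw [List.replicate_add, add_comm (m * γ) y', List.replicate_add]
    simp only [List.append_assoc]

theorem cf_two_single (b c : T) (x0 y0 : ℕ) :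
    IsCF (two b c (fun x y => x = x0 ∧ y = y0)) := by
  have := cf_singleton (T := T) (List.replicate x0 b ++ List.replicate y0 c)
  convert this using 1
  ext w
  simp only [two, Set.mem_setOf_eq, Set.mem_singleton_iff]
  constructor
  · rintro ⟨x, y, ⟨rfl, rfl⟩, rfl⟩
    rfl
  · rintro rfl
    exact ⟨_, _, ⟨rfl, rfl⟩, rfl⟩

/-- Product of a two-letter language on `(i, i+1)` and one on `(i+1, i+2)`. -/
theorem cf_three (a : ℕ → T) (i : ℕ) (R1 R2 : ℕ → ℕ → Prop)
    (h1 : IsCF (two (a i) (a (i + 1)) R1)) (h2 : IsCF (two (a (i + 1)) (a (i + 2)) R2))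
    (Q : (ℕ → ℕ) → Prop)
    (hQ : ∀ v, Q v ↔ ∃ y1 y2, v (i + 1) = y1 + y2 ∧ R1 (v i) y1 ∧ R2 y2 (v (i + 2))) :
    IsCF (LW a i 3 Q) := by
  have := cf_cat h1 h2
  convert this using 1
  have hw : ∀ v : ℕ → ℕ, wd a v i 3 = List.replicate (v i) (a i) ++
      List.replicate (v (i + 1)) (a (i + 1)) ++ List.replicate (v (i + 2)) (a (i + 2)) := by
    intro v
    rw [show 3 = 1 + 1 + 1 from rfl, wd_append, wd_append, wd_one, wd_one, wd_one]
  ext w
  simp only [LW, cat, two, Set.mem_setOf_eq]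
  constructor
  · rintro ⟨v, hv, rfl⟩
    obtain ⟨y1, y2, e, r1, r2⟩ := (hQ v).1 hv
    refine ⟨_, ⟨_, _, r1, rfl⟩, _, ⟨_, _, r2, rfl⟩, ?_⟩
    rw [hw, e, List.replicate_add]
    simp only [List.append_assoc]
  · rintro ⟨_, ⟨x, y1, r1, rfl⟩, _, ⟨y2, z, r2, rfl⟩, rfl⟩
    refine ⟨fun t => if t = i then x else if t = i + 1 then y1 + y2 else z, ?_, ?_⟩
    · rw [hQ]
      refine ⟨y1, y2, ?_, ?_, ?_⟩
      · simp
      · simpa using r1
      · simpa using r2
    · rw [hw]
      simp only [if_true]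
      rw [if_neg (by omega), if_neg (by omega), if_neg (by omega), List.replicate_add]
      simp only [List.append_assoc, if_true]

/-- The three-letter free language. -/
theorem cf_blocks (a : ℕ → T) (N : ℕ) (Q : ℕ → (ℕ → ℕ) → Prop)
    (hd : ∀ s, Dep (3 * s) 3 (Q s)) (hQ : ∀ s, s < N → IsCF (LW a (3 * s) 3 (Q s))) :
    IsCF (LW a 0 (3 * N) (fun v => ∀ s, s < N → Q s v)) := by
  induction N with
  | zero =>
    have := cf_free a 0 0
    simpa using this
  | succ N ih =>
    have h1 := ih (fun s hs => hQ s (by omega))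
    have h2 := hQ N (by omega)
    have := cf_glue a 0 (3 * N) 3 (fun v => ∀ s, s < N → Q s v) (Q N)
      (by
        intro v v' hvv h s hs
        refine hd s v v' ?_ (h s hs)
        intro t ht1 ht2
        exact hvv t (by omega) (by omega))
      (by
        rw [zero_add]
        exact hd N) h1 (by rw [zero_add]; exact h2)
    rw [show 3 * (N + 1) = 3 * N + 3 by ring]
    convert this using 2
    funext v
    apply propext
    constructor
    · intro h
      exact ⟨fun s hs => h s (by omega), h N (by omega)⟩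
    · rintro ⟨h1, h2⟩ s hs
      rcases Nat.lt_succ_iff_lt_or_eq.1 hs with h | rfl
      · exact h1 s h
      · exact h2

end Run7.h356
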