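import Pool.Agent.Helper336.CF

set_option autoImplicit false

namespace Run7.h356

open Pool.Agent.Helper336.CF

variable {T : Type}

/-- Wrapping by powers of two letters: `b^(e x) · L · b'^(e y)`. -/
theorem cf_wrap2 (b b' : T) (x y : ℕ) {L : Set (List T)} (h : IsCF L) :
    IsCF {w : List T | ∃ e : ℕ, ∃ u ∈ L,
      w = List.replicate (e * x) b ++ u ++ List.replicate (e * y) b'} := by
  classical
  obtain ⟨g₁, e₁⟩ := h
  have e₁' : Gen g₁ g₁.initial = L := e₁
  let g0 : ContextFreeGrammar T := ⟨PUnit, PUnit.unit, ∅⟩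
  refine ext_cf g₁ g0 {[Symbol.nonterminal (some (Sum.inl g₁.initial))],
    (List.replicate x b).map Symbol.terminal ++
      (Symbol.nonterminal none :: (List.replicate y b').map Symbol.terminal)} _ ?_ ?_
  · intro o ho w hw
    simp only [Finset.mem_insert, Finset.mem_singleton] at ho
    rcases ho with rfl | rfl
    · obtain ⟨w₁, w₂, rfl, h1, h2⟩ := hw
      simp only [Comp] at h2
      subst h2
      refine ⟨0, w₁, ?_, by simp⟩
      rw [← e₁']; exact h1
    · rw [comp_append] at hw
      obtain ⟨w₁, w₂, rfl, h1, w₃, w₄, rfl, ⟨e, u, hu, rfl⟩, h3⟩ := hw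
      rw [comp_map_terminal] at h1 h3
      subst h1; subst h3
      refine ⟨e + 1, u, hu, ?_⟩
      rw [add_mul, add_mul, one_mul, one_mul, List.replicate_add (e * y) y]
      rw [add_comm (e * x) x, List.replicate_add x (e * x)]
      simp only [List.append_assoc]
  · rintro S h1 _ hS w ⟨e, u, hu, rfl⟩
    induction e with
    | zero =>
      refine hS [Symbol.nonterminal (some (Sum.inl g₁.initial))] (by simp) _ ?_
      refine ⟨u, [], by simp, h1 _ ?_, rfl⟩
      rw [e₁']; exact hu
    | succ e ih =>
      refine hS _ (Finset.mem_insert_of_mem (Finset.mem_singleton_self _)) _ ?_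
      rw [comp_append]
      refine ⟨List.replicate x b, (List.replicate (e * x) b ++ u ++ List.replicate (e * y) b') ++
        List.replicate y b', ?_, ?_, List.replicate (e * x) b ++ u ++ List.replicate (e * y) b',
        List.replicate y b', rfl, ih, ?_⟩
      · rw [add_mul, add_mul, one_mul, one_mul, List.replicate_add (e * y) y]
        rw [add_comm (e * x) x, List.replicate_add x (e * x)]
        simp only [List.append_assoc]
      · exact (comp_map_terminal S _ _).2 rfl
      · exact (comp_map_terminal S _ _).2 rfl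

/-- The word of `v` on the letters `i, …, i + d - 1`. -/
def wd (a : ℕ → T) (v : ℕ → ℕ) (i d : ℕ) : List T :=
  (List.range' i d).flatMap (fun t => List.replicate (v t) (a t))

theorem wd_append (a : ℕ → T) (v : ℕ → ℕ) (i d e : ℕ) :
    wd a v i (d + e) = wd a v i d ++ wd a v (i + d) e := by
  unfold wd
  rw [← List.flatMap_append]
  congr 1
  have := List.range'_append (s := i) (m := d) (n := e) (step := 1)
  rw [one_mul] at this
  rw [this]

theorem wd_congr (a : ℕ → T) (v w : ℕ → ℕ) (i d : ℕ) (h : ∀ t, i ≤ t → t < i + d → v t = w t) :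
    wd a v i d = wd a w i d := by
  unfold wd
  apply List.flatMap_congr
  intro t ht
  rw [List.mem_range'_1] at ht
  rw [h t ht.1 ht.2]

theorem wd_one (a : ℕ → T) (v : ℕ → ℕ) (i : ℕ) : wd a v i 1 = List.replicate (v i) (a i) := by
  simp [wd]

theorem wd_zero (a : ℕ → T) (i d : ℕ) : wd a 0 i d = [] := by
  simp [wd]

/-- Join of two intervals sharing the letter `i + d`. -/
theorem wd_join (a : ℕ → T) (v w : ℕ → ℕ) (i d e : ℕ)
    (hv : ∀ t, v t ≠ 0 → t ≤ i + d) (hw : ∀ t, w t ≠ 0 → i + d ≤ t) :
    wd a (v + w) i (d + e + 1) = wd a v i (d + 1) ++ wd a w (i + d) (e + 1) := by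
  rw [show d + e + 1 = d + (1 + e) by ring, wd_append, wd_append, wd_append a v i d 1,
    show e + 1 = 1 + e by ring, wd_append a w (i + d) 1 e, wd_one, wd_one, wd_one]
  have h1 : wd a (v + w) i d = wd a v i d := by
    apply wd_congr
    intro t _ ht
    have : w t = 0 := by
      by_contra h
      have := hw t h
      omega
    simp [this]
  have h2 : wd a (v + w) (i + d + 1) e = wd a w (i + d + 1) e := by
    apply wd_congr
    intro t ht _
    have : v t = 0 := by
      by_contra h
      have := hv t h
      omega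
    simp [this]
  rw [h1, h2, Pi.add_apply, List.replicate_add]
  simp only [List.append_assoc]

/-- A period: ends `l ≤ l'` and the two multiplicities. -/
structure Per where
  l : ℕ
  r : ℕ
  x : ℕ
  y : ℕ

/-- The vector of a period. -/
def Per.vec (p : Per) : ℕ → ℕ := Pi.single p.l p.x + Pi.single p.r p.y

theorem Per.vec_supp (p : Per) (t : ℕ) (h : p.vec t ≠ 0) : t = p.l ∨ t = p.r := by
  by_contra hc
  push Not at hc
  apply h
  simp [Per.vec, hc.1, hc.2]

theorem wd_end (a : ℕ → T) (v : ℕ → ℕ) (i d m : ℕ) (p : Per)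
    (hp : (p.l = i ∨ p.l = i + d) ∧ (p.r = i ∨ p.r = i + d)) :
    ∃ x y : ℕ, ∀ (m : ℕ) (v : ℕ → ℕ), wd a (v + m • p.vec) i (d + 1) =
      List.replicate (m * x) (a i) ++ wd a v i (d + 1) ++ List.replicate (m * y) (a (i + d)) := by
  have key : ∀ (x y m : ℕ) (v : ℕ → ℕ), wd a (v + m • (Pi.single i x + Pi.single (i + d) y)) i (d + 1) =
      List.replicate (m * x) (a i) ++ wd a v i (d + 1) ++
        List.replicate (m * y) (a (i + d)) := by
    intro x y m v
    have e1 : v + m • ((Pi.single i x : ℕ → ℕ) + Pi.single (i + d) y) =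
        (Pi.single i (m * x) : ℕ → ℕ) + (v + Pi.single (i + d) (m * y)) := by
      funext t
      simp only [Pi.add_apply, Pi.smul_apply, Pi.single_apply, smul_eq_mul]
      split_ifs <;> ring
    -- split off the first letter
    have e2 : ∀ u : ℕ → ℕ, wd a ((Pi.single i (m * x) : ℕ → ℕ) + u) i (d + 1) =
        List.replicate (m * x) (a i) ++ wd a u i (d + 1) := by
      intro u
      rw [show d + 1 = 1 + d by ring, wd_append, wd_append, wd_one, wd_one, Pi.add_apply,
        Pi.single_eq_same, List.replicate_add]
      rw [wd_congr a _ u (i + 1) d ?_]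
      · simp only [List.append_assoc]
      · intro t ht _
        have : t ≠ i := by omega
        simp [Pi.single_apply, this]
    have e3 : wd a (v + Pi.single (i + d) (m * y)) i (d + 1) =
        wd a v i (d + 1) ++ List.replicate (m * y) (a (i + d)) := by
      rw [wd_append, wd_append, wd_one, wd_one, Pi.add_apply, Pi.single_eq_same,
        List.replicate_add]
      rw [wd_congr a _ v i d ?_]
      · simp only [List.append_assoc]
      · intro t _ ht
        have : t ≠ i + d := by omega
        simp [Pi.single_apply, this]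
    rw [e1, e2, e3, List.append_assoc]
  obtain ⟨h1, h2⟩ := hp
  rcases h1 with h1 | h1 <;> rcases h2 with h2 | h2
  · refine ⟨p.x + p.y, 0, fun m v => ?_⟩
    rw [← key]
    congr 2
    funext t
    simp only [Per.vec, h1, h2, Pi.add_apply, Pi.smul_apply, Pi.single_apply, smul_eq_mul]
    split_ifs <;> ring
  · refine ⟨p.x, p.y, fun m v => ?_⟩
    rw [← key]
    simp [Per.vec, h1, h2]
  · refine ⟨p.y, p.x, fun m v => ?_⟩
    rw [← key]
    simp [Per.vec, h1, h2, add_comm]
  · refine ⟨0, p.x + p.y, fun m v => ?_⟩
    rw [← key]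
    congr 2
    funext t
    simp only [Per.vec, h1, h2, Pi.add_apply, Pi.smul_apply, Pi.single_apply, smul_eq_mul]
    split_ifs <;> ring

/-- The monoid generated by a list of periods. -/
def gen : List Per → Set (ℕ → ℕ)
  | [] => {0}
  | p :: P => {v | ∃ u ∈ gen P, ∃ m : ℕ, v = u + m • p.vec}

theorem gen_supp (P : List Per) (A : ℕ → Prop) (h : ∀ p ∈ P, A p.l ∧ A p.r) (v : ℕ → ℕ)
    (hv : v ∈ gen P) (t : ℕ) (ht : v t ≠ 0) : A t := by
  induction P generalizing v with
  | nil => simp [gen] at hv; subst hv; exact absurd rfl ht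
  | cons p P ih =>
    obtain ⟨u, hu, m, rfl⟩ := hv
    by_cases h0 : u t = 0
    · have : p.vec t ≠ 0 := by
        intro h1
        apply ht
        simp [h0, h1]
      rcases p.vec_supp t this with rfl | rfl
      · exact (h p (by simp)).1
      · exact (h p (by simp)).2
    · exact ih (fun q hq => h q (by simp [hq])) u hu h0

theorem gen_filter (f : Per → Bool) (P : List Per) (v : ℕ → ℕ) :
    v ∈ gen P ↔ ∃ u ∈ gen (P.filter f), ∃ w ∈ gen (P.filter (fun p => !f p)), v = u + w := by
  induction P generalizing v with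
  | nil => simp [gen]
  | cons p P ih =>
    by_cases hp : f p = true
    · have e1 : (p :: P).filter f = p :: P.filter f := by simp [hp]
      have e2 : (p :: P).filter (fun p => !f p) = P.filter (fun p => !f p) := by simp [hp]
      rw [e1, e2]
      constructor
      · rintro ⟨u, hu, m, rfl⟩
        obtain ⟨u1, hu1, w, hw, rfl⟩ := (ih u).1 hu
        exact ⟨u1 + m • p.vec, ⟨u1, hu1, m, rfl⟩, w, hw, by abel⟩
      · rintro ⟨_, ⟨u1, hu1, m, rfl⟩, w, hw, rfl⟩
        exact ⟨u1 + w, (ih _).2 ⟨u1, hu1, w, hw, rfl⟩, m, by abel⟩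
    · have e1 : (p :: P).filter f = P.filter f := by simp [hp]
      have e2 : (p :: P).filter (fun p => !f p) = p :: P.filter (fun p => !f p) := by simp [hp]
      rw [e1, e2]
      constructor
      · rintro ⟨u, hu, m, rfl⟩
        obtain ⟨u1, hu1, w, hw, rfl⟩ := (ih u).1 hu
        exact ⟨u1, hu1, w + m • p.vec, ⟨w, hw, m, rfl⟩, by abel⟩
      · rintro ⟨u1, hu1, _, ⟨w, hw, m, rfl⟩, rfl⟩
        exact ⟨u1 + w, (ih _).2 ⟨u1, hu1, w, hw, rfl⟩, m, by abel⟩

/-- Adding periods whose ends are ends of the interval. -/
theorem cf_out (a : ℕ → T) (i d : ℕ) (V : Set (ℕ → ℕ)) (Q : List Per)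
    (hQ : ∀ p ∈ Q, (p.l = i ∨ p.l = i + d) ∧ (p.r = i ∨ p.r = i + d))
    (hV : IsCF {w : List T | ∃ v ∈ V, w = wd a v i (d + 1)}) :
    IsCF {w : List T | ∃ v ∈ V, ∃ u ∈ gen Q, w = wd a (v + u) i (d + 1)} := by
  induction Q with
  | nil => simpa [gen] using hV
  | cons p Q ih =>
    have ih' := ih (fun q hq => hQ q (by simp [hq]))
    obtain ⟨x, y, hxy⟩ := wd_end a 0 i d 0 p (hQ p (by simp))
    have := cf_wrap2 (a i) (a (i + d)) x y ih'
    convert this using 1
    ext w
    constructor
    · rintro ⟨v, hv, _, ⟨u, hu, m, rfl⟩, rfl⟩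
      refine ⟨m, wd a (v + u) i (d + 1), ⟨v, hv, u, hu, rfl⟩, ?_⟩
      rw [← hxy, add_assoc]
    · rintro ⟨m, _, ⟨v, hv, u, hu, rfl⟩, rfl⟩
      refine ⟨v, hv, u + m • p.vec, ⟨u, hu, m, rfl⟩, ?_⟩
      rw [← hxy, add_assoc]

/-- Non-crossing lists of periods. -/
def NC (P : List Per) : Prop :=
  ∀ p ∈ P, ∀ q ∈ P, ¬ (p.l < q.l ∧ q.l < p.r ∧ p.r < q.r)

/-- Languages of non-crossing linear sets are context-free. -/
theorem cf_gen (a : ℕ → T) (d : ℕ) : ∀ (i : ℕ) (P : List Per) (c : ℕ → ℕ),
    (∀ p ∈ P, i ≤ p.l ∧ p.l ≤ p.r ∧ p.r ≤ i + d) → NC P →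
    (∀ t, c t ≠ 0 → i < t ∧ t < i + d) →
    IsCF {w : List T | ∃ v ∈ gen P, w = wd a (c + v) i (d + 1)} := by
  classical
  induction d using Nat.strong_induction_on with
  | _ d ih =>
  intro i P c hP hnc hc
  let f : Per → Bool := fun p => decide ((p.l = i ∨ p.l = i + d) ∧ (p.r = i ∨ p.r = i + d))
  have hout : ∀ p ∈ P.filter f, (p.l = i ∨ p.l = i + d) ∧ (p.r = i ∨ p.r = i + d) := by
    intro p hp
    have := (List.mem_filter.1 hp).2
    simpa [f] using this
  set Q := P.filter (fun p => !f p) with hQdef
  have hQ : ∀ p ∈ Q, p ∈ P ∧ ¬ ((p.l = i ∨ p.l = i + d) ∧ (p.r = i ∨ p.r = i + d)) := by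
    intro p hp
    have := List.mem_filter.1 hp
    refine ⟨this.1, ?_⟩
    have h2 := this.2
    simp only [f, Bool.not_eq_true', decide_eq_false_iff_not] at h2
    exact h2
  have hmain : IsCF {w : List T | ∃ v ∈ {v : ℕ → ℕ | ∃ u ∈ gen Q, v = c + u},
      w = wd a v i (d + 1)} := by
    by_cases hd : d ≤ 1
    · have hQ0 : Q = [] := by
        rw [List.eq_nil_iff_forall_not_mem]
        intro p hp
        obtain ⟨h1, h2⟩ := hQ p hp
        have := hP p h1
        apply h2
        constructor <;> omega
      have hc0 : c = 0 := by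
        funext t
        by_contra h
        have := hc t h
        omega
      have : {w : List T | ∃ v ∈ {v : ℕ → ℕ | ∃ u ∈ gen Q, v = c + u},
          w = wd a v i (d + 1)} = {[]} := by
        ext w
        simp only [hQ0, hc0, gen, Set.mem_singleton_iff, Set.mem_setOf_eq]
        constructor
        · rintro ⟨v, ⟨u, rfl, rfl⟩, rfl⟩
          simp [wd]
        · rintro rfl
          exact ⟨0, ⟨0, rfl, by simp⟩, by simp [wd]⟩
      rw [this]
      exact cf_singleton _
    · push Not at hd
      -- the splitting point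
      obtain ⟨k, hk1, hk2, hk⟩ : ∃ k, i < k ∧ k < i + d ∧ ∀ p ∈ Q, p.r ≤ k ∨ k ≤ p.l := by
        by_cases hS : ∃ p ∈ Q, p.l = i
        · let S : Finset ℕ := (Q.filter (fun p => decide (p.l = i))).map Per.r |>.toFinset
          have hSne : S.Nonempty := by
            obtain ⟨p, hp, hpi⟩ := hS
            refine ⟨p.r, ?_⟩
            simp only [S, List.mem_toFinset, List.mem_map, List.mem_filter]
            exact ⟨p, ⟨hp, by simpa using hpi⟩, rfl⟩
          obtain ⟨p0, hp0, hp0r⟩ : ∃ p0, (p0 ∈ Q ∧ p0.l = i) ∧ p0.r = S.max' hSne := by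
            have := S.max'_mem hSne
            simp only [S, List.mem_toFinset, List.mem_map, List.mem_filter] at this
            obtain ⟨p0, ⟨h1, h2⟩, h3⟩ := this
            refine ⟨p0, ⟨h1, by simpa using h2⟩, ?_⟩
            simpa [S] using h3
          have hmax : ∀ p ∈ Q, p.l = i → p.r ≤ p0.r := by
            intro p hp hpi
            rw [hp0r]
            apply Finset.le_max'
            simp only [S, List.mem_toFinset, List.mem_map, List.mem_filter]
            exact ⟨p, ⟨hp, by simpa using hpi⟩, rfl⟩
          obtain ⟨hp0P, hp0o⟩ := hQ p0 hp0.1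
          have hb0 := hP p0 hp0P
          refine ⟨p0.r, ?_, ?_, ?_⟩
          · by_contra h
            apply hp0o
            exact ⟨Or.inl hp0.2, Or.inl (by omega)⟩
          · by_contra h
            apply hp0o
            exact ⟨Or.inl hp0.2, Or.inr (by omega)⟩
          · intro p hp
            by_contra hcon
            push Not at hcon
            obtain ⟨hpP, hpo⟩ := hQ p hp
            have hb := hP p hpP
            by_cases hpi : p.l = i
            · have := hmax p hp hpi
              omega
            · exact hnc p0 hp0P p hpP ⟨by omega, hcon.2, hcon.1⟩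
        · push Not at hS
          refine ⟨i + 1, by omega, by omega, ?_⟩
          intro p hp
          right
          have := hS p hp
          have := (hP p (hQ p hp).1).1
          omega
      -- split everything at `k`
      let g : Per → Bool := fun p => decide (p.r ≤ k)
      let P1 := Q.filter g
      let P2 := Q.filter (fun p => !g p)
      have hP1 : ∀ p ∈ P1, p ∈ P ∧ p.r ≤ k := by
        intro p hp
        have := List.mem_filter.1 hp
        exact ⟨(hQ p this.1).1, by simpa [g] using this.2⟩
      have hP2 : ∀ p ∈ P2, p ∈ P ∧ k ≤ p.l := by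
        intro p hp
        have := List.mem_filter.1 hp
        refine ⟨(hQ p this.1).1, ?_⟩
        have h2 : ¬ p.r ≤ k := by simpa [g] using this.2
        rcases hk p this.1 with h | h
        · exact absurd h h2
        · exact h
      obtain ⟨d1, hd1⟩ : ∃ d1, k = i + d1 := ⟨k - i, by omega⟩
      obtain ⟨d2, hd2⟩ : ∃ d2, d = d1 + d2 := ⟨d - d1, by omega⟩
      let c1 : ℕ → ℕ := fun t => if t < k then c t else 0
      let c2 : ℕ → ℕ := fun t => if k < t then c t else 0
      have h1 := ih d1 (by omega) i P1 c1
        (fun p hp => ⟨(hP p (hP1 p hp).1).1, (hP p (hP1 p hp).1).2.1, by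
          have := (hP1 p hp).2; omega⟩)
        (fun p hp q hq => hnc p (hP1 p hp).1 q (hP1 q hq).1)
        (by
          intro t ht
          have : t < k ∧ c t ≠ 0 := by
            simp only [c1] at ht
            split_ifs at ht with h
            · exact ⟨h, ht⟩
            · exact absurd rfl ht
          have h3 := hc t this.2
          omega)
      have h2 := ih d2 (by omega) k P2 c2
        (fun p hp => ⟨(hP2 p hp).2, (hP p (hP2 p hp).1).2.1, by
          have := (hP p (hP2 p hp).1).2.2; omega⟩)
        (fun p hp q hq => hnc p (hP2 p hp).1 q (hP2 q hq).1)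
        (by
          intro t ht
          have : k < t ∧ c t ≠ 0 := by
            simp only [c2] at ht
            split_ifs at ht with h
            · exact ⟨h, ht⟩
            · exact absurd rfl ht
          have h3 := hc t this.2
          omega)
      have h3 := cf_cat (cf_cat h1 (cf_singleton (List.replicate (c k) (a k)))) h2
      convert h3 using 1
      have hcsplit : c = c1 + Pi.single k (c k) + c2 := by
        funext t
        simp only [c1, c2, Pi.add_apply, Pi.single_apply]
        rcases lt_trichotomy t k with h | h | h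
        · simp [h, h.ne, not_lt.2 h.le]
        · subst h; simp
        · simp [h, h.ne', not_lt.2 h.le]
      have hc1s : ∀ t, c1 t ≠ 0 → t < k := by
        intro t ht
        simp only [c1] at ht
        by_contra h
        simp [h] at ht
      have hc2s : ∀ t, c2 t ≠ 0 → k < t := by
        intro t ht
        simp only [c2] at ht
        by_contra h
        simp [h] at ht
      have hword : ∀ u ∈ gen P1, ∀ w ∈ gen P2, wd a (c + (u + w)) i (d + 1) =
          wd a (c1 + u) i (d1 + 1) ++ List.replicate (c k) (a k) ++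
            wd a (c2 + w) k (d2 + 1) := by
        intro u hu w hw
        have hus : ∀ t, u t ≠ 0 → t ≤ k := fun t ht =>
          gen_supp P1 (fun t => t ≤ k) (fun p hp => ⟨by
            have := (hP p (hP1 p hp).1).2.1
            have := (hP1 p hp).2
            omega, (hP1 p hp).2⟩) u hu t ht
        have hws : ∀ t, w t ≠ 0 → k ≤ t := fun t ht =>
          gen_supp P2 (fun t => k ≤ t) (fun p hp => ⟨(hP2 p hp).2, by
            have := (hP p (hP2 p hp).1).2.1
            have := (hP2 p hp).2
            omega⟩) w hw t ht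
        have e1 : c + (u + w) = ((c1 + u) + Pi.single k (c k)) + (c2 + w) := by
          conv_lhs => rw [hcsplit]
          abel
        rw [e1, hd2, wd_join a _ _ i d1 d2, ← hd1]
        · congr 1
          rw [wd_append, wd_append a (c1 + u), wd_one, wd_one, ← hd1, Pi.add_apply,
            Pi.single_eq_same, List.replicate_add]
          rw [wd_congr a _ (c1 + u) i d1 ?_]
          · simp only [List.append_assoc]
          · intro t _ ht
            have : t ≠ k := by omega
            simp [Pi.single_apply, this]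
        · intro t ht
          rw [← hd1]
          by_contra hcon
          push Not at hcon
          apply ht
          have x1 : c1 t = 0 := by
            by_contra h
            have := hc1s t h
            omega
          have x2 : u t = 0 := by
            by_contra h
            have := hus t h
            omega
          have x3 : t ≠ k := by omega
          simp [x1, x2, Pi.single_apply, x3]
        · intro t ht
          rw [← hd1]
          by_contra hcon
          push Not at hcon
          apply ht
          have x1 : c2 t = 0 := by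
            by_contra h
            have := hc2s t h
            omega
          have x2 : w t = 0 := by
            by_contra h
            have := hws t h
            omega
          simp [x1, x2]
      ext w
      simp only [cat, Set.mem_setOf_eq, Set.mem_singleton_iff]
      constructor
      · rintro ⟨_, ⟨v, hv, rfl⟩, rfl⟩
        obtain ⟨u, hu, w, hw, rfl⟩ := (gen_filter g Q v).1 hv
        refine ⟨_, ⟨_, ⟨u, hu, rfl⟩, _, rfl, rfl⟩, _, ⟨w, hw, rfl⟩, ?_⟩
        rw [hword u hu w hw]
      · rintro ⟨_, ⟨_, ⟨u, hu, rfl⟩, _, rfl, rfl⟩, _, ⟨w, hw, rfl⟩, rfl⟩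
        refine ⟨_, ⟨u + w, (gen_filter g Q _).2 ⟨u, hu, w, hw, rfl⟩, rfl⟩, ?_⟩
        rw [hword u hu w hw]
  have := cf_out a i d _ (P.filter f) hout hmain
  convert this using 1
  ext w
  constructor
  · rintro ⟨v, hv, rfl⟩
    obtain ⟨u, hu, w, hw, rfl⟩ := (gen_filter f P v).1 hv
    exact ⟨c + w, ⟨w, hw, rfl⟩, u, hu, by congr 1; abel⟩
  · rintro ⟨_, ⟨w, hw, rfl⟩, u, hu, rfl⟩
    exact ⟨u + w, (gen_filter f P _).2 ⟨u, hu, w, hw, rfl⟩, by congr 1; abel⟩

end Run7.h356
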