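import Pool.Agent.Run7.h356.Poly

set_option autoImplicit false
set_option linter.deprecated false

namespace Run7.h356

variable {m r d : ℕ}

theorem list_word {A : Type} (L : List A) (d : ℕ) (h : L.length = d) :
    ∃ w : Fin d → A, ∀ y : A → ℚ, ∏ j, y (w j) = (L.map y).prod := by
  subst h
  refine ⟨fun j => L.get j, fun y => ?_⟩
  rw [← List.prod_ofFn]
  congr 1
  conv_rhs => rw [← List.ofFn_get L, List.map_ofFn]
  rfl

theorem exists_words (E : Fin r → Fin m → ℕ) (d : ℕ) (hd : ∀ i, ∑ j, E i j ≤ d) :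
    ∃ wd : Fin r → Fin d → Fin (m + 1), ∀ i (y : Fin (m + 1) → ℚ),
      ∏ j, y (wd i j) = y 0 ^ (d - ∑ j, E i j) * ∏ j, y j.succ ^ (E i j) := by
  have key : ∀ i, ∃ w : Fin d → Fin (m + 1), ∀ y : Fin (m + 1) → ℚ,
      ∏ j, y (w j) = y 0 ^ (d - ∑ j, E i j) * ∏ j, y j.succ ^ (E i j) := by
    intro i
    let L : List (Fin (m + 1)) := List.replicate (d - ∑ j, E i j) 0 ++
      (List.ofFn (fun j => List.replicate (E i j) j.succ)).flatten
    have hL : L.length = d := by
      simp only [L, List.length_append, List.length_replicate, List.length_flatten,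
        List.map_ofFn]
      rw [List.sum_ofFn]
      simp only [Function.comp, List.length_replicate]
      have := hd i
      omega
    obtain ⟨w, hw⟩ := list_word L d hL
    refine ⟨w, fun y => ?_⟩
    rw [hw]
    simp only [L, List.map_append, List.prod_append, List.map_replicate, List.prod_replicate,
      List.map_flatten, List.prod_flatten, List.map_ofFn]
    congr 1
    rw [List.prod_ofFn]
    simp [Function.comp]
  choose wd hwd using key
  exact ⟨wd, hwd⟩

theorem chain {d : ℕ} (f : Fin (d + 1) → ℚ) (g : Fin d → ℚ)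
    (h : ∀ j : Fin d, f j.succ = f j.castSucc * g j) : f (Fin.last d) = f 0 * ∏ j, g j := by
  induction d with
  | zero => simp
  | succ d ih =>
    have h1 := ih (fun j => f j.castSucc) (fun j => g j.castSucc) (fun j => by
      have := h j.castSucc
      rwa [Fin.succ_castSucc] at this)
    have h2 := h (Fin.last d)
    rw [Fin.prod_univ_castSucc, ← mul_assoc]
    have e1 : f (Fin.last (d + 1)) = f (Fin.last d).succ := rfl
    have e2 : f (Fin.castSucc 0) = f 0 := rfl
    rw [e1, h2, h1, e2]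

theorem toNat_sub_toNat_neg' (z : ℤ) : ((z.toNat : ℚ)) - ((-z).toNat : ℚ) = z := by
  have h : ((z.toNat : ℤ)) - ((-z).toNat : ℤ) = z := by omega
  exact_mod_cast congrArg (fun z : ℤ => (z : ℚ)) h

theorem poly_of_sol (E : Fin r → Fin m → ℕ) (hd : ∀ i, ∑ j, E i j ≤ d)
    (wd : Fin r → Fin d → Fin (m + 1))
    (hwd : ∀ i (y : Fin (m + 1) → ℚ),
      ∏ j, y (wd i j) = y 0 ^ (d - ∑ j, E i j) * ∏ j, y j.succ ^ (E i j))
    (c : Fin r → ℤ) (t : Va m r d → ℚ) (ht : ∀ s, -1 < t s ∧ t s < 1) (hs : Sol wd c t) :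
    ∃ x : Fin m → ℚ, ∑ i, (c i : ℚ) * ∏ j, x j ^ E i j = 0 := by
  obtain ⟨h1, h2, h3, h4, h5, h6⟩ := (sol_iff wd c t).1 hs
  let y : Fin (m + 1) → ℚ := fun v => t (.Y v)
  have hy0 : 0 < y 0 := by
    have := (ht .Z).2
    simp only [y]
    linarith
  have hP : ∀ i, t (.P i (Fin.last d)) = 1 / 4 * ∏ j, y (wd i j) := by
    intro i
    have := chain (fun j => t (.P i j)) (fun j => y (wd i j)) (by
      intro j
      have a1 := h1 i j
      have a2 := h2 i j
      simp only [y]
      linarith)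
    rw [this]
    have a3 := h3 i
    have a4 : t (.P i 0) = 1 / 4 := by linarith
    rw [a4]
  refine ⟨fun j => y j.succ / y 0, ?_⟩
  have hsum : ∑ i, (c i : ℚ) * t (.P i (Fin.last d)) = 0 := by
    have e1 : ∑ i, (((c i).toNat : ℚ) * (6 + t (.P i (Fin.last d))) +
        ((-c i).toNat : ℚ) * (6 + t (.N i))) = ∑ i, (6 * ((c i).toNat : ℚ) +
          6 * ((-c i).toNat : ℚ)) + ∑ i, (c i : ℚ) * t (.P i (Fin.last d)) := by
      rw [← Finset.sum_add_distrib]
      apply Finset.sum_congr rfl
      intro i _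
      have a1 := h4 i
      have a2 : t (.N i) = - t (.P i (Fin.last d)) := by linarith
      rw [a2, ← toNat_sub_toNat_neg' (c i)]
      ring
    rw [e1] at h6
    linarith
  have hne : y 0 ^ d ≠ 0 := pow_ne_zero _ hy0.ne'
  have e2 : y 0 ^ d * ∑ i, (c i : ℚ) * ∏ j, (y j.succ / y 0) ^ E i j = 0 := by
    rw [Finset.mul_sum]
    have : ∑ i, (c i : ℚ) * t (.P i (Fin.last d)) =
        1 / 4 * ∑ i, y 0 ^ d * ((c i : ℚ) * ∏ j, (y j.succ / y 0) ^ E i j) := by
      rw [Finset.mul_sum]
      apply Finset.sum_congr rfl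
      intro i _
      rw [hP, hwd]
      have e3 : ∏ j, (y j.succ / y 0) ^ E i j = (∏ j, y j.succ ^ E i j) / y 0 ^ (∑ j, E i j) := by
        simp only [div_pow]
        rw [Finset.prod_div_distrib, Finset.prod_pow_eq_pow_sum]
      have e4 : y 0 ^ d = y 0 ^ (d - ∑ j, E i j) * y 0 ^ (∑ j, E i j) := by
        rw [← pow_add]
        congr 1
        have := hd i
        omega
      rw [e3, e4]
      have hne' : y 0 ^ (∑ j, E i j) ≠ 0 := pow_ne_zero _ hy0.ne'
      field_simp
    rw [hsum] at this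
    linarith
  rcases mul_eq_zero.1 e2 with h | h
  · exact absurd h hne
  · exact h

/-- The values of the partial products. -/
def pp (wd : Fin r → Fin d → Fin (m + 1)) (y : Fin (m + 1) → ℚ) (i : Fin r) (n : ℕ) : ℚ :=
  ∏ j ∈ Finset.range n, (if h : j < d then y (wd i ⟨j, h⟩) else 1)

theorem pp_bd (wd : Fin r → Fin d → Fin (m + 1)) (y : Fin (m + 1) → ℚ)
    (hy : ∀ v, |y v| ≤ 1) (i : Fin r) (n : ℕ) : |pp wd y i n| ≤ 1 := by
  unfold pp
  rw [Finset.abs_prod]
  apply Finset.prod_le_one
  · intro j _; exact abs_nonneg _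
  · intro j _
    split_ifs with h
    · exact hy _
    · simp

/-- The solution of the system. -/
def tt (wd : Fin r → Fin d → Fin (m + 1)) (y : Fin (m + 1) → ℚ) : Va m r d → ℚ
  | .P i j => 1 / 4 * pp wd y i j
  | .Q i j => -(6 * (1 / 4 * pp wd y i j) + 6 * y (wd i j) + 1 / 4 * pp wd y i j * y (wd i j)) / 6
  | .N i => -(1 / 4 * pp wd y i d)
  | .Y v => y v
  | .Z => 1 - 4 * y 0
  | .D => 0

theorem sol_of_poly (E : Fin r → Fin m → ℕ) (hd : ∀ i, ∑ j, E i j ≤ d)
    (wd : Fin r → Fin d → Fin (m + 1))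
    (hwd : ∀ i (y : Fin (m + 1) → ℚ),
      ∏ j, y (wd i j) = y 0 ^ (d - ∑ j, E i j) * ∏ j, y j.succ ^ (E i j))
    (c : Fin r → ℤ) (x : Fin m → ℚ) (hx : ∑ i, (c i : ℚ) * ∏ j, x j ^ E i j = 0) :
    ∃ t : Va m r d → ℚ, (∀ s, -1 < t s ∧ t s < 1) ∧ Sol wd c t := by
  let S : ℚ := 1 + ∑ j, |x j|
  have hS : 1 ≤ S := by
    have : 0 ≤ ∑ j, |x j| := Finset.sum_nonneg (fun _ _ => abs_nonneg _)
    simp only [S]; linarith
  have hxS : ∀ j, |x j| ≤ S := by
    intro j
    have := Finset.single_le_sum (f := fun j => |x j|) (fun _ _ => abs_nonneg _)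
      (Finset.mem_univ j)
    simp only [S]; linarith
  let ε : ℚ := 1 / (4 * S)
  have hε : 0 < ε := by
    simp only [ε]; positivity
  have hε4 : ε ≤ 1 / 4 := by
    simp only [ε]
    rw [div_le_div_iff₀ (by positivity) (by norm_num)]
    linarith
  have hεS : ε * S = 1 / 4 := by
    simp only [ε]
    field_simp
  let y : Fin (m + 1) → ℚ := Fin.cons ε (fun j => ε * x j)
  have y0 : y 0 = ε := rfl
  have ys : ∀ j : Fin m, y j.succ = ε * x j := fun j => by simp [y]
  have hy : ∀ v, |y v| ≤ 1 / 4 := by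
    intro v
    refine Fin.cases ?_ ?_ v
    · rw [y0, abs_of_pos hε]; exact hε4
    · intro j
      rw [ys, abs_mul, abs_of_pos hε, ← hεS]
      exact mul_le_mul_of_nonneg_left (hxS j) hε.le
  have hy1 : ∀ v, |y v| ≤ 1 := fun v => (hy v).trans (by norm_num)
  have hyb : ∀ v, -(1 / 4) ≤ y v ∧ y v ≤ 1 / 4 := fun v => abs_le.1 (hy v)
  have hpb : ∀ i n, -1 ≤ pp wd y i n ∧ pp wd y i n ≤ 1 := fun i n => abs_le.1 (pp_bd wd y hy1 i n)
  refine ⟨tt wd y, ?_, ?_⟩
  · intro s
    cases s with
    | P i j =>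
      have := hpb i j
      simp only [tt]
      constructor <;> linarith
    | Q i j =>
      have h1 := hpb i j
      have h2 := hyb (wd i j)
      have h3 : |pp wd y i j * y (wd i j)| ≤ 1 := by
        rw [abs_mul]
        calc |pp wd y i j| * |y (wd i j)| ≤ 1 * 1 :=
              mul_le_mul (pp_bd wd y hy1 i j) (hy1 _) (abs_nonneg _) zero_le_one
          _ = 1 := by norm_num
      have h4 := abs_le.1 h3
      simp only [tt]
      constructor <;> linarith
    | N i =>
      have := hpb i d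
      simp only [tt]
      constructor <;> linarith
    | Y v =>
      have := hyb v
      simp only [tt]
      constructor <;> linarith
    | Z =>
      simp only [tt]
      rw [y0]
      constructor <;> linarith
    | D =>
      simp only [tt]
      constructor <;> linarith
  · rw [sol_iff]
    have hlast : ∀ i, pp wd y i d = ∏ j, y (wd i j) := by
      intro i
      unfold pp
      rw [Finset.prod_range]
      apply Finset.prod_congr rfl
      intro j _
      rw [dif_pos j.2]
    have hstep : ∀ i (j : Fin d), pp wd y i (j + 1) = pp wd y i j * y (wd i j) := by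
      intro i j
      unfold pp
      rw [Finset.prod_range_succ, dif_pos j.2]
    refine ⟨?_, ?_, ?_, ?_, ?_, ?_⟩
    · intro i j
      simp only [tt, Fin.val_castSucc]
      ring
    · intro i j
      simp only [tt, Fin.val_castSucc, Fin.val_succ]
      rw [hstep]
      ring
    · intro i
      simp only [tt, Fin.val_zero, pp, Finset.range_zero, Finset.prod_empty]
      norm_num
    · intro i
      simp only [tt, Fin.val_last]
      ring
    · simp only [tt]
      ring
    · have e1 : ∀ i, ((c i).toNat : ℚ) * (6 + tt wd y (.P i (Fin.last d))) +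
          ((-c i).toNat : ℚ) * (6 + tt wd y (.N i)) =
          (6 * ((c i).toNat : ℚ) + 6 * ((-c i).toNat : ℚ)) +
            1 / 4 * ε ^ d * ((c i : ℚ) * ∏ j, x j ^ E i j) := by
        intro i
        have e2 : pp wd y i d = ε ^ d * ∏ j, x j ^ E i j := by
          rw [hlast, hwd, y0]
          simp only [ys, mul_pow]
          rw [Finset.prod_mul_distrib, Finset.prod_pow_eq_pow_sum]
          have e4 : ε ^ d = ε ^ (d - ∑ j, E i j) * ε ^ (∑ j, E i j) := by
            rw [← pow_add]
            congr 1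
            have := hd i
            omega
          rw [e4]; ring
        simp only [tt, Fin.val_last]
        rw [e2, ← toNat_sub_toNat_neg' (c i)]
        ring
      simp only [e1]
      rw [Finset.sum_add_distrib, ← Finset.mul_sum, hx]
      simp only [tt]
      ring

/-- Theorem B. -/
theorem thmB (E : Fin r → Fin m → ℕ) (hd : ∀ i, ∑ j, E i j ≤ d) :
    ∃ (wd : Fin r → Fin d → Fin (m + 1)), ∀ c : Fin r → ℤ,
      (∃ x : Fin m → ℚ, ∑ i, (c i : ℚ) * ∏ j, x j ^ E i j = 0) ↔
      ∃ t : Va m r d → ℚ, (∀ s, -1 < t s ∧ t s < 1) ∧ Sol wd c t := by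
  obtain ⟨wd, hwd⟩ := exists_words E _ hd
  refine ⟨wd, fun c => ⟨?_, ?_⟩⟩
  · rintro ⟨x, hx⟩
    exact sol_of_poly E hd wd hwd c x hx
  · rintro ⟨t, ht, hs⟩
    exact poly_of_sol E hd wd hwd c t ht hs

end Run7.h356
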