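import Pool.Agent.Run7.h356.Suff
import Pool.Agent.Helper557.Co.Decomp2

set_option autoImplicit false
set_option linter.deprecated false

namespace Run7.h356

open Pool.Agent.Helper336.CF Pool.Agent.Helper557.Co

variable {N : ℕ}

/-- A vector on `Fin N` as a flat vector. -/
def ext (v : Fin N → ℕ) : ℕ → ℕ := fun t => if h : t < N then v ⟨t, h⟩ else 0

theorem ext_lt (v : Fin N → ℕ) (t : ℕ) (h : t < N) : ext v t = v ⟨t, h⟩ := by
  simp [ext, h]

/-- The letters. -/
def ltr (hN : 0 < N) : ℕ → Fin N := fun t => if h : t < N then ⟨t, h⟩ else ⟨0, hN⟩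

/-- The bounded language of a set of vectors. -/
def Lg (M : Set (Fin N → ℕ)) : Set (List (Fin N)) :=
  {w | ∃ k, k ∈ M ∧ w = (List.ofFn (fun i : Fin N => List.replicate (k i) i)).flatten}

theorem flat_sw (v : Fin N → ℕ) :
    (List.ofFn (fun i : Fin N => List.replicate (v i) i)).flatten = sw v := by
  unfold sw
  rw [List.ofFn_eq_map, Fin.sort_univ, List.flatMap_def]

theorem sw_inj (v v' : Fin N → ℕ) (h : sw v = sw v') : v = v' := by
  funext r
  rw [← count_sw v r, ← count_sw v' r, h]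

theorem sw_mem_Lg (M : Set (Fin N → ℕ)) (v : Fin N → ℕ) : sw v ∈ Lg M ↔ v ∈ M := by
  constructor
  · rintro ⟨k, hk, h⟩
    rw [flat_sw] at h
    rw [sw_inj v k h]
    exact hk
  · intro h
    exact ⟨v, h, (flat_sw v).symm⟩

theorem flat_wd (hN : 0 < N) (v : Fin N → ℕ) (u : ℕ → ℕ) (hu : ∀ t : Fin N, u t = v t) :
    (List.ofFn (fun i : Fin N => List.replicate (v i) i)).flatten = wd (ltr hN) u 0 N := by
  unfold wd
  rw [List.ofFn_eq_map, ← List.flatMap_def, ← List.range_eq_range']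
  have : List.range N = (List.finRange N).map (fun i : Fin N => (i : ℕ)) := by
    simp
  rw [this, List.flatMap_map]
  apply List.flatMap_congr
  intro t _
  rw [hu]
  congr 1
  simp [ltr]

theorem Lg_eq_LW (hN : 0 < N) (A : (ℕ → ℕ) → Prop) (hA : Dep 0 N A) :
    Lg {v : Fin N → ℕ | A (ext v)} = LW (ltr hN) 0 N A := by
  ext w
  constructor
  · rintro ⟨v, hv, rfl⟩
    exact ⟨ext v, hv, flat_wd hN v (ext v) (fun t => ext_lt v t t.2)⟩
  · rintro ⟨v, hv, rfl⟩
    refine ⟨fun t => v t, ?_, (flat_wd hN (fun t => v t) v (fun t => rfl)).symm⟩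
    refine hA v _ ?_ hv
    intro t _ ht
    rw [ext_lt _ t (by omega)]

/-- Vectors supported on the first `n0` letters. -/
theorem Lg_eq_LW' (hN : 0 < N) (n0 : ℕ) (hn : n0 ≤ N) (A : (ℕ → ℕ) → Prop) (hA : Dep 0 n0 A) :
    Lg {v : Fin N → ℕ | A (ext v) ∧ ∀ t, n0 ≤ t → ext v t = 0} = LW (ltr hN) 0 n0 A := by
  have hzero : ∀ (u : ℕ → ℕ), (∀ t, n0 ≤ t → u t = 0) →
      wd (ltr hN) u 0 N = wd (ltr hN) u 0 n0 := by
    intro u hu
    obtain ⟨e, rfl⟩ : ∃ e, N = n0 + e := ⟨N - n0, by omega⟩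
    rw [wd_append, zero_add]
    have : wd (ltr hN) u n0 e = wd (ltr hN) 0 n0 e :=
      wd_congr _ _ _ _ _ (fun t ht _ => hu t ht)
    rw [this, wd_zero, List.append_nil]
  ext w
  constructor
  · rintro ⟨v, ⟨hv, hz⟩, rfl⟩
    refine ⟨ext v, hv, ?_⟩
    rw [flat_wd hN v (ext v) (fun t => ext_lt v t t.2), hzero _ hz]
  · rintro ⟨v, hv, rfl⟩
    let v' : Fin N → ℕ := fun t => if (t : ℕ) < n0 then v t else 0
    have h1 : ∀ t, n0 ≤ t → ext v' t = 0 := by
      intro t ht
      unfold ext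
      split_ifs with h
      · simp only [v']
        rw [if_neg (by omega)]
      · rfl
    have h2 : ∀ t, t < n0 → ext v' t = v t := by
      intro t ht
      rw [ext_lt _ t (by omega)]
      simp only [v']
      rw [if_pos ht]
    refine ⟨v', ⟨hA v _ (fun t _ ht => (h2 t (by omega)).symm) hv, h1⟩, ?_⟩
    rw [flat_wd hN v' (ext v') (fun t => ext_lt v' t t.2), hzero _ h1]
    exact wd_congr _ _ _ _ _ (fun t _ ht => (h2 t (by omega)).symm)

end Run7.h356
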