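import Pool.Agent.Run7.h356.Core2
import Pool.Agent.Run7.h356.Lang

set_option autoImplicit false
set_option linter.deprecated false

namespace Run7.h356

open Pool.Agent.Helper336.CF Pool.Agent.Helper557.Co

theorem dep_RX (s : ℕ) : Dep (3 * s) 3 (fun v => RX v s) := by
  intro v v' hv h
  unfold RX at h ⊢
  rw [← hv (3 * s) (by omega) (by omega), ← hv (3 * s + 1) (by omega) (by omega),
    ← hv (3 * s + 2) (by omega) (by omega)]
  exact h

theorem dep_MM {k G : ℕ} (p q : Fin G → Fin k) (w : Fin G → Fin k → ℕ) (W : Fin G → ℕ) :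
    Dep 0 (3 * (k + 2)) (MM p q w W) := by
  intro v v' hv h
  have h012 : v 0 = v' 0 ∧ v 1 = v' 1 ∧ v 2 = v' 2 ∧ v 5 = v' 5 :=
    ⟨hv 0 (by omega) (by omega), hv 1 (by omega) (by omega), hv 2 (by omega) (by omega),
      hv 5 (by omega) (by omega)⟩
  obtain ⟨e0, e1, e2, e5⟩ := h012
  rcases h with h | h | h | h | h
  · left
    intro s hs
    exact dep_RX s v v' (fun t ht1 ht2 => hv t (by omega) (by omega)) (h s hs)
  · right; left
    obtain ⟨h1, h2, s, hs, hs0, h3⟩ := h
    refine ⟨by rw [← e0, ← e1, ← e2]; exact h1, ?_, s, hs, hs0, ?_⟩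
    · intro s hs hs0
      rcases h2 s hs hs0 with h | h
      · exact Or.inl (dep_HH s v v' (fun t ht1 ht2 => hv t (by omega) (by omega)) h)
      · exact Or.inr (dep_VV s v v' (fun t ht1 ht2 => hv t (by omega) (by omega)) h)
    · exact dep_HH s v v' (fun t ht1 ht2 => hv t (by omega) (by omega)) h3
  · right; right; left
    unfold MT2 at h ⊢
    rw [← e0, ← e1, ← e2]
    exact h
  · right; right; right; left
    obtain ⟨g, h1, h2⟩ := h
    refine ⟨g, by rw [← e0, ← e1, ← e2]; exact h1, ?_⟩
    rcases h2 with ⟨s, h⟩ | ⟨s, hs, h⟩ | h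
    · left
      refine ⟨s, ?_⟩
      have := s.2
      rw [← hv _ (by omega) (by omega), ← hv _ (by omega) (by omega)]
      exact h
    · right; left
      refine ⟨s, hs, ?_⟩
      have := s.2
      rw [← hv _ (by omega) (by omega), ← hv _ (by omega) (by omega)]
      exact h
    · right; right
      have := (p g).2
      have := (q g).2
      rw [← hv _ (by omega) (by omega), ← hv _ (by omega) (by omega)]
      exact h
  · right; right; right; right
    obtain ⟨g, h1, c, h2, h3⟩ := h
    refine ⟨g, by rw [← e0, ← e1, ← e2]; exact h1, c, ?_, ?_⟩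
    · intro s
      have := s.2
      rw [← h2 s, hv _ (by omega) (by omega)]
    · rw [← h3, e5]

/-- The semilinear set of the construction, on `N` letters. -/
def MS {k G : ℕ} (N : ℕ) (p q : Fin G → Fin k) (w : Fin G → Fin k → ℕ) (W : Fin G → ℕ) :
    Set (Fin N → ℕ) := {v | MM p q w W (ext v) ∧ ∀ t, 3 * (k + 2) ≤ t → ext v t = 0}

theorem exists_dat {k G N : ℕ} (hN : 3 * (k + 2) ≤ N) (p q : Fin G → Fin k)
    (w : Fin G → Fin k → ℕ) (W : Fin G → ℕ)
    (h : IsCF (Lg (MS N p q w W))) : Nonempty (Dat p q w W) := by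
  classical
  obtain ⟨ι, fι, lo, hi, P, B, h1, h2, h3⟩ := decomposition (⟨0, by omega⟩ : Fin N)
    (fun r => Fin.mk_le_of_le_val (Nat.zero_le _)) _ h
  let D : ℕ := B.factorial
  have hD : 0 < D := Nat.factorial_pos B
  let x : ℕ → Fin N → ℕ := fun i r => if (r : ℕ) < 3 * (k + 2) then D * (i + 1) * XX r else 0
  have hxl : ∀ i t, t < 3 * (k + 2) → ext (x i) t = D * (i + 1) * XX t := by
    intro i t ht
    rw [ext_lt _ _ (by omega)]
    simp only [x]
    rw [if_pos ht]
  have hx : ∀ i, sw (x i) ∈ (Lg (MS N p q w W) : Language (Fin N)) := by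
    intro i
    refine (sw_mem_Lg _ _).2 ⟨Or.inl ?_, ?_⟩
    · intro s hs
      constructor
      · rw [hxl _ _ (by omega), hxl _ _ (by omega), XX1, XX0]; ring
      · rw [hxl _ _ (by omega), hxl _ _ (by omega), XX2, XX0]
    · intro t ht
      unfold ext
      split_ifs with h
      · simp only [x]
        rw [if_neg (by omega)]
      · rfl
  choose v0 n hv0 hxe hlo hnc hm using fun i => h3 (x i) (hx i)
  -- pigeonhole
  have hv0' : ∀ i r, v0 i r < B + 1 := by
    intro i r
    have := Finset.single_le_sum (f := v0 i) (fun _ _ => Nat.zero_le _) (Finset.mem_univ r)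
    have := hv0 i
    omega
  let F : ℕ → (Fin N → Fin (B + 1)) × (ι → Bool) :=
    fun i => (fun r => ⟨v0 i r, hv0' i r⟩, fun π => decide (n i π = 0))
  obtain ⟨y, hy⟩ := Finite.exists_infinite_fiber F
  let φ := Nat.orderEmbeddingOfSet (F ⁻¹' {y})
  have hφ : ∀ j, F (φ j) = y := by
    intro j
    have : φ j ∈ Set.range φ := ⟨j, rfl⟩
    rw [Nat.orderEmbeddingOfSet_range] at this
    exact this
  obtain ⟨a, b, hab, hle⟩ := wellQuasiOrdered_le (α := ι → ℕ) (fun j => n (φ j))
  set i := φ a with hi_def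
  set i' := φ b with hi'_def
  have hii : i < i' := φ.strictMono hab
  have hFF : F i = F i' := by rw [hφ a, hφ b]
  have hv : v0 i = v0 i' := by
    funext r
    have := congrFun (congrArg Prod.fst hFF) r
    simpa [F] using this
  have hsupp : ∀ π, n i π = 0 ↔ n i' π = 0 := by
    intro π
    have := congrFun (congrArg Prod.snd hFF) π
    simpa [F] using this
  have hle' : ∀ π, n i π ≤ n i' π := hle
  have hxi : ∀ t (ht : t < 3 * (k + 2)), D * (i + 1) * XX t =
      v0 i ⟨t, by omega⟩ + ∑ π, n i π * P π ⟨t, by omega⟩ := by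
    intro t ht
    rw [← hxl i t ht, ext_lt _ _ (by omega)]
    have := congrFun (hxe i) ⟨t, by omega⟩
    simpa [Finset.sum_apply] using this
  have hxi' : ∀ t (ht : t < 3 * (k + 2)), D * (i' + 1) * XX t =
      v0 i ⟨t, by omega⟩ + ∑ π, n i' π * P π ⟨t, by omega⟩ := by
    intro t ht
    rw [← hxl i' t ht, ext_lt _ _ (by omega)]
    have := congrFun (hxe i') ⟨t, by omega⟩
    rw [← hv] at this
    simpa [Finset.sum_apply] using this
  refine ⟨⟨ι, fι, fun π => ext (P π), fun π => n i' π - n i π, D * (i + 1), D * (i' - i), B,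
    ?_, ?_, ?_, ?_, ?_, ?_, ?_⟩⟩
  · positivity
  · exact Nat.mul_pos hD (by omega)
  · intro a ha hab
    exact Dvd.dvd.mul_right (Nat.dvd_factorial ha hab) _
  · intro π t1 t2 t3 h12 h13 h23
    by_contra hcon
    push Not at hcon
    obtain ⟨c1, c2, c3⟩ := hcon
    have key : ∀ t, ext (P π) t ≠ 0 → t = lo π ∨ t = hi π := by
      intro t ht
      by_cases htN : t < N
      · rw [ext_lt _ _ htN] at ht
        rcases h1 π _ ht with h | h
        · left; rw [← h]
        · right; rw [← h]
      · exact absurd (by simp [ext, htN]) ht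
    rcases key t1 c1 with e1 | e1 <;> rcases key t2 c2 with e2 | e2 <;>
      rcases key t3 c3 with e3 | e3 <;> omega
  · intro π t
    by_cases htN : t < N
    · rw [ext_lt _ _ htN]
      have := Finset.single_le_sum (f := P π) (fun _ _ => Nat.zero_le _)
        (Finset.mem_univ (⟨t, htN⟩ : Fin N))
      exact this.trans (h2 π)
    · simp [ext, htN]
  · intro t ht
    have e1 := hxi t ht
    have e2 := hxi' t ht
    have htN : t < N := by omega
    simp only [ext_lt _ _ htN]
    have e3 : ∑ π, n i' π * P π ⟨t, htN⟩ = ∑ π, n i π * P π ⟨t, htN⟩ +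
        ∑ π, (n i' π - n i π) * P π ⟨t, htN⟩ := by
      rw [← Finset.sum_add_distrib]
      apply Finset.sum_congr rfl
      intro π _
      rw [← add_mul, Nat.add_sub_cancel' (hle' π)]
    obtain ⟨j, hj⟩ : ∃ j, i' = i + j := ⟨i' - i, by omega⟩
    have hj' : i' - i = j := by omega
    rw [hj']
    have e4 : D * (i' + 1) * XX t = D * (i + 1) * XX t + D * j * XX t := by
      rw [hj]; ring
    omega
  · intro f hf
    have hm' := hm i (fun π => n i π + f π) (by
      intro π
      constructor
      · intro h; omega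
      · intro h
        have h4 := (hsupp π).1 h
        have : f π = 0 := by
          by_contra h5
          apply hf π h5
          omega
        omega)
    have hmem := ((sw_mem_Lg _ _).1 hm').1
    refine dep_MM p q w W _ _ ?_ hmem
    intro t _ ht
    rw [zero_add] at ht
    have htN : t < N := by omega
    rw [ext_lt _ _ htN]
    have e1 := hxi t ht
    simp only [ext_lt _ _ htN, Pi.add_apply, Finset.sum_apply, Pi.smul_apply, smul_eq_mul, add_mul,
      Finset.sum_add_distrib]
    rw [e1, add_assoc]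

/-- Theorem A. -/
theorem thmA {k G N : ℕ} (hN : 3 * (k + 2) ≤ N) (p q : Fin G → Fin k)
    (w : Fin G → Fin k → ℕ) (W : Fin G → ℕ)
    (hpq : ∀ g, p g ≠ q g) (hW : ∀ g, 1 ≤ W g) :
    IsCF (Lg (MS N p q w W)) ↔ ∃ u : Fin k → ℚ, (∀ s, 1 < u s ∧ u s < 3) ∧
      ∀ g, ∑ s, (w g s : ℚ) * (if s = q g then (4 + u (p g)) * (4 + u s) else 4 + u s) = W g := by
  classical
  constructor
  · intro h
    obtain ⟨d⟩ := exists_dat hN p q w W h
    exact nec_core d hpq
  · rintro ⟨u, hu, hrel⟩
    have e : Lg (MS N p q w W) = LW (ltr (by omega)) 0 (3 * (k + 2)) (MM p q w W) :=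
      Lg_eq_LW' (by omega) _ hN _ (dep_MM p q w W)
    rw [e]
    -- a common denominator
    let D0 : ℕ := ∏ s, (u s).den
    let D1 : ℕ := ∏ g, W g
    have hD0 : 0 < D0 := Finset.prod_pos (fun s _ => (u s).pos)
    have hD1 : 0 < D1 := Finset.prod_pos (fun g _ => hW g)
    have hden : ∀ s, ∃ U0 : ℕ, (U0 : ℚ) = u s * D0 := by
      intro s
      obtain ⟨c, hc⟩ : (u s).den ∣ D0 := Finset.dvd_prod_of_mem _ (Finset.mem_univ s)
      have hnum : 0 ≤ (u s).num := by
        rw [Rat.num_nonneg]
        linarith [(hu s).1]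
      refine ⟨(u s).num.toNat * c, ?_⟩
      have h1 : (((u s).num.toNat : ℕ) : ℚ) = ((u s).num : ℚ) := by
        have : (((u s).num.toNat : ℤ)) = (u s).num := Int.toNat_of_nonneg hnum
        exact_mod_cast congrArg (fun z : ℤ => (z : ℚ)) this
      rw [hc]
      push_cast
      rw [h1]
      have h2 : u s * (u s).den = (u s).num := Rat.mul_den_eq_num (u s)
      rw [← h2]
      ring
    choose U0 hU0 using hden
    have hD0q : (0 : ℚ) < D0 := by exact_mod_cast hD0
    have hD1q : (0 : ℚ) < D1 := by exact_mod_cast hD1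
    refine suff _ p q w W hpq hW (D0 * D1) (fun s => U0 s * D1) (Nat.mul_pos hD0 hD1) ?_ ?_ ?_ ?_
    · intro s
      constructor
      · refine Nat.mul_lt_mul_of_pos_right ?_ hD1
        have : (D0 : ℚ) < U0 s := by
          rw [hU0]
          nlinarith [(hu s).1]
        exact_mod_cast this
      · rw [← mul_assoc]
        refine Nat.mul_lt_mul_of_pos_right ?_ hD1
        have : (U0 s : ℚ) < 3 * D0 := by
          rw [hU0]
          nlinarith [(hu s).2]
        exact_mod_cast this
    · intro g s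
      exact Dvd.dvd.mul_left (Finset.dvd_prod_of_mem _ (Finset.mem_univ g)) _
    · intro g
      exact Dvd.dvd.mul_left (Finset.dvd_prod_of_mem _ (Finset.mem_univ g)) _
    · intro g
      have h1 := hrel g
      have h2 : ((∑ s, w g s * (if s = q g then
          (4 * (D0 * D1) + U0 (p g) * D1) * (4 * (D0 * D1) + U0 s * D1)
          else (D0 * D1) * (4 * (D0 * D1) + U0 s * D1)) : ℕ) : ℚ) =
          ((W g * ((D0 * D1) * (D0 * D1)) : ℕ) : ℚ) := by
        push_cast
        rw [← h1, Finset.sum_mul]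
        apply Finset.sum_congr rfl
        intro s _
        rw [hU0, hU0]
        split_ifs
        · ring
        · ring
      exact_mod_cast h2

end Run7.h356
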