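import Pool.Agent.Run7.h356.SL
import Pool.Agent.Run7.h356.ThmA
import Pool.Agent.Run7.h356.Poly2

set_option autoImplicit false
set_option linter.deprecated false

namespace Run7.h356

open Pool.Agent.Helper336.CF

/-! ### Primitive recursiveness of the pieces -/

theorem enc_ofNat (n : ℕ) : Encodable.encode (Int.ofNat n) = 2 * n := rfl

theorem enc_negSucc (n : ℕ) : Encodable.encode (Int.negSucc n) = 2 * n + 1 := rfl

theorem prim_toNat : Primrec (fun z : ℤ => z.toNat) := by
  have h : Primrec (fun n : ℕ => if n % 2 = 0 then n / 2 else 0) :=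
    Primrec.ite (Primrec.eq.comp (Primrec.nat_mod.comp Primrec.id (Primrec.const 2))
      (Primrec.const 0)) (Primrec.nat_div.comp Primrec.id (Primrec.const 2)) (Primrec.const 0)
  refine (h.comp Primrec.encode).of_eq (fun z => ?_)
  cases z with
  | ofNat n =>
    rw [enc_ofNat]
    simp
  | negSucc n =>
    rw [enc_negSucc, if_neg (by omega)]
    rfl

theorem prim_negToNat : Primrec (fun z : ℤ => (-z).toNat) := by
  have h : Primrec (fun n : ℕ => if n % 2 = 0 then 0 else n / 2 + 1) :=
    Primrec.ite (Primrec.eq.comp (Primrec.nat_mod.comp Primrec.id (Primrec.const 2))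
      (Primrec.const 0)) (Primrec.const 0)
      (Primrec.nat_add.comp (Primrec.nat_div.comp Primrec.id (Primrec.const 2)) (Primrec.const 1))
  refine (h.comp Primrec.encode).of_eq (fun z => ?_)
  cases z with
  | ofNat n =>
    rw [enc_ofNat, if_pos (by omega)]
    simp
  | negSucc n =>
    rw [enc_negSucc, if_neg (by omega)]
    have : (-Int.negSucc n).toNat = n + 1 := by
      rw [Int.neg_negSucc]; rfl
    rw [this]
    omega

variable {α : Type} [Primcodable α]

theorem prim_pi {n : ℕ} {f : α → Fin n → ℕ} (h : ∀ t, Primrec (fun a => f a t)) : Primrec f := by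
  rw [Primrec.fin_curry]
  have h1 : Primrec₂ (fun (t : Fin n) (a : α) => f a t) := Primrec.fin_curry₁.2 h
  exact h1.swap

theorem prim_sum {r : ℕ} (f : Fin r → α → ℕ) (h : ∀ i, Primrec (f i)) :
    Primrec (fun a => ∑ i, f i a) := by
  induction r with
  | zero =>
    simp only [Finset.univ_eq_empty, Finset.sum_empty]
    exact Primrec.const 0
  | succ r ih =>
    simp only [Fin.sum_univ_succ]
    exact Primrec.nat_add.comp (h 0) (ih (fun i => f i.succ) (fun i => h i.succ))

theorem prim_single {V : Type} [DecidableEq V] (a s : V) (f : α → ℕ) (hf : Primrec f) :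
    Primrec (fun x => (Pi.single a (f x) : V → ℕ) s) := by
  by_cases h : s = a
  · subst h
    simpa using hf
  · simp only [Pi.single_apply, if_neg h]
    exact Primrec.const 0

theorem prim_gw {m r d : ℕ} (wd : Fin r → Fin d → Fin (m + 1)) (g : Ga r d) (s : Va m r d) :
    Primrec (fun c : Fin r → ℤ => gw wd c g s) := by
  cases g with
  | A i j => exact Primrec.const _
  | B i j => exact Primrec.const _
  | O i => exact Primrec.const _
  | M i => exact Primrec.const _
  | Z => exact Primrec.const _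
  | F =>
    simp only [gw, Pi.add_apply, Finset.sum_apply]
    refine Primrec.nat_add.comp (prim_sum _ (fun i => ?_)) (Primrec.const _)
    have h1 : Primrec (fun c : Fin r → ℤ => c i) :=
      Primrec.fin_app.comp Primrec.id (Primrec.const i)
    exact Primrec.nat_add.comp (prim_single _ _ _ (prim_toNat.comp h1))
      (prim_single _ _ _ (prim_negToNat.comp h1))

theorem prim_gW {r d : ℕ} (g : Ga r d) : Primrec (fun c : Fin r → ℤ => gW c g) := by
  cases g with
  | A i j => exact Primrec.const _
  | B i j => exact Primrec.const _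
  | O i => exact Primrec.const _
  | M i => exact Primrec.const _
  | Z => exact Primrec.const _
  | F =>
    simp only [gW]
    refine Primrec.nat_add.comp (prim_sum _ (fun i => ?_)) (Primrec.const _)
    have h1 : Primrec (fun c : Fin r → ℤ => c i) :=
      Primrec.fin_app.comp Primrec.id (Primrec.const i)
    exact Primrec.nat_add.comp (Primrec.nat_mul.comp (Primrec.const 6) (prim_toNat.comp h1))
      (Primrec.nat_mul.comp (Primrec.const 6) (prim_negToNat.comp h1))

theorem prim_starP (N k g : ℕ) (w : α → Fin k → ℕ) (W : α → ℕ)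
    (hw : ∀ s, Primrec (fun a => w a s)) (hW : Primrec W) :
    Primrec (fun a => starP N k g (w a) (W a)) := by
  unfold starP
  refine Primrec.list_append.comp (Primrec.const _) (Primrec.list_append.comp
    (Primrec.list_ofFn (fun s => ?_)) (Primrec.const _))
  refine prim_pi (fun t => ?_)
  unfold pv
  split_ifs
  · exact hw s
  · exact hW
  · exact Primrec.const 0

/-- The constant part of the list. -/
def stars {k G : ℕ} (N : ℕ) (w : Fin G → Fin k → ℕ) (W : Fin G → ℕ) (gF : Fin G) :
    List ((Fin N → ℕ) × List (Fin N → ℕ)) :=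
  ((List.finRange G).filter (fun g : Fin G => decide (g ≠ gF))).map
    (fun g : Fin G => ((0 : Fin N → ℕ), starP N k g (w g) (W g)))

theorem sem_stars {k G N : ℕ} (hN : 3 * (k + 2) ≤ N) (w : Fin G → Fin k → ℕ) (W : Fin G → ℕ)
    (gF : Fin G) (v : Fin N → ℕ) :
    v ∈ Sem (stars N w W gF) ↔ ∃ g : Fin G, g ≠ gF ∧ Star g (w g) (W g) (ext v) ∧
      ∀ t, 3 * (k + 2) ≤ t → ext v t = 0 := by
  simp only [← star_iff k _ hN]
  simp only [Sem, stars, List.mem_map, List.mem_filter, List.mem_finRange, Set.mem_setOf_eq,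
    List.mem_singleton, true_and, decide_eq_true_eq]
  constructor
  · rintro ⟨_, ⟨g, hg, rfl⟩, h⟩
    exact ⟨g, hg, _, rfl, h⟩
  · rintro ⟨g, hg, _, rfl, h⟩
    exact ⟨_, ⟨g, hg, rfl⟩, h⟩

theorem sem_all {k G N : ℕ} (hN : 3 * (k + 2) ≤ N) (p q : Fin G → Fin k)
    (S0 : List ((Fin N → ℕ) × List (Fin N → ℕ)))
    (h0 : Sem S0 = {v | (MX k (ext v) ∨ MT1 k (ext v) ∨ MT2 G (ext v) ∨ MT3 p q (ext v)) ∧
      ∀ t, 3 * (k + 2) ≤ t → t < N → ext v t = 0})
    (w : Fin G → Fin k → ℕ) (W : Fin G → ℕ) (gF : Fin G) :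
    Sem ((S0 ++ stars N w W gF) ++ [((0 : Fin N → ℕ), starP N k gF (w gF) (W gF))]) =
      MS N p q w W := by
  rw [Sem_append, Sem_append, h0]
  ext v
  rw [Set.mem_union, Set.mem_union, sem_stars hN, star_iff k _ hN]
  have hz : (∀ t, 3 * (k + 2) ≤ t → t < N → ext v t = 0) ↔ (∀ t, 3 * (k + 2) ≤ t → ext v t = 0) := by
    constructor
    · intro h t h1
      by_cases h2 : t < N
      · exact h t h1 h2
      · unfold ext
        rw [dif_neg h2]
    · intro h t h1 _
      exact h t h1
  simp only [MS, MM, Set.mem_setOf_eq, hz]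
  constructor
  · rintro ((⟨h1, h2⟩ | ⟨g, _, h1, h2⟩) | ⟨h1, h2⟩)
    · exact ⟨by tauto, h2⟩
    · exact ⟨Or.inr (Or.inr (Or.inr (Or.inr ⟨g, h1⟩))), h2⟩
    · exact ⟨Or.inr (Or.inr (Or.inr (Or.inr ⟨gF, h1⟩))), h2⟩
  · rintro ⟨h1, h2⟩
    rcases h1 with h | h | h | h | ⟨g, h⟩
    · exact Or.inl (Or.inl ⟨Or.inl h, h2⟩)
    · exact Or.inl (Or.inl ⟨Or.inr (Or.inl h), h2⟩)
    · exact Or.inl (Or.inl ⟨Or.inr (Or.inr (Or.inl h)), h2⟩)
    · exact Or.inl (Or.inl ⟨Or.inr (Or.inr (Or.inr h)), h2⟩)
    · by_cases hg : g = gF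
      · subst hg
        exact Or.inr ⟨h, h2⟩
      · exact Or.inl (Or.inr ⟨g, hg, h, h2⟩)

theorem card_Va (m r d : ℕ) : Fintype.card (Va m r d) = 2 * (r * (d + 1)) + m + 3 := by
  let e : Va m r d ≃ (Fin r × Fin (d + 1)) ⊕ (Fin r × Fin d) ⊕ Fin r ⊕ Fin (m + 1) ⊕ Fin 2 :=
    { toFun := fun x => match x with
        | .P i j => Sum.inl (i, j)
        | .Q i j => Sum.inr (Sum.inl (i, j))
        | .N i => Sum.inr (Sum.inr (Sum.inl i))
        | .Y v => Sum.inr (Sum.inr (Sum.inr (Sum.inl v)))
        | .Z => Sum.inr (Sum.inr (Sum.inr (Sum.inr 0)))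
        | .D => Sum.inr (Sum.inr (Sum.inr (Sum.inr 1)))
      invFun := fun x => match x with
        | Sum.inl (i, j) => .P i j
        | Sum.inr (Sum.inl (i, j)) => .Q i j
        | Sum.inr (Sum.inr (Sum.inl i)) => .N i
        | Sum.inr (Sum.inr (Sum.inr (Sum.inl v))) => .Y v
        | Sum.inr (Sum.inr (Sum.inr (Sum.inr i))) => if i = 0 then .Z else .D
      left_inv := by
        intro x
        cases x <;> rfl
      right_inv := by
        intro x
        rcases x with ⟨i, j⟩ | ⟨i, j⟩ | i | v | i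
        · rfl
        · rfl
        · rfl
        · rfl
        · fin_cases i <;> rfl }
  rw [Fintype.card_congr e]
  simp only [Fintype.card_sum, Fintype.card_prod, Fintype.card_fin]
  ring

/-- The main theorem in terms of `Sem`. -/
theorem main (m r d N : ℕ) (hN : 6 * r * (d + 1) + 3 * m + 15 ≤ N) (E : Fin r → Fin m → ℕ)
    (hE : ∀ i, ∑ j, E i j ≤ d) :
    ∃ (S0 : List ((Fin N → ℕ) × List (Fin N → ℕ))) (f : (Fin r → ℤ) → List (Fin N → ℕ)),
      Primrec f ∧ ∀ c, (∃ x : Fin m → ℚ, ∑ i, (c i : ℚ) * ∏ j, x j ^ E i j = 0) ↔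
        IsCF (Lg (Sem (S0 ++ [((0 : Fin N → ℕ), f c)]))) := by
  classical
  obtain ⟨wd, hB⟩ := thmB E hE
  let k := Fintype.card (Va m r d)
  let G := Fintype.card (Ga r d)
  have hk : 3 * (k + 2) ≤ N := by
    have : k = 2 * (r * (d + 1)) + m + 3 := card_Va m r d
    rw [this]
    have h6 : 6 * r * (d + 1) = 6 * (r * (d + 1)) := by ring
    omega
  let e : Va m r d ≃ Fin k := Fintype.equivFin _
  let e' : Ga r d ≃ Fin G := Fintype.equivFin _
  let p : Fin G → Fin k := fun g => e (gp wd (e'.symm g))
  let q : Fin G → Fin k := fun g => e (gq wd (e'.symm g))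
  let w : (Fin r → ℤ) → Fin G → Fin k → ℕ := fun c g s => gw wd c (e'.symm g) (e.symm s)
  let W : (Fin r → ℤ) → Fin G → ℕ := fun c g => gW c (e'.symm g)
  let gF : Fin G := e' .F
  have hpq : ∀ g, p g ≠ q g := fun g h => gpq wd (e'.symm g) (e.injective h)
  obtain ⟨S0, hS0⟩ := exists_list _ (SP_and (N := N) _ _ (SP_or _ _ (SP_MX k)
    (SP_or _ _ (SP_MT1 k) (SP_or _ _ (SP_MT2 G) (SP_MT3 p q)))) (SP_tail (3 * (k + 2))))
  -- the gadgets other than the last one are constant
  have hconst : ∀ c, stars N (w c) (W c) gF = stars N (w 0) (W 0) gF := by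
    intro c
    unfold stars
    apply List.map_congr_left
    intro g hg
    have hg' : g ≠ gF := by
      have := (List.mem_filter.1 hg).2
      simpa using this
    have hne : e'.symm g ≠ .F := by
      intro h
      apply hg'
      exact (Equiv.symm_apply_eq e').1 h
    have h1 : w c g = w 0 g := by
      funext s
      simp only [w]
      generalize e'.symm g = g0 at hne
      cases g0 with
      | F => exact absurd rfl hne
      | _ => rfl
    have h2 : W c g = W 0 g := by
      simp only [W]
      generalize e'.symm g = g0 at hne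
      cases g0 with
      | F => exact absurd rfl hne
      | _ => rfl
    rw [h1, h2]
  refine ⟨S0 ++ stars N (w 0) (W 0) gF, fun c => starP N k gF (w c gF) (W c gF),
    prim_starP N k gF _ _ (fun s => prim_gw _ _ _) (prim_gW _), fun c => ?_⟩
  rw [← hconst c, sem_all hk p q S0 hS0 (w c) (W c) gF,
    thmA hk p q (w c) (W c) hpq (fun g => gW_pos c _), hB c]
  constructor
  · rintro ⟨t, ht, hs⟩
    refine ⟨fun s => 2 + t (e.symm s), fun s => ?_, fun g => ?_⟩
    · have := ht (e.symm s)
      constructor <;> linarith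
    · have := hs (e'.symm g)
      rw [← e.symm.sum_comp] at this
      rw [← this]
      apply Finset.sum_congr rfl
      intro s _
      have e1 : (s = q g) ↔ (e.symm s = gq wd (e'.symm g)) := by
        simp only [q]
        rw [Equiv.symm_apply_eq]
      simp only [w, p, e1, Equiv.symm_apply_apply]
      split_ifs
      · ring
      · ring
  · rintro ⟨u, hu, hs⟩
    refine ⟨fun v => u (e v) - 2, fun v => ?_, fun g => ?_⟩
    · have := hu (e v)
      constructor <;> linarith
    · have := hs (e' g)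
      rw [← e.sum_comp] at this
      simp only [W, Equiv.symm_apply_apply] at this
      rw [← this]
      apply Finset.sum_congr rfl
      intro s _
      have e1 : (e s = q (e' g)) ↔ (s = gq wd g) := by
        simp only [q, Equiv.symm_apply_apply]
        exact e.injective.eq_iff
      simp only [w, p, e1, Equiv.symm_apply_apply]
      split_ifs
      · ring
      · ring

end Run7.h356
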