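import Pool.Agent.Run7.h356.Defs

set_option autoImplicit false
set_option linter.deprecated false

namespace Run7.h356

/-- The vector `(1, 4, 1)` on every block. -/
def XX (t : ℕ) : ℕ := if t % 3 = 1 then 4 else 1

theorem XX0 (s : ℕ) : XX (3 * s) = 1 := by
  unfold XX; rw [if_neg (by omega)]

theorem XX1 (s : ℕ) : XX (3 * s + 1) = 4 := by
  unfold XX; rw [if_pos (by omega)]

theorem XX2 (s : ℕ) : XX (3 * s + 2) = 1 := by
  unfold XX; rw [if_neg (by omega)]

/-- The data extracted from the decomposition. -/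
structure Dat {k G : ℕ} (p q : Fin G → Fin k) (w : Fin G → Fin k → ℕ) (W : Fin G → ℕ) where
  ι : Type
  fin : Fintype ι
  E : ι → ℕ → ℕ
  δ : ι → ℕ
  T : ℕ
  Nx : ℕ
  B : ℕ
  hT : 0 < T
  hN : 0 < Nx
  dT : ∀ a, 0 < a → a ≤ B → a ∣ T
  E2 : ∀ π t1 t2 t3, t1 ≠ t2 → t1 ≠ t3 → t2 ≠ t3 → E π t1 = 0 ∨ E π t2 = 0 ∨ E π t3 = 0
  EB : ∀ π t, E π t ≤ B
  sumE : ∀ t, t < 3 * (k + 2) → ∑ π, δ π * E π t = Nx * XX t
  mem : ∀ f : ι → ℕ, (∀ π, f π ≠ 0 → δ π ≠ 0) → MM p q w W (fun t => T * XX t + ∑ π, f π * E π t)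

attribute [instance] Dat.fin

/-- Blocks which are outside of everything. -/
def Bad (x y z : ℕ) : Prop :=
  ¬ (x + 3 * z < y) ∧ ¬ (3 * x + z < y) ∧ y ≠ 2 * x + 2 * z ∧ ∀ g, y ≠ x + (4 + g) * z

theorem bad_not {k G : ℕ} (p q : Fin G → Fin k) (w : Fin G → Fin k → ℕ) (W : Fin G → ℕ)
    (z : ℕ → ℕ) (s : ℕ) (hs : s < k + 2) (hb : Bad (z (3 * s)) (z (3 * s + 1)) (z (3 * s + 2)))
    (h0 : (s = 0 ∧ (z 1 ≠ z 0 + 3 * z 2 ∨ ∀ s', s' < k + 2 → s' ≠ 0 → ¬ HH z s')) ∨
      (s ≠ 0 ∧ RX z 0 ∧ 0 < z 0)) : ¬ MM p q w W z := by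
  obtain ⟨b1, b2, b3, b4⟩ := hb
  have hRX : ¬ RX z s := by
    rintro ⟨h1, h2⟩
    apply b3
    omega
  have hlam : ∀ g, z 1 ≠ z 0 + (4 + g) * z 2 := by
    rcases h0 with ⟨rfl, _⟩ | ⟨_, ⟨h1, h2⟩, h3⟩
    · simpa using b4
    · intro g hg
      simp only [mul_zero, zero_add] at h1 h2
      rw [h1, h2] at hg
      nlinarith
  rintro (h | h | h | ⟨g, h, _⟩ | ⟨g, h, _⟩)
  · exact hRX (h s hs)
  · obtain ⟨h1, h2, s', hs', hs'0, h3⟩ := h
    rcases h0 with ⟨rfl, h4 | h4⟩ | ⟨h4, _⟩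
    · exact h4 h1
    · exact h4 s' hs' hs'0 h3
    · rcases h2 s hs h4 with h5 | h5
      · rcases h5 with h5 | h5
        · exact b1 h5
        · exact b2 h5
      · exact b3 h5
  · rcases h0 with ⟨rfl, _⟩ | ⟨_, ⟨h1, h2⟩, h3⟩
    · simp only [mul_zero, zero_add] at b1 b2
      rcases h with h | h
      · exact b2 h
      · exact b1 h.1
    · simp only [mul_zero, zero_add] at h1 h2
      rcases h with h | h
      · omega
      · omega
  · exact hlam g h
  · exact hlam g h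

section
variable {k G : ℕ} {p q : Fin G → Fin k} {w : Fin G → Fin k → ℕ} {W : Fin G → ℕ}
variable (d : Dat p q w W)

/-- Adding a combination. -/
theorem plus (e : d.ι → ℕ) (he : ∀ π, e π ≠ 0 → d.δ π ≠ 0) :
    ∃ (Y : ℕ) (z : ℕ → ℕ), d.B ≤ Y ∧ 0 < Y ∧ MM p q w W z ∧
      ∀ t, z t = Y * XX t + ∑ π, e π * d.E π t := by
  refine ⟨d.T, _, ?_, d.hT, d.mem e he, fun t => rfl⟩
  rcases Nat.eq_zero_or_pos d.B with h | h
  · omega
  · exact Nat.le_of_dvd d.hT (d.dT d.B h le_rfl)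

/-- Subtracting a combination. -/
theorem minus (e : d.ι → ℕ) (he : ∀ π, e π ≠ 0 → d.δ π ≠ 0) :
    ∃ (Y : ℕ) (z : ℕ → ℕ), d.B < Y ∧ 0 < Y ∧ MM p q w W z ∧
      ∀ t, t < 3 * (k + 2) → z t + ∑ π, e π * d.E π t = Y * XX t := by
  classical
  obtain ⟨K, hK0, hK⟩ : ∃ K, 0 < K ∧ ∀ π, e π ≤ K := by
    refine ⟨∑ π, e π + 1, Nat.succ_pos _, fun π => ?_⟩
    have := Finset.single_le_sum (f := e) (fun _ _ => Nat.zero_le _) (Finset.mem_univ π)
    omega
  have hle : ∀ π, e π ≤ K * d.δ π := by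
    intro π
    by_cases h : e π = 0
    · rw [h]; exact Nat.zero_le _
    · have := Nat.pos_of_ne_zero (he π h)
      calc e π ≤ K := hK π
        _ = K * 1 := (mul_one K).symm
        _ ≤ K * d.δ π := Nat.mul_le_mul_left _ this
  refine ⟨d.T + K * d.Nx, _, ?_, ?_, d.mem (fun π => K * d.δ π - e π) ?_, ?_⟩
  · have h1 : d.B ≤ d.T := by
      rcases Nat.eq_zero_or_pos d.B with h | h
      · omega
      · exact Nat.le_of_dvd d.hT (d.dT d.B h le_rfl)
    have h2 : 0 < K * d.Nx := Nat.mul_pos hK0 d.hN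
    omega
  · have := d.hT
    omega
  · intro π h hδ
    apply h
    beta_reduce
    rw [hδ]
    simp
  · intro t ht
    beta_reduce
    rw [add_assoc, ← Finset.sum_add_distrib, add_mul, mul_assoc K, ← d.sumE t ht, Finset.mul_sum]
    congr 1
    apply Finset.sum_congr rfl
    intro π _
    rw [← add_mul, Nat.sub_add_cancel (hle π), mul_assoc]

theorem plus1 (π : d.ι) (hπ : d.δ π ≠ 0) :
    ∃ (Y : ℕ) (z : ℕ → ℕ), d.B ≤ Y ∧ 0 < Y ∧ MM p q w W z ∧ ∀ t, z t = Y * XX t + d.E π t := by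
  classical
  obtain ⟨Y, z, h1, h2, h3, h4⟩ := plus d (Pi.single π 1) (by
    intro π' h
    have : π' = π := by
      by_contra hne
      exact h (by simp [hne])
    rw [this]; exact hπ)
  refine ⟨Y, z, h1, h2, h3, fun t => ?_⟩
  rw [h4, Finset.sum_eq_single π]
  · simp
  · intro b _ hb
    simp [hb]
  · intro h; exact absurd (Finset.mem_univ _) h

theorem minus1 (π : d.ι) (hπ : d.δ π ≠ 0) :
    ∃ (Y : ℕ) (z : ℕ → ℕ), d.B < Y ∧ 0 < Y ∧ MM p q w W z ∧
      ∀ t, t < 3 * (k + 2) → z t + d.E π t = Y * XX t := by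
  classical
  obtain ⟨Y, z, h1, h2, h3, h4⟩ := minus d (Pi.single π 1) (by
    intro π' h
    have : π' = π := by
      by_contra hne
      exact h (by simp [hne])
    rw [this]; exact hπ)
  refine ⟨Y, z, h1, h2, h3, fun t ht => ?_⟩
  rw [← h4 t ht, Finset.sum_eq_single π]
  · simp
  · intro b _ hb
    simp [hb]
  · intro h; exact absurd (Finset.mem_univ _) h

/-- The other letter of a period through an outer letter is the middle letter of its block. -/
theorem two_letters (π : d.ι) (hπ : d.δ π ≠ 0) (s : ℕ) (hs : s < k + 2) :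
    (d.E π (3 * s) ≠ 0 → d.E π (3 * s + 1) ≠ 0) ∧
    (d.E π (3 * s + 2) ≠ 0 → d.E π (3 * s + 1) ≠ 0) := by
  -- it suffices to treat a block with zero middle letter
  suffices H : d.E π (3 * s + 1) = 0 → (d.E π (3 * s) ≠ 0 ∨ d.E π (3 * s + 2) ≠ 0) → False by
    constructor
    · intro h1 h2; exact H h2 (Or.inl h1)
    · intro h1 h2; exact H h2 (Or.inr h1)
  intro hj hab
  obtain ⟨Y, z, -, hY, hM, hz⟩ := plus1 d π hπ
  have z0 : z (3 * s) = Y + d.E π (3 * s) := by rw [hz, XX0, mul_one]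
  have z1 : z (3 * s + 1) = 4 * Y := by rw [hz, XX1, hj]; ring
  have z2 : z (3 * s + 2) = Y + d.E π (3 * s + 2) := by rw [hz, XX2, mul_one]
  have hbad : Bad (z (3 * s)) (z (3 * s + 1)) (z (3 * s + 2)) := by
    rw [z0, z1, z2]
    refine ⟨by omega, by omega, by omega, ?_⟩
    intro g hg
    have : 4 * (Y + d.E π (3 * s + 2)) ≤ (4 + g) * (Y + d.E π (3 * s + 2)) :=
      Nat.mul_le_mul_right _ (by omega)
    omega
  by_cases hs0 : s = 0
  · subst hs0
    refine bad_not p q w W z 0 hs hbad (Or.inl ⟨rfl, Or.inl ?_⟩) hM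
    simp only [mul_zero, zero_add] at z0 z1 z2 hab
    omega
  · -- the block `0`
    by_cases h0 : d.E π 0 = 0 ∧ d.E π 1 = 0 ∧ d.E π 2 = 0
    · refine bad_not p q w W z s hs hbad (Or.inr ⟨hs0, ⟨?_, ?_⟩, ?_⟩) hM
      · simp only [mul_zero, zero_add]
        rw [hz, hz, h0.1, h0.2.1]
        simp [XX]; ring
      · simp only [mul_zero, zero_add]
        rw [hz, hz, h0.1, h0.2.2]
        simp [XX]
      · rw [hz, h0.1]
        simp [XX]; exact hY
    · -- the block `0` contains exactly one letter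
      have hone : (d.E π 0 ≠ 0 ∧ d.E π 1 = 0 ∧ d.E π 2 = 0) ∨
          (d.E π 0 = 0 ∧ d.E π 1 ≠ 0 ∧ d.E π 2 = 0) ∨
          (d.E π 0 = 0 ∧ d.E π 1 = 0 ∧ d.E π 2 ≠ 0) := by
        have key : ∀ t, t = 3 * s ∨ t = 3 * s + 2 → d.E π t ≠ 0 →
            (d.E π 0 ≠ 0 ∧ d.E π 1 = 0 ∧ d.E π 2 = 0) ∨
            (d.E π 0 = 0 ∧ d.E π 1 ≠ 0 ∧ d.E π 2 = 0) ∨
            (d.E π 0 = 0 ∧ d.E π 1 = 0 ∧ d.E π 2 ≠ 0) := by
          intro t ht hEt
          have a1 := d.E2 π 0 1 t (by omega) (by omega) (by omega)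
          have a2 := d.E2 π 0 2 t (by omega) (by omega) (by omega)
          have a3 := d.E2 π 1 2 t (by omega) (by omega) (by omega)
          tauto
        rcases hab with h | h
        · exact key _ (Or.inl rfl) h
        · exact key _ (Or.inr rfl) h
      rcases hone with ⟨e0, e1, e2⟩ | ⟨e0, e1, e2⟩ | ⟨e0, e1, e2⟩
      · have y0 : z 0 = Y + d.E π 0 := by rw [hz]; simp [XX]
        have y1 : z 1 = 4 * Y := by rw [hz, e1]; simp [XX]; ring
        have y2 : z 2 = Y := by rw [hz, e2]; simp [XX]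
        refine bad_not p q w W z 0 (by omega) ?_ (Or.inl ⟨rfl, Or.inl ?_⟩) hM
        · simp only [mul_zero, zero_add]
          rw [y0, y1, y2]
          refine ⟨by omega, by omega, by omega, ?_⟩
          intro g hg
          have : 4 * Y ≤ (4 + g) * Y := Nat.mul_le_mul_right _ (by omega)
          omega
        · omega
      · obtain ⟨Y', z', -, hY', hM', hz'⟩ := minus1 d π hπ
        have y0 : z' 0 = Y' := by
          have := hz' 0 (by omega)
          rw [e0] at this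
          simpa [XX] using this
        have y1 : z' 1 + d.E π 1 = 4 * Y' := by
          have := hz' 1 (by omega)
          rw [this]; simp [XX]; ring
        have y2 : z' 2 = Y' := by
          have := hz' 2 (by omega)
          rw [e2] at this
          simpa [XX] using this
        refine bad_not p q w W z' 0 (by omega) ?_ (Or.inl ⟨rfl, Or.inl ?_⟩) hM'
        · simp only [mul_zero, zero_add]
          rw [y0, y2]
          refine ⟨by omega, by omega, by omega, ?_⟩
          intro g hg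
          have : 4 * Y' ≤ (4 + g) * Y' := Nat.mul_le_mul_right _ (by omega)
          omega
        · omega
      · have y0 : z 0 = Y := by rw [hz, e0]; simp [XX]
        have y1 : z 1 = 4 * Y := by rw [hz, e1]; simp [XX]; ring
        have y2 : z 2 = Y + d.E π 2 := by rw [hz]; simp [XX]
        refine bad_not p q w W z 0 (by omega) ?_ (Or.inl ⟨rfl, Or.inl ?_⟩) hM
        · simp only [mul_zero, zero_add]
          rw [y0, y1, y2]
          refine ⟨by omega, by omega, by omega, ?_⟩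
          intro g hg
          have : 4 * (Y + d.E π 2) ≤ (4 + g) * (Y + d.E π 2) := Nat.mul_le_mul_right _ (by omega)
          omega
        · omega

/-- Perturbation inside a single block. -/
theorem single_block (s : ℕ) (hs : s < k + 2) (Y : ℕ) (hY : 0 < Y) (z : ℕ → ℕ)
    (hM : MM p q w W z)
    (hz : ∀ t, t < 3 * (k + 2) → t / 3 ≠ s → z t = Y * XX t) :
    ¬ Bad (z (3 * s)) (z (3 * s + 1)) (z (3 * s + 2)) := by
  intro hb
  have hx : ∀ s', s' < k + 2 → s' ≠ s → z (3 * s') = Y ∧ z (3 * s' + 1) = 4 * Y ∧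
      z (3 * s' + 2) = Y := by
    intro s' hs' hne
    refine ⟨?_, ?_, ?_⟩
    · rw [hz _ (by omega) (by omega), XX0, mul_one]
    · rw [hz _ (by omega) (by omega), XX1, mul_comm]
    · rw [hz _ (by omega) (by omega), XX2, mul_one]
  refine bad_not p q w W z s hs hb ?_ hM
  by_cases h : s = 0
  · left
    refine ⟨h, Or.inr ?_⟩
    intro s' hs' h0 hH
    obtain ⟨h1, h2, h3⟩ := hx s' hs' (by omega)
    unfold HH at hH
    omega
  · right
    obtain ⟨h1, h2, h3⟩ := hx 0 (by omega) (by omega)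
    refine ⟨h, ?_, ?_⟩
    · unfold RX
      omega
    · simp only [mul_zero] at h1
      omega

/-- The left period of a block. -/
theorem left_period (s : ℕ) (hs : s < k + 2) :
    ∃ (π : d.ι) (α γ : ℕ), d.δ π ≠ 0 ∧ 0 < α ∧ α ≤ d.B ∧ α < γ ∧ γ < 3 * α ∧
      d.E π (3 * s) = α ∧ d.E π (3 * s + 1) = γ ∧
      ∀ t, t ≠ 3 * s → t ≠ 3 * s + 1 → d.E π t = 0 := by
  classical
  have h1 := d.sumE (3 * s) (by omega)
  rw [XX0, mul_one] at h1
  have h2 : ∑ π, d.δ π * d.E π (3 * s) ≠ 0 := by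
    rw [h1]; exact d.hN.ne'
  obtain ⟨π, -, hπ⟩ := Finset.exists_ne_zero_of_sum_ne_zero h2
  have hδ : d.δ π ≠ 0 := fun h => hπ (by rw [h, zero_mul])
  have hα : d.E π (3 * s) ≠ 0 := fun h => hπ (by rw [h, mul_zero])
  have hγ : d.E π (3 * s + 1) ≠ 0 := (two_letters d π hδ s hs).1 hα
  have hz : ∀ t, t ≠ 3 * s → t ≠ 3 * s + 1 → d.E π t = 0 := by
    intro t ht1 ht2
    rcases d.E2 π (3 * s) (3 * s + 1) t (by omega) (Ne.symm ht1) (Ne.symm ht2) with h | h | h
    · exact absurd h hα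
    · exact absurd h hγ
    · exact h
  have hz2 : d.E π (3 * s + 2) = 0 := hz _ (by omega) (by omega)
  refine ⟨π, d.E π (3 * s), d.E π (3 * s + 1), hδ, Nat.pos_of_ne_zero hα, d.EB _ _, ?_, ?_, rfl,
    rfl, hz⟩
  · -- plus
    obtain ⟨Y, z, -, hY, hM, hzz⟩ := plus1 d π hδ
    have z0 : z (3 * s) = Y + d.E π (3 * s) := by rw [hzz, XX0, mul_one]
    have z1 : z (3 * s + 1) = 4 * Y + d.E π (3 * s + 1) := by rw [hzz, XX1]; ring
    have z2 : z (3 * s + 2) = Y := by rw [hzz, XX2, mul_one, hz2]; rfl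
    have := single_block s hs Y hY z hM (by
      intro t _ ht
      rw [hzz, hz t (by omega) (by omega), add_zero])
    by_contra hcon
    apply this
    rw [z0, z1, z2]
    refine ⟨by omega, by omega, by omega, ?_⟩
    intro g hg
    have : 4 * Y ≤ (4 + g) * Y := Nat.mul_le_mul_right _ (by omega)
    omega
  · -- minus
    obtain ⟨Y, z, -, hY, hM, hzz⟩ := minus1 d π hδ
    have z0 : z (3 * s) + d.E π (3 * s) = Y := by rw [hzz _ (by omega), XX0, mul_one]
    have z1 : z (3 * s + 1) + d.E π (3 * s + 1) = 4 * Y := by rw [hzz _ (by omega), XX1]; ring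
    have z2 : z (3 * s + 2) = Y := by
      have := hzz (3 * s + 2) (by omega)
      rw [XX2, mul_one, hz2] at this
      exact this
    have := single_block s hs Y hY z hM (by
      intro t ht0 ht
      have := hzz t ht0
      rw [hz t (by omega) (by omega), add_zero] at this
      exact this)
    by_contra hcon
    apply this
    rw [z2]
    refine ⟨by omega, by omega, by omega, ?_⟩
    intro g hg
    have : 4 * Y ≤ (4 + g) * Y := Nat.mul_le_mul_right _ (by omega)
    omega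

/-- The right period of a block. -/
theorem right_period (s : ℕ) (hs : s < k + 2) :
    ∃ (π : d.ι) (β γ : ℕ), d.δ π ≠ 0 ∧ 0 < β ∧ β ≤ d.B ∧ β < γ ∧ γ < 3 * β ∧
      d.E π (3 * s + 2) = β ∧ d.E π (3 * s + 1) = γ ∧
      ∀ t, t ≠ 3 * s + 2 → t ≠ 3 * s + 1 → d.E π t = 0 := by
  classical
  have h1 := d.sumE (3 * s + 2) (by omega)
  rw [XX2, mul_one] at h1
  have h2 : ∑ π, d.δ π * d.E π (3 * s + 2) ≠ 0 := by
    rw [h1]; exact d.hN.ne'
  obtain ⟨π, -, hπ⟩ := Finset.exists_ne_zero_of_sum_ne_zero h2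
  have hδ : d.δ π ≠ 0 := fun h => hπ (by rw [h, zero_mul])
  have hα : d.E π (3 * s + 2) ≠ 0 := fun h => hπ (by rw [h, mul_zero])
  have hγ : d.E π (3 * s + 1) ≠ 0 := (two_letters d π hδ s hs).2 hα
  have hz : ∀ t, t ≠ 3 * s + 2 → t ≠ 3 * s + 1 → d.E π t = 0 := by
    intro t ht1 ht2
    rcases d.E2 π (3 * s + 2) (3 * s + 1) t (by omega) (Ne.symm ht1) (Ne.symm ht2) with h | h | h
    · exact absurd h hα
    · exact absurd h hγ
    · exact h
  have hz2 : d.E π (3 * s) = 0 := hz _ (by omega) (by omega)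
  refine ⟨π, d.E π (3 * s + 2), d.E π (3 * s + 1), hδ, Nat.pos_of_ne_zero hα, d.EB _ _, ?_, ?_, rfl,
    rfl, hz⟩
  · -- plus
    obtain ⟨Y, z, -, hY, hM, hzz⟩ := plus1 d π hδ
    have z0 : z (3 * s) = Y := by rw [hzz, XX0, mul_one, hz2]; rfl
    have z1 : z (3 * s + 1) = 4 * Y + d.E π (3 * s + 1) := by rw [hzz, XX1]; ring
    have z2 : z (3 * s + 2) = Y + d.E π (3 * s + 2) := by rw [hzz, XX2, mul_one]
    have := single_block s hs Y hY z hM (by
      intro t _ ht
      rw [hzz, hz t (by omega) (by omega), add_zero])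
    by_contra hcon
    apply this
    rw [z0, z1, z2]
    refine ⟨by omega, by omega, by omega, ?_⟩
    intro g hg
    have : 4 * (Y + d.E π (3 * s + 2)) ≤ (4 + g) * (Y + d.E π (3 * s + 2)) :=
      Nat.mul_le_mul_right _ (by omega)
    omega
  · -- minus
    obtain ⟨Y, z, hBY, hY, hM, hzz⟩ := minus1 d π hδ
    have z2 : z (3 * s + 2) + d.E π (3 * s + 2) = Y := by rw [hzz _ (by omega), XX2, mul_one]
    have z1 : z (3 * s + 1) + d.E π (3 * s + 1) = 4 * Y := by rw [hzz _ (by omega), XX1]; ring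
    have z0 : z (3 * s) = Y := by
      have := hzz (3 * s) (by omega)
      rw [XX0, mul_one, hz2] at this
      exact this
    have := single_block s hs Y hY z hM (by
      intro t ht0 ht
      have := hzz t ht0
      rw [hz t (by omega) (by omega), add_zero] at this
      exact this)
    have hEB := d.EB π (3 * s + 2)
    by_contra hcon
    apply this
    rw [z0]
    refine ⟨by omega, by omega, by omega, ?_⟩
    intro g hg
    have : 4 * z (3 * s + 2) ≤ (4 + g) * z (3 * s + 2) := Nat.mul_le_mul_right _ (by omega)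
    omega

/-- The two periods of a block. -/
theorem both_periods (s : ℕ) (hs : s < k + 2) :
    ∃ (π π' : d.ι) (α γ β γ' : ℕ), d.δ π ≠ 0 ∧ d.δ π' ≠ 0 ∧ 0 < α ∧ α ≤ d.B ∧ 0 < β ∧ β ≤ d.B ∧
      α < γ ∧ γ < 3 * α ∧ β * γ + α * γ' = 4 * (α * β) ∧
      (d.E π (3 * s) = α ∧ d.E π (3 * s + 1) = γ ∧
        ∀ t, t ≠ 3 * s → t ≠ 3 * s + 1 → d.E π t = 0) ∧
      (d.E π' (3 * s + 2) = β ∧ d.E π' (3 * s + 1) = γ' ∧
        ∀ t, t ≠ 3 * s + 2 → t ≠ 3 * s + 1 → d.E π' t = 0) := by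
  classical
  obtain ⟨π, α, γ, h1, h2, h3, h4, h5, h6, h7, h8⟩ := left_period d s hs
  obtain ⟨π', β, γ', g1, g2, g3, g4, g5, g6, g7, g8⟩ := right_period d s hs
  refine ⟨π, π', α, γ, β, γ', h1, g1, h2, h3, g2, g3, h4, h5, ?_, ⟨h6, h7, h8⟩, ⟨g6, g7, g8⟩⟩
  let e : d.ι → ℕ := Pi.single π β + Pi.single π' α
  have he : ∀ π0, e π0 ≠ 0 → d.δ π0 ≠ 0 := by
    intro π0 h
    by_cases e1 : π0 = π
    · rw [e1]; exact h1
    · by_cases e2 : π0 = π'
      · rw [e2]; exact g1
      · exact absurd (by simp [e, e1, e2]) h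
  have hsum : ∀ t, ∑ π0, e π0 * d.E π0 t = β * d.E π t + α * d.E π' t := by
    intro t
    simp only [e, Pi.add_apply, add_mul, Finset.sum_add_distrib, Pi.single_apply, ite_mul, zero_mul,
      Finset.sum_ite_eq', Finset.mem_univ, if_true]
  have a0 : d.E π' (3 * s) = 0 := g8 _ (by omega) (by omega)
  have a2 : d.E π (3 * s + 2) = 0 := h8 _ (by omega) (by omega)
  rcases lt_trichotomy (β * γ + α * γ') (4 * (α * β)) with hlt | heq | hgt
  · exfalso
    obtain ⟨Y, z, -, hY, hM, hz⟩ := plus d e he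
    have z0 : z (3 * s) = Y + α * β := by
      rw [hz, hsum, XX0, h6, a0]; ring
    have z1 : z (3 * s + 1) = 4 * Y + (β * γ + α * γ') := by
      rw [hz, hsum, XX1, h7, g7]; ring
    have z2 : z (3 * s + 2) = Y + α * β := by
      rw [hz, hsum, XX2, a2, g6]; ring
    refine single_block s hs Y hY z hM (by
      intro t _ ht
      rw [hz, hsum, h8 t (by omega) (by omega), g8 t (by omega) (by omega)]
      ring) ?_
    rw [z0, z1, z2]
    refine ⟨by omega, by omega, by omega, ?_⟩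
    intro g hg
    have : 4 * (Y + α * β) ≤ (4 + g) * (Y + α * β) := Nat.mul_le_mul_right _ (by omega)
    omega
  · exact heq
  · exfalso
    obtain ⟨Y, z, -, hY, hM, hz⟩ := minus d e he
    have z0 : z (3 * s) + α * β = Y := by
      have := hz (3 * s) (by omega)
      rw [hsum, XX0, h6, a0] at this
      rw [mul_comm α β]
      omega
    have z1 : z (3 * s + 1) + (β * γ + α * γ') = 4 * Y := by
      have := hz (3 * s + 1) (by omega)
      rw [hsum, XX1, h7, g7] at this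
      omega
    have z2 : z (3 * s + 2) + α * β = Y := by
      have := hz (3 * s + 2) (by omega)
      rw [hsum, XX2, a2, g6] at this
      omega
    refine single_block s hs Y hY z hM (by
      intro t ht0 ht
      have := hz t ht0
      rw [hsum, h8 t (by omega) (by omega), g8 t (by omega) (by omega)] at this
      omega) ?_
    refine ⟨by omega, by omega, by omega, ?_⟩
    intro g hg
    have : 4 * z (3 * s + 2) ≤ (4 + g) * z (3 * s + 2) := Nat.mul_le_mul_right _ (by omega)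
    omega

end

end Run7.h356
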