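import Pool.Agent.Run7.h356.Core

set_option autoImplicit false
set_option linter.deprecated false

namespace Run7.h356

section
variable {k G : ℕ} {p q : Fin G → Fin k} {w : Fin G → Fin k → ℕ} {W : Fin G → ℕ}
variable (d : Dat p q w W)

/-- All the points reached by the two periods of every block. -/
theorem zone : ∃ (α γ : Fin (k + 2) → ℕ), (∀ s, 0 < α s ∧ α s < γ s ∧ γ s < 3 * α s) ∧
    ∀ A B : Fin (k + 2) → ℕ, (∀ s, 0 < A s) → (∀ s, 0 < B s) → ∃ z : ℕ → ℕ, MM p q w W z ∧
      ∀ s : Fin (k + 2), z (3 * s) = d.T * A s ∧ z (3 * s + 2) = d.T * B s ∧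
        α s * z (3 * s + 1) = d.T * (γ s * A s + (4 * α s - γ s) * B s) := by
  classical
  choose π π' α γ β γ' hπ hπ' hα hαB hβ hβB h1 h2 h3 h4 h5 using
    fun s : Fin (k + 2) => both_periods d s s.2
  refine ⟨α, γ, fun s => ⟨hα s, h1 s, h2 s⟩, ?_⟩
  intro A B hA hB
  choose a ha using fun s => d.dT (α s) (hα s) (hαB s)
  choose b hb using fun s => d.dT (β s) (hβ s) (hβB s)
  let m : Fin (k + 2) → ℕ := fun s => a s * (A s - 1)
  let m' : Fin (k + 2) → ℕ := fun s => b s * (B s - 1)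
  let f : d.ι → ℕ := ∑ s, (Pi.single (π s) (m s) + Pi.single (π' s) (m' s))
  have hf : ∀ π0, f π0 ≠ 0 → d.δ π0 ≠ 0 := by
    intro π0 h
    simp only [f, Finset.sum_apply, Pi.add_apply] at h
    obtain ⟨s, -, hs⟩ := Finset.exists_ne_zero_of_sum_ne_zero h
    by_cases e1 : π0 = π s
    · rw [e1]; exact hπ s
    · by_cases e2 : π0 = π' s
      · rw [e2]; exact hπ' s
      · exact absurd (by simp [e1, e2]) hs
  have hsum : ∀ t, ∑ π0, f π0 * d.E π0 t = ∑ s, (m s * d.E (π s) t + m' s * d.E (π' s) t) := by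
    intro t
    simp only [f, Finset.sum_apply, Pi.add_apply, Finset.sum_mul]
    rw [Finset.sum_comm]
    apply Finset.sum_congr rfl
    intro s _
    simp only [add_mul, Finset.sum_add_distrib, Pi.single_apply, ite_mul, zero_mul,
      Finset.sum_ite_eq', Finset.mem_univ, if_true]
  have hblock : ∀ (s : Fin (k + 2)) (t : ℕ), t = 3 * (s : ℕ) ∨ t = 3 * (s : ℕ) + 1 ∨ t = 3 * (s : ℕ) + 2 →
      ∑ s', (m s' * d.E (π s') t + m' s' * d.E (π' s') t) =
        m s * d.E (π s) t + m' s * d.E (π' s) t := by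
    intro s t ht
    rw [Finset.sum_eq_single s]
    · intro s' _ hne
      have hne' : (s' : ℕ) ≠ s := fun h => hne (Fin.ext h)
      rw [(h4 s').2.2 t (by omega) (by omega), (h5 s').2.2 t (by omega) (by omega)]
      simp
    · intro h; exact absurd (Finset.mem_univ _) h
  refine ⟨_, d.mem f hf, ?_⟩
  intro s
  obtain ⟨a1, a2, a3⟩ := h4 s
  obtain ⟨b1, b2, b3⟩ := h5 s
  have hA' : 1 + (A s - 1) = A s := by have := hA s; omega
  have hB' : 1 + (B s - 1) = B s := by have := hB s; omega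
  refine ⟨?_, ?_, ?_⟩
  · beta_reduce
    rw [hsum, hblock s _ (Or.inl rfl), XX0, a1, b3 _ (by omega) (by omega)]
    simp only [m]
    calc d.T * 1 + (a s * (A s - 1) * α s + m' s * 0) = d.T * 1 + (α s * a s) * (A s - 1) := by ring
      _ = d.T * (1 + (A s - 1)) := by rw [← ha s]; ring
      _ = d.T * A s := by rw [hA']
  · beta_reduce
    rw [hsum, hblock s _ (Or.inr (Or.inr rfl)), XX2, b1, a3 _ (by omega) (by omega)]
    simp only [m']
    calc d.T * 1 + (m s * 0 + b s * (B s - 1) * β s) = d.T * 1 + (β s * b s) * (B s - 1) := by ring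
      _ = d.T * (1 + (B s - 1)) := by rw [← hb s]; ring
      _ = d.T * B s := by rw [hB']
  · beta_reduce
    rw [hsum, hblock s _ (Or.inr (Or.inl rfl)), XX1, a2, b2]
    simp only [m, m']
    obtain ⟨E, hE⟩ : ∃ E, 4 * α s = γ s + E := ⟨4 * α s - γ s, by have := h2 s; omega⟩
    have hE' : 4 * α s - γ s = E := by omega
    rw [hE']
    have h6 : α s * γ' s = β s * E := by
      have h7 := h3 s
      have h8 : 4 * (α s * β s) = β s * γ s + β s * E := by
        rw [← mul_assoc, hE]; ring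
      omega
    calc α s * (d.T * 4 + (a s * (A s - 1) * γ s + b s * (B s - 1) * γ' s))
        = d.T * (4 * α s) + (α s * a s) * (A s - 1) * γ s + b s * (B s - 1) * (α s * γ' s) := by
          ring
      _ = d.T * (γ s + E) + d.T * (A s - 1) * γ s + (β s * b s) * (B s - 1) * E := by
          rw [hE, ← ha s, h6]; ring
      _ = d.T * (γ s * (1 + (A s - 1)) + E * (1 + (B s - 1))) := by
          rw [← hb s]; ring
      _ = d.T * (γ s * A s + E * B s) := by rw [hA', hB']

include d in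
theorem nec_core (hpq : ∀ g, p g ≠ q g) :
    ∃ u : Fin k → ℚ, (∀ s, 1 < u s ∧ u s < 3) ∧
      ∀ g, ∑ s, (w g s : ℚ) * (if s = q g then (4 + u (p g)) * (4 + u s) else 4 + u s) = W g := by
  classical
  obtain ⟨α, γ, hag, hz⟩ := zone d
  have hT := d.hT
  let ix : Fin k → Fin (k + 2) := fun s => ⟨(s : ℕ) + 2, by have := s.2; omega⟩
  let z0 : Fin (k + 2) := ⟨0, by omega⟩
  refine ⟨fun s => (γ (ix s) : ℚ) / α (ix s), ?_, ?_⟩
  · intro s
    obtain ⟨h1, h2, h3⟩ := hag (ix s)
    have h1' : (0 : ℚ) < α (ix s) := by exact_mod_cast h1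
    constructor
    · rw [lt_div_iff₀ h1', one_mul]
      exact_mod_cast h2
    · rw [div_lt_iff₀ h1']
      exact_mod_cast h3
  intro g
  -- the target
  let M0 : ℕ := α (ix (p g))
  have hM0 : 0 < M0 := (hag (ix (p g))).1
  let Bq : ℕ := 4 * α (ix (p g)) + γ (ix (p g))
  let B' : Fin (k + 2) → ℕ := fun s => if s = z0 then γ z0 - α z0 else if s = ix (q g) then Bq else M0
  let A' : Fin (k + 2) → ℕ := fun s => if s = z0 then (g : ℕ) * α z0 + γ z0 else 2 * B' s
  obtain ⟨a1, a2, a3⟩ := hag z0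
  have hB' : ∀ s, 0 < B' s := by
    intro s
    simp only [B']
    split_ifs
    · omega
    · simp only [Bq]; omega
    · exact hM0
  have hA' : ∀ s, 0 < A' s := by
    intro s
    simp only [A']
    split_ifs
    · exact Nat.add_pos_right _ (by omega)
    · have := hB' s; omega
  obtain ⟨z, hM, hzz⟩ := hz A' B' hA' hB'
  -- the switch
  have s0 : z 0 = d.T * ((g : ℕ) * α z0 + γ z0) := by
    have := (hzz z0).1
    simpa [A', z0] using this
  have s2 : z 2 = d.T * (γ z0 - α z0) := by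
    have := (hzz z0).2.1
    simpa [B', z0] using this
  obtain ⟨P, hP⟩ : ∃ P, γ z0 = α z0 + P := ⟨γ z0 - α z0, by omega⟩
  have hPpos : 0 < P := by omega
  have hP2 : P < 2 * α z0 := by omega
  have hP' : γ z0 - α z0 = P := by omega
  have s1 : z 1 = z 0 + (4 + (g : ℕ)) * z 2 := by
    have := (hzz z0).2.2
    simp only [A', B', if_true] at this
    apply Nat.eq_of_mul_eq_mul_left a1
    have e1 : z (3 * (z0 : ℕ) + 1) = z 1 := rfl
    rw [e1] at this
    rw [this, s0, s2, hP']
    obtain ⟨E, hE⟩ : ∃ E, 4 * α z0 = γ z0 + E := ⟨4 * α z0 - γ z0, by omega⟩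
    have hE' : 4 * α z0 - γ z0 = E := by omega
    have hE2 : 3 * α z0 = P + E := by omega
    rw [hE', hP]
    have : d.T * ((α z0 + P) * ((g : ℕ) * α z0 + (α z0 + P)) + E * P) =
      d.T * ((g : ℕ) * α z0 * α z0 + (g : ℕ) * α z0 * P + α z0 * α z0 + 2 * α z0 * P +
        (P + E) * P) := by ring
    rw [this, ← hE2]
    ring
  have hz2 : 0 < z 2 := by
    rw [s2, hP']
    positivity
  have hz0 : z 2 * (3 + (g : ℕ)) < 2 * z 0 := by
    rw [s0, s2, hP', hP]
    have e1 : P * (3 + (g : ℕ)) < 2 * ((g : ℕ) * α z0 + (α z0 + P)) := by nlinarith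
    calc d.T * P * (3 + (g : ℕ)) = d.T * (P * (3 + (g : ℕ))) := by ring
      _ < d.T * (2 * ((g : ℕ) * α z0 + (α z0 + P))) := Nat.mul_lt_mul_of_pos_left e1 hT
      _ = 2 * (d.T * ((g : ℕ) * α z0 + (α z0 + P))) := by ring
  -- the variables
  have hix : ∀ s, ix s ≠ z0 := by
    intro s h
    have := congrArg Fin.val h
    simp [ix, z0] at this
  have va : ∀ s : Fin k, z (3 * ((s : ℕ) + 2)) = 2 * z (3 * ((s : ℕ) + 2) + 2) := by
    intro s
    have h1 := (hzz (ix s)).1
    have h2 := (hzz (ix s)).2.1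
    simp only [A', if_neg (hix s)] at h1
    have e : ((ix s : Fin (k + 2)) : ℕ) = (s : ℕ) + 2 := rfl
    rw [e] at h1 h2
    rw [h1, h2]; ring
  have v5 : z 5 = d.T * M0 := by
    let z1 : Fin (k + 2) := ⟨1, by omega⟩
    have h := (hzz z1).2.1
    have e1 : z1 ≠ z0 := by
      intro h
      have := congrArg Fin.val h
      simp [z1, z0] at this
    have e2 : z1 ≠ ix (q g) := by
      intro h
      have := congrArg Fin.val h
      simp [z1, ix] at this
    simp only [B', if_neg e1, if_neg e2] at h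
    have e : 3 * ((z1 : Fin (k + 2)) : ℕ) + 2 = 5 := rfl
    rw [e] at h
    exact h
  have vb : ∀ s : Fin k, s ≠ q g → z (3 * ((s : ℕ) + 2) + 2) = z 5 := by
    intro s hs
    have h2 := (hzz (ix s)).2.1
    have e2 : ix s ≠ ix (q g) := by
      intro h
      apply hs
      have := congrArg Fin.val h
      simp only [ix] at this
      exact Fin.ext (by omega)
    simp only [B', if_neg (hix s), if_neg e2] at h2
    have e : ((ix s : Fin (k + 2)) : ℕ) = (s : ℕ) + 2 := rfl
    rw [e] at h2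
    rw [h2, v5]
  have vq : z (3 * ((q g : ℕ) + 2) + 2) = d.T * Bq := by
    have h2 := (hzz (ix (q g))).2.1
    simp only [B', if_neg (hix (q g)), if_true] at h2
    exact h2
  have vj : ∀ s : Fin k, α (ix s) * z (3 * ((s : ℕ) + 2) + 1) =
      (4 * α (ix s) + γ (ix s)) * z (3 * ((s : ℕ) + 2) + 2) := by
    intro s
    have h3 := (hzz (ix s)).2.2
    have h2 := (hzz (ix s)).2.1
    simp only [A', if_neg (hix s)] at h3
    have e : ((ix s : Fin (k + 2)) : ℕ) = (s : ℕ) + 2 := rfl
    rw [e] at h2 h3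
    rw [h3, h2]
    obtain ⟨E, hE⟩ : ∃ E, 4 * α (ix s) = γ (ix s) + E :=
      ⟨4 * α (ix s) - γ (ix s), by have := hag (ix s); omega⟩
    have hE' : 4 * α (ix s) - γ (ix s) = E := by omega
    rw [hE', hE]
    ring
  have vjp : z (3 * ((p g : ℕ) + 2) + 1) = d.T * Bq := by
    have h := vj (p g)
    rw [vb (p g) (hpq g), v5] at h
    apply Nat.eq_of_mul_eq_mul_left hM0
    rw [h]
    simp only [M0, Bq]
    ring
  -- the point is only in the star of `g`
  have hstar : Star g (w g) (W g) z := by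
    rcases hM with h | h | h | ⟨g', h, h'⟩ | ⟨g', h, h'⟩
    · exfalso
      have := h 0 (by omega)
      unfold RX at this
      simp only [mul_zero, zero_add] at this
      obtain ⟨h1, h2⟩ := this
      rw [h2] at hz0 s1
      rw [s1] at h1
      have : z 0 * (3 + (g : ℕ)) = 3 * z 0 + (g : ℕ) * z 0 := by ring
      omega
    · exfalso
      have := h.1
      rw [s1] at this
      have h3 : 3 * z 2 < (4 + (g : ℕ)) * z 2 := Nat.mul_lt_mul_of_pos_right (by omega) hz2
      omega
    · exfalso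
      rcases h with h | h
      · rw [s1] at h
        have : (4 + (g : ℕ)) * z 2 = z 2 * (3 + (g : ℕ)) + z 2 := by ring
        omega
      · exact h.2 g g.2 s1
    · exfalso
      have hgg : g' = g := by
        rw [s1] at h
        have : (4 + (g : ℕ)) * z 2 = (4 + (g' : ℕ)) * z 2 := by omega
        have := Nat.eq_of_mul_eq_mul_right hz2 this
        exact Fin.ext (by omega)
      subst hgg
      rcases h' with ⟨s, h'⟩ | ⟨s, hs, h'⟩ | h'
      · exact h' (va s)
      · exact h' (vb s hs)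
      · exact h' (by rw [vq, vjp])
    · have hgg : g' = g := by
        rw [s1] at h
        have : (4 + (g : ℕ)) * z 2 = (4 + (g' : ℕ)) * z 2 := by omega
        have := Nat.eq_of_mul_eq_mul_right hz2 this
        exact Fin.ext (by omega)
      subst hgg
      exact ⟨h, h'⟩
  obtain ⟨-, c, hc1, hc2⟩ := hstar
  -- conclude over the rationals
  have hTq : (0 : ℚ) < d.T := by exact_mod_cast hT
  have h5q : (0 : ℚ) < (z 5 : ℚ) := by
    rw [v5]
    have : (0 : ℚ) < M0 := by exact_mod_cast hM0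
    push_cast
    positivity
  have hjq : ∀ s : Fin k, (z (3 * ((s : ℕ) + 2) + 1) : ℚ) =
      (4 + (γ (ix s) : ℚ) / α (ix s)) * z (3 * ((s : ℕ) + 2) + 2) := by
    intro s
    have h1' : (0 : ℚ) < α (ix s) := by exact_mod_cast (hag (ix s)).1
    have := vj s
    have h2 : (α (ix s) : ℚ) * z (3 * ((s : ℕ) + 2) + 1) =
      (4 * α (ix s) + γ (ix s)) * z (3 * ((s : ℕ) + 2) + 2) := by exact_mod_cast this
    field_simp
    linarith
  have hbq : (z (3 * ((q g : ℕ) + 2) + 2) : ℚ) =
      (4 + (γ (ix (p g)) : ℚ) / α (ix (p g))) * z 5 := by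
    have h1 := hjq (p g)
    rw [vb (p g) (hpq g)] at h1
    rw [← h1, vq, vjp]
  have hfin : (W g : ℚ) * z 5 = (∑ s, (w g s : ℚ) * (if s = q g then
      (4 + (γ (ix (p g)) : ℚ) / α (ix (p g))) * (4 + (γ (ix s) : ℚ) / α (ix s))
      else 4 + (γ (ix s) : ℚ) / α (ix s))) * z 5 := by
    rw [hc2]
    rw [Finset.sum_mul]
    push_cast
    rw [Finset.mul_sum]
    apply Finset.sum_congr rfl
    intro s _
    have e1 : (W g : ℚ) * ((w g s : ℚ) * c s) = w g s * z (3 * ((s : ℕ) + 2) + 1) := by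
      rw [hc1 s]; push_cast; ring
    rw [e1, hjq s]
    have e5 : (∑ x, (w g x : ℚ) * (c x : ℚ)) = (z 5 : ℚ) := by
      rw [hc2]; push_cast; rfl
    rw [e5]
    split_ifs with hs
    · subst hs
      rw [hbq]; ring
    · rw [vb s hs]; ring
  have := mul_right_cancel₀ h5q.ne' hfin
  exact this.symm

end

end Run7.h356
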