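import Pool.Agent.Run7.h356.Pieces

set_option autoImplicit false
set_option linter.deprecated false

namespace Run7.h356

/-! The predicates on flat vectors: block `s` occupies the letters `3 s, 3 s + 1, 3 s + 2`. Block `0`
is the switch, block `1` the root, block `s + 2` the variable `s`. -/

/-- Block `s` is a multiple of `(1, 4, 1)`. -/
def RX (v : ℕ → ℕ) (s : ℕ) : Prop := v (3 * s + 1) = 4 * v (3 * s) ∧ v (3 * s + 2) = v (3 * s)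

/-- Block `s` lies in one of the two open half planes. -/
def HH (v : ℕ → ℕ) (s : ℕ) : Prop :=
  v (3 * s) + 3 * v (3 * s + 2) < v (3 * s + 1) ∨ 3 * v (3 * s) + v (3 * s + 2) < v (3 * s + 1)

/-- Block `s` lies on the plane of slope `2`. -/
def VV (v : ℕ → ℕ) (s : ℕ) : Prop := v (3 * s + 1) = 2 * v (3 * s) + 2 * v (3 * s + 2)

def MX (k : ℕ) (v : ℕ → ℕ) : Prop := ∀ s, s < k + 2 → RX v s

def MT1 (k : ℕ) (v : ℕ → ℕ) : Prop :=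
  v 1 = v 0 + 3 * v 2 ∧ (∀ s, s < k + 2 → s ≠ 0 → HH v s ∨ VV v s) ∧
    ∃ s, s < k + 2 ∧ s ≠ 0 ∧ HH v s

def MT2 (G : ℕ) (v : ℕ → ℕ) : Prop :=
  3 * v 0 + v 2 < v 1 ∨ (v 0 + 3 * v 2 < v 1 ∧ ∀ g, g < G → v 1 ≠ v 0 + (4 + g) * v 2)

def MT3 {k G : ℕ} (p q : Fin G → Fin k) (v : ℕ → ℕ) : Prop :=
  ∃ g : Fin G, v 1 = v 0 + (4 + (g : ℕ)) * v 2 ∧
    ((∃ s : Fin k, v (3 * ((s : ℕ) + 2)) ≠ 2 * v (3 * ((s : ℕ) + 2) + 2)) ∨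
     (∃ s : Fin k, s ≠ q g ∧ v (3 * ((s : ℕ) + 2) + 2) ≠ v 5) ∨
      v (3 * ((q g : ℕ) + 2) + 2) ≠ v (3 * ((p g : ℕ) + 2) + 1))

def Star {k : ℕ} (g : ℕ) (w : Fin k → ℕ) (W : ℕ) (v : ℕ → ℕ) : Prop :=
  v 1 = v 0 + (4 + g) * v 2 ∧ ∃ c : Fin k → ℕ, (∀ s : Fin k, v (3 * ((s : ℕ) + 2) + 1) = W * c s) ∧
    v 5 = ∑ s, w s * c s

def MM {k G : ℕ} (p q : Fin G → Fin k) (w : Fin G → Fin k → ℕ) (W : Fin G → ℕ)
    (v : ℕ → ℕ) : Prop :=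
  MX k v ∨ MT1 k v ∨ MT2 G v ∨ MT3 p q v ∨ ∃ g : Fin G, Star g (w g) (W g) v

end Run7.h356
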