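import Pool.Agent.Run7.h356.Basic

set_option autoImplicit false
set_option linter.deprecated false

namespace Run7.h356

open Pool.Agent.Helper336.CF

variable {T : Type}

/-! ### Rays and gaps on two letters -/

theorem cf_two_ray (b c : T) (α γ x0 y0 : ℕ) :
    IsCF (two b c (fun x y => ∃ m, x = m * α + x0 ∧ y = m * γ + y0)) := by
  have := cf_two_wrap b c α γ _ (cf_two_single b c x0 y0)
  rw [two_congr b c _ _ (fun x y => ?_)] at this
  · exact this
  · constructor
    · rintro ⟨m, x', y', ⟨rfl, rfl⟩, h1, h2⟩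
      exact ⟨m, h1, h2⟩
    · rintro ⟨m, h1, h2⟩
      exact ⟨m, _, _, ⟨rfl, rfl⟩, h1, h2⟩

/-- `y > κ z`. -/
theorem cf_two_gt (b c : T) (κ : ℕ) : IsCF (two b c (fun y z => κ * z < y)) := by
  have := cf_two_wrap b c κ 1 _ (cf_two_ray b c 1 0 1 0)
  rw [two_congr b c _ _ (fun x y => ?_)] at this
  · exact this
  · constructor
    · rintro ⟨m, x', y', ⟨e, h1, h2⟩, h3, h4⟩
      have : y = m := by omega
      subst this
      rw [h3, h1, mul_comm]
      omega
    · intro h
      refine ⟨y, x - κ * y, 0, ⟨x - κ * y - 1, by omega, by omega⟩, ?_, by omega⟩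
      rw [mul_comm y κ]
      omega

/-- `κ z < y < (κ + 1) z`. -/
theorem cf_two_gap (b c : T) (κ : ℕ) :
    IsCF (two b c (fun y z => κ * z < y ∧ y < (κ + 1) * z)) := by
  have := cf_two_wrap b c κ 1 _ (cf_two_ray b c (κ + 1) 1 (κ + (κ + 1)) 2)
  rw [two_congr b c _ _ (fun x y => ?_)] at this
  · exact this
  · constructor
    · rintro ⟨m, x', y', ⟨e, h1, h2⟩, h3, h4⟩
      subst h1; subst h2; subst h3; subst h4
      constructor
      · nlinarith
      · nlinarith
    · rintro ⟨h1, h2⟩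
      obtain ⟨e, rfl⟩ : ∃ e, x = κ * y + 1 + e := ⟨x - κ * y - 1, by omega⟩
      have h3 : 1 + e < y := by nlinarith
      obtain ⟨f, rfl⟩ : ∃ f, y = 1 + e + 1 + f := ⟨y - 1 - e - 1, by omega⟩
      refine ⟨f, _, _, ⟨e, rfl, rfl⟩, ?_, ?_⟩
      · ring
      · ring

theorem gap_iff (G y z : ℕ) :
    (3 * z < y ∧ ∀ g, g < G → y ≠ (4 + g) * z) ↔
      (∃ i : Fin G, (3 + (i : ℕ)) * z < y ∧ y < (3 + (i : ℕ) + 1) * z) ∨ (3 + G) * z < y := by
  induction G with
  | zero => simp
  | succ G ih =>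
    constructor
    · rintro ⟨h1, h2⟩
      rcases ih.1 ⟨h1, fun g hg => h2 g (by omega)⟩ with ⟨i, hi⟩ | h
      · exact Or.inl ⟨i.castSucc, hi⟩
      · rcases lt_or_gt_of_ne (h2 G (by omega)) with h3 | h3
        · refine Or.inl ⟨Fin.last G, h, ?_⟩
          simp only [Fin.val_last]
          calc y < (4 + G) * z := h3
            _ = (3 + G + 1) * z := by ring
        · right
          calc (3 + (G + 1)) * z = (4 + G) * z := by ring
            _ < y := h3
    · rintro (⟨i, hi1, hi2⟩ | h)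
      · have hz : 0 < z := by
          rcases Nat.eq_zero_or_pos z with h | h
          · subst h; simp at hi2
          · exact h
        refine ⟨?_, ?_⟩
        · calc 3 * z ≤ (3 + (i : ℕ)) * z := Nat.mul_le_mul_right _ (by omega)
            _ < y := hi1
        · rintro g hg rfl
          have e1 : 3 + (i : ℕ) < 4 + g := lt_of_mul_lt_mul_right hi1 (Nat.zero_le _)
          have e2 : 4 + g < 3 + (i : ℕ) + 1 := lt_of_mul_lt_mul_right hi2 (Nat.zero_le _)
          omega
      · refine ⟨?_, ?_⟩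
        · calc 3 * z ≤ (3 + (G + 1)) * z := Nat.mul_le_mul_right _ (by omega)
            _ < y := h
        · rintro g hg rfl
          have : 3 + (G + 1) < 4 + g := lt_of_mul_lt_mul_right h (Nat.zero_le _)
          omega

theorem cf_two_avoid (b c : T) (G : ℕ) :
    IsCF (two b c (fun y z => 3 * z < y ∧ ∀ g, g < G → y ≠ (4 + g) * z)) := by
  rw [two_congr b c _ _ (gap_iff G)]
  have h1 : IsCF (⋃ i ∈ (Set.univ : Set (Fin G)), two b c (fun y z =>
      (3 + (i : ℕ)) * z < y ∧ y < (3 + (i : ℕ) + 1) * z)) :=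
    cf_iUnion Set.univ Set.finite_univ _ (fun i _ => cf_two_gap b c _)
  have := cf_union h1 (cf_two_gt b c (3 + G))
  convert this using 1
  ext w
  simp only [two, Set.mem_setOf_eq, Set.mem_union, Set.mem_iUnion, Set.mem_univ]
  constructor
  · rintro ⟨x, y, ⟨i, h⟩ | h, rfl⟩
    · exact Or.inl ⟨i, trivial, x, y, h, rfl⟩
    · exact Or.inr ⟨x, y, h, rfl⟩
  · rintro (⟨i, _, x, y, h, rfl⟩ | ⟨x, y, h, rfl⟩)
    · exact ⟨x, y, Or.inl ⟨i, h⟩, rfl⟩
    · exact ⟨x, y, Or.inr h, rfl⟩

/-! ### Block languages -/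

theorem cf_H1 (a : ℕ → T) (i : ℕ) :
    IsCF (LW a i 3 (fun v => v i + 3 * v (i + 2) < v (i + 1))) := by
  refine cf_three a i (fun x y => ∃ m, x = m * 1 + 0 ∧ y = m * 1 + 0) (fun y z => 3 * z < y)
    (cf_two_ray _ _ _ _ _ _) (cf_two_gt _ _ _) _ ?_
  intro v
  constructor
  · intro h
    exact ⟨v i, v (i + 1) - v i, by omega, ⟨v i, by omega, by omega⟩, by omega⟩
  · rintro ⟨y1, y2, h1, ⟨m, h2, h3⟩, h4⟩
    omega

theorem cf_H2 (a : ℕ → T) (i : ℕ) :
    IsCF (LW a i 3 (fun v => 3 * v i + v (i + 2) < v (i + 1))) := by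
  refine cf_three a i (fun x y => ∃ m, x = m * 1 + 0 ∧ y = m * 3 + 0) (fun y z => 1 * z < y)
    (cf_two_ray _ _ _ _ _ _) (cf_two_gt _ _ _) _ ?_
  intro v
  constructor
  · intro h
    exact ⟨3 * v i, v (i + 1) - 3 * v i, by omega, ⟨v i, by omega, by omega⟩, by omega⟩
  · rintro ⟨y1, y2, h1, ⟨m, h2, h3⟩, h4⟩
    omega

theorem cf_H1g (a : ℕ → T) (i G : ℕ) :
    IsCF (LW a i 3 (fun v => v i + 3 * v (i + 2) < v (i + 1) ∧
      ∀ g, g < G → v (i + 1) ≠ v i + (4 + g) * v (i + 2))) := by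
  refine cf_three a i (fun x y => ∃ m, x = m * 1 + 0 ∧ y = m * 1 + 0)
    (fun y z => 3 * z < y ∧ ∀ g, g < G → y ≠ (4 + g) * z)
    (cf_two_ray _ _ _ _ _ _) (cf_two_avoid _ _ _) _ ?_
  intro v
  constructor
  · rintro ⟨h, h'⟩
    refine ⟨v i, v (i + 1) - v i, by omega, ⟨v i, by omega, by omega⟩, by omega, ?_⟩
    intro g hg h2
    apply h' g hg
    omega
  · rintro ⟨y1, y2, h1, ⟨m, h2, h3⟩, h4, h5⟩
    refine ⟨by omega, ?_⟩
    intro g hg h6
    apply h5 g hg
    omega

/-- `v (i+1) = α v i + γ v (i+2)`. -/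
theorem cf_V (a : ℕ → T) (i α γ : ℕ) :
    IsCF (LW a i 3 (fun v => v (i + 1) = α * v i + γ * v (i + 2))) := by
  refine cf_three a i (fun x y => ∃ m, x = m * 1 + 0 ∧ y = m * α + 0)
    (fun y z => ∃ m, y = m * γ + 0 ∧ z = m * 1 + 0)
    (cf_two_ray _ _ _ _ _ _) (cf_two_ray _ _ _ _ _ _) _ ?_
  intro v
  constructor
  · intro h
    exact ⟨α * v i, γ * v (i + 2), h, ⟨v i, by omega, by ring⟩, ⟨v (i + 2), by ring, by omega⟩⟩
  · rintro ⟨y1, y2, h1, ⟨m, h2, h3⟩, ⟨m', h4, h5⟩⟩
    have e1 : v i = m := by omega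
    have e2 : v (i + 2) = m' := by omega
    rw [h1, h3, h4, e1, e2]
    ring

/-- The block of the plane of slope `U / D`. -/
def PB (D U : ℕ) (x y z : ℕ) : Prop :=
  x % D = z % D ∧ D * y = U * x + (4 * D - U) * z

theorem cf_PB (a : ℕ → T) (i D U : ℕ) (hD : 0 < D) (hU : U ≤ 4 * D) :
    IsCF (LW a i 3 (fun v => PB D U (v i) (v (i + 1)) (v (i + 2)))) := by
  have key : ∀ r : Fin D, IsCF (LW a i 3 (fun v => ∃ y1 y2, v (i + 1) = y1 + y2 ∧
      (∃ m, v i = m * D + r ∧ y1 = m * U + 4 * r) ∧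
      (∃ m, y2 = m * (4 * D - U) + 0 ∧ v (i + 2) = m * D + r))) := by
    intro r
    exact cf_three a i (fun x y => ∃ m, x = m * D + r ∧ y = m * U + 4 * r)
      (fun y z => ∃ m, y = m * (4 * D - U) + 0 ∧ z = m * D + r)
      (cf_two_ray _ _ _ _ _ _) (cf_two_ray _ _ _ _ _ _) _ (fun v => Iff.rfl)
  have := cf_ex a i 3 _ key
  rw [LW_congr a i 3 _ (fun v => PB D U (v i) (v (i + 1)) (v (i + 2)))] at this
  · exact this
  · intro v
    obtain ⟨E, hE⟩ : ∃ E, 4 * D = U + E := ⟨4 * D - U, by omega⟩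
    have hE' : 4 * D - U = E := by omega
    simp only [hE', PB]
    constructor
    · rintro ⟨r, y1, y2, h1, ⟨m, h2, h3⟩, ⟨m', h4, h5⟩⟩
      refine ⟨?_, ?_⟩
      · rw [h2, h5]
        simp
      · rw [h1, h2, h3, h4, h5]
        have : D * (m * U + 4 * (r : ℕ) + (m' * E + 0)) =
          m * U * D + 4 * D * (r : ℕ) + m' * E * D := by ring
        rw [this, hE]
        ring
    · rintro ⟨h1, h2⟩
      refine ⟨⟨v i % D, Nat.mod_lt _ hD⟩, (v i / D) * U + 4 * (v i % D), (v (i + 2) / D) * E, ?_,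
        ⟨v i / D, (Nat.div_add_mod' _ _).symm, rfl⟩, ⟨v (i + 2) / D, rfl, ?_⟩⟩
      · apply Nat.eq_of_mul_eq_mul_left hD
        rw [h2]
        have e1 : v i = (v i / D) * D + v i % D := (Nat.div_add_mod' _ _).symm
        have e2 : v (i + 2) = (v (i + 2) / D) * D + v i % D := by
          rw [h1]; exact (Nat.div_add_mod' _ _).symm
        set m := v i / D
        set m' := v (i + 2) / D
        set r := v i % D
        have : D * (m * U + 4 * r + m' * E) = m * U * D + 4 * D * r + m' * E * D := by ring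
        rw [this, hE, e1, e2]
        ring
      · change v (i + 2) = v (i + 2) / D * D + v i % D
        rw [h1]; exact (Nat.div_add_mod' _ _).symm

/-! ### Inequality of two coordinates -/

theorem cf_pair_wrap (a : ℕ → T) (lo m α γ : ℕ) (R : ℕ → ℕ → Prop)
    (h : IsCF (LW a lo (m + 2) (fun v => R (v lo) (v (lo + m + 1))))) :
    IsCF (LW a lo (m + 2) (fun v => ∃ e x' y', R x' y' ∧ v lo = e * α + x' ∧
      v (lo + m + 1) = e * γ + y')) := by
  have := cf_wrap2 (a lo) (a (lo + m + 1)) α γ h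
  convert this using 1
  have hw : ∀ v : ℕ → ℕ, wd a v lo (m + 2) = List.replicate (v lo) (a lo) ++
      wd a v (lo + 1) m ++ List.replicate (v (lo + m + 1)) (a (lo + m + 1)) := by
    intro v
    rw [show m + 2 = 1 + m + 1 by ring, wd_append, wd_append, wd_one, wd_one]
    rw [show lo + (1 + m) = lo + m + 1 by ring]
  ext w
  simp only [LW, Set.mem_setOf_eq]
  constructor
  · rintro ⟨v, ⟨e, x', y', hR, h1, h2⟩, rfl⟩
    refine ⟨e, _, ⟨fun t => if t = lo then x' else if t = lo + m + 1 then y' else v t, ?_, rfl⟩, ?_⟩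
    · simp only [if_true]
      rw [if_neg (by omega)]
      exact hR
    · rw [hw, hw]
      simp only [if_true]
      rw [if_neg (by omega), h1, h2, List.replicate_add, add_comm (e * γ) y', List.replicate_add]
      rw [wd_congr a (fun t => if t = lo then x' else if t = lo + m + 1 then y' else v t) v]
      · simp only [List.append_assoc]
      · intro t ht1 ht2
        rw [if_neg (by omega), if_neg (by omega)]
  · rintro ⟨e, _, ⟨v, hR, rfl⟩, rfl⟩
    have hc : ∀ n : ℕ, List.replicate (e * γ + n) (a (lo + m + 1)) =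
        List.replicate n (a (lo + m + 1)) ++ List.replicate (e * γ) (a (lo + m + 1)) := by
      intro n
      rw [add_comm, List.replicate_add]
    refine ⟨fun t => if t = lo then e * α + v lo else if t = lo + m + 1 then
      e * γ + v (lo + m + 1) else v t, ⟨e, _, _, hR, by simp, ?_⟩, ?_⟩
    · beta_reduce
      rw [if_neg (by omega), if_pos rfl]
    · rw [hw, hw]
      rw [wd_congr a (fun t => if t = lo then e * α + v lo else if t = lo + m + 1 then
        e * γ + v (lo + m + 1) else v t) v (lo + 1) m]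
      · simp only [if_true]
        rw [if_neg (by omega), List.replicate_add, hc]
        simp only [List.append_assoc]
      · intro t ht1 ht2
        rw [if_neg (by omega), if_neg (by omega)]

theorem cf_letter (a : ℕ → T) (i : ℕ) (x0 ε : ℕ) :
    IsCF (LW a i 1 (fun v => ∃ e, v i = x0 + ε * e)) := by
  have h := cf_two_ray (a i) (a i) ε 0 x0 0
  convert h using 1
  ext w
  simp only [LW, two, Set.mem_setOf_eq, wd_one]
  constructor
  · rintro ⟨v, ⟨e, h⟩, rfl⟩
    refine ⟨v i, 0, ⟨e, ?_, by omega⟩, ?_⟩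
    · rw [h]; ring
    · simp
  · rintro ⟨x, y, ⟨m, rfl, rfl⟩, rfl⟩
    refine ⟨fun _ => m * ε + x0, ⟨m, by ring⟩, ?_⟩
    simp

/-- Ends of the form `x0 + ε e`, `y0 + ε' e'`, free in between. -/
theorem cf_pair_base (a : ℕ → T) (lo m x0 ε y0 ε' : ℕ) :
    IsCF (LW a lo (m + 2) (fun v => (∃ e, v lo = x0 + ε * e) ∧
      (∃ e, v (lo + m + 1) = y0 + ε' * e))) := by
  have h1 := cf_glue a lo 1 m (fun v => ∃ e, v lo = x0 + ε * e) (fun _ => True)
    (by
      rintro v v' hv ⟨e, h⟩
      exact ⟨e, by rw [← h, hv lo le_rfl (by omega)]⟩)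
    (fun _ _ _ _ => trivial) (cf_letter a lo x0 ε) (cf_free _ _ _)
  have h2 := cf_glue a lo (1 + m) 1 _ (fun v => ∃ e, v (lo + m + 1) = y0 + ε' * e)
    (by
      rintro v v' hv ⟨⟨e, h⟩, _⟩
      exact ⟨⟨e, by rw [← h, hv lo le_rfl (by omega)]⟩, trivial⟩)
    (by
      rintro v v' hv ⟨e, h⟩
      exact ⟨e, by rw [← h, hv (lo + m + 1) (by omega) (by omega)]⟩) h1
    (by
      have := cf_letter a (lo + (1 + m)) y0 ε'
      rw [show lo + (1 + m) = lo + m + 1 by ring] at this ⊢
      exact this)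
  rw [show m + 2 = 1 + m + 1 by ring]
  rw [LW_congr a lo (1 + m + 1) _ (fun v => ((∃ e, v lo = x0 + ε * e) ∧ True) ∧
    (∃ e, v (lo + m + 1) = y0 + ε' * e))]
  · exact h2
  · intro v; simp

theorem cf_lo_gt (a : ℕ → T) (lo m r : ℕ) :
    IsCF (LW a lo (m + 2) (fun v => r * v (lo + m + 1) < v lo)) := by
  have := cf_pair_wrap a lo m r 1 (fun x y => (∃ e, x = 1 + 1 * e) ∧ (∃ e, y = 0 + 0 * e))
    (cf_pair_base a lo m 1 1 0 0)
  rw [LW_congr a lo (m + 2) _ (fun v => r * v (lo + m + 1) < v lo)] at this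
  · exact this
  · intro v
    constructor
    · rintro ⟨e, x', y', ⟨⟨f, h1⟩, ⟨f', h2⟩⟩, h3, h4⟩
      have : v (lo + m + 1) = e := by omega
      rw [this, h3, mul_comm]
      omega
    · intro h
      refine ⟨v (lo + m + 1), v lo - r * v (lo + m + 1), 0, ⟨⟨v lo - r * v (lo + m + 1) - 1,
        by omega⟩, ⟨0, rfl⟩⟩, ?_, by omega⟩
      rw [mul_comm (v (lo + m + 1)) r]
      omega

theorem cf_hi_gt (a : ℕ → T) (lo m r : ℕ) :
    IsCF (LW a lo (m + 2) (fun v => r * v lo < v (lo + m + 1))) := by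
  have := cf_pair_wrap a lo m 1 r (fun x y => (∃ e, x = 0 + 0 * e) ∧ (∃ e, y = 1 + 1 * e))
    (cf_pair_base a lo m 0 0 1 1)
  rw [LW_congr a lo (m + 2) _ (fun v => r * v lo < v (lo + m + 1))] at this
  · exact this
  · intro v
    constructor
    · rintro ⟨e, x', y', ⟨⟨f, h1⟩, ⟨f', h2⟩⟩, h3, h4⟩
      have : v lo = e := by omega
      rw [this, h4, mul_comm]
      omega
    · intro h
      refine ⟨v lo, 0, v (lo + m + 1) - r * v lo, ⟨⟨0, rfl⟩, ⟨v (lo + m + 1) - r * v lo - 1,
        by omega⟩⟩, by omega, ?_⟩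
      rw [mul_comm (v lo) r]
      omega

theorem cf_lo_lt (a : ℕ → T) (lo m r : ℕ) (hr : 0 < r) :
    IsCF (LW a lo (m + 2) (fun v => v lo < r * v (lo + m + 1))) := by
  have := cf_ex (ι := Fin r) a lo (m + 2) _ (fun t => cf_pair_wrap a lo m r 1
    (fun x y => (∃ e, x = (t : ℕ) + 0 * e) ∧ (∃ e, y = 1 + 1 * e))
    (cf_pair_base a lo m t 0 1 1))
  rw [LW_congr a lo (m + 2) _ (fun v => v lo < r * v (lo + m + 1))] at this
  · exact this
  · intro v
    constructor
    · rintro ⟨t, e, x', y', ⟨⟨f, h1⟩, ⟨f', h2⟩⟩, h3, h4⟩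
      have ht := t.2
      have h5 : x' = t := by omega
      rw [h3, h4, h2, h5]
      nlinarith
    · intro h
      have e1 : v lo = (v lo / r) * r + v lo % r := (Nat.div_add_mod' _ _).symm
      have e2 : v lo / r < v (lo + m + 1) := Nat.div_lt_of_lt_mul h
      refine ⟨⟨v lo % r, Nat.mod_lt _ hr⟩, v lo / r, v lo % r, v (lo + m + 1) - v lo / r,
        ⟨⟨0, by simp⟩, ⟨v (lo + m + 1) - v lo / r - 1, by omega⟩⟩, e1, by omega⟩

theorem cf_hi_lt (a : ℕ → T) (lo m r : ℕ) (hr : 0 < r) :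
    IsCF (LW a lo (m + 2) (fun v => v (lo + m + 1) < r * v lo)) := by
  have := cf_ex (ι := Fin r) a lo (m + 2) _ (fun t => cf_pair_wrap a lo m 1 r
    (fun x y => (∃ e, x = 1 + 1 * e) ∧ (∃ e, y = (t : ℕ) + 0 * e))
    (cf_pair_base a lo m 1 1 t 0))
  rw [LW_congr a lo (m + 2) _ (fun v => v (lo + m + 1) < r * v lo)] at this
  · exact this
  · intro v
    constructor
    · rintro ⟨t, e, x', y', ⟨⟨f, h1⟩, ⟨f', h2⟩⟩, h3, h4⟩
      have ht := t.2
      have h5 : y' = t := by omega
      rw [h3, h4, h1, h5]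
      nlinarith
    · intro h
      have e1 : v (lo + m + 1) = (v (lo + m + 1) / r) * r + v (lo + m + 1) % r :=
        (Nat.div_add_mod' _ _).symm
      have e2 : v (lo + m + 1) / r < v lo := Nat.div_lt_of_lt_mul h
      refine ⟨⟨v (lo + m + 1) % r, Nat.mod_lt _ hr⟩, v (lo + m + 1) / r,
        v lo - v (lo + m + 1) / r, v (lo + m + 1) % r,
        ⟨⟨v lo - v (lo + m + 1) / r - 1, by omega⟩, ⟨0, by simp⟩⟩, by omega, e1⟩

/-- Extending by free letters on both sides. -/
theorem cf_pad (a : ℕ → T) (i d e f : ℕ) (A : (ℕ → ℕ) → Prop) (hA : Dep (i + d) e A)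
    (h : IsCF (LW a (i + d) e A)) : IsCF (LW a i (d + e + f) A) := by
  have h1 := cf_glue a i d e (fun _ => True) A (fun _ _ _ _ => trivial) hA (cf_free _ _ _) h
  have h2 := cf_glue a i (d + e) f _ (fun _ => True) (by
      rintro v v' hv ⟨_, h⟩
      exact ⟨trivial, hA v v' (fun t ht1 ht2 => hv t (by omega) (by omega)) h⟩)
    (fun _ _ _ _ => trivial) h1 (cf_free _ _ _)
  rw [LW_congr a i (d + e + f) A (fun v => (True ∧ A v) ∧ True)]
  · exact h2
  · intro v; simp

theorem cf_ne (a : ℕ → T) (i d x y r : ℕ) (hr : 0 < r) (hxy : x ≠ y)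
    (hx : i ≤ x ∧ x < i + d) (hy : i ≤ y ∧ y < i + d) :
    IsCF (LW a i d (fun v => v x ≠ r * v y)) := by
  rcases lt_or_gt_of_ne hxy with h | h
  · -- `x < y`
    obtain ⟨d1, hd1⟩ : ∃ d1, x = i + d1 := ⟨x - i, by omega⟩
    obtain ⟨m, hm⟩ : ∃ m, y = x + m + 1 := ⟨y - x - 1, by omega⟩
    obtain ⟨f, hf⟩ : ∃ f, d = d1 + (m + 2) + f := ⟨d - (d1 + (m + 2)), by omega⟩
    subst hf
    apply cf_pad
    · intro v v' hv h
      rw [← hv x (by omega) (by omega), ← hv y (by omega) (by omega)]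
      exact h
    · have := cf_or a (i + d1) (m + 2) _ _ (cf_lo_gt a (i + d1) m r) (cf_lo_lt a (i + d1) m r hr)
      rw [← hd1, ← hm] at this
      rw [← hd1]
      rw [LW_congr a x (m + 2) _ (fun v => v x ≠ r * v y)] at this
      · exact this
      · intro v
        constructor
        · rintro (h | h)
          · exact (ne_of_lt h).symm
          · exact ne_of_lt h
        · intro h
          rcases lt_or_gt_of_ne h with h | h
          · exact Or.inr h
          · exact Or.inl h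
  · -- `y < x`
    obtain ⟨d1, hd1⟩ : ∃ d1, y = i + d1 := ⟨y - i, by omega⟩
    obtain ⟨m, hm⟩ : ∃ m, x = y + m + 1 := ⟨x - y - 1, by omega⟩
    obtain ⟨f, hf⟩ : ∃ f, d = d1 + (m + 2) + f := ⟨d - (d1 + (m + 2)), by omega⟩
    subst hf
    apply cf_pad
    · intro v v' hv h
      rw [← hv x (by omega) (by omega), ← hv y (by omega) (by omega)]
      exact h
    · have := cf_or a (i + d1) (m + 2) _ _ (cf_hi_gt a (i + d1) m r) (cf_hi_lt a (i + d1) m r hr)
      rw [← hd1, ← hm] at this
      rw [← hd1]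
      rw [LW_congr a y (m + 2) _ (fun v => v x ≠ r * v y)] at this
      · exact this
      · intro v
        constructor
        · rintro (h | h)
          · exact (ne_of_lt h).symm
          · exact ne_of_lt h
        · intro h
          rcases lt_or_gt_of_ne h with h | h
          · exact Or.inr h
          · exact Or.inl h

/-! ### The star -/

theorem cf_star (a : ℕ → T) (w : ℕ → ℕ) (W k : ℕ) :
    IsCF (LW a 5 (1 + 3 * k) (fun v => ∃ c : ℕ → ℕ, (∀ s, s < k → v (3 * (s + 2) + 1) = W * c s) ∧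
      v 5 = ∑ s ∈ Finset.range k, w s * c s)) := by
  induction k with
  | zero =>
    have := cf_letter a 5 0 0
    simpa using this
  | succ k ih =>
    -- add `a_k`
    have h1 := cf_glue a 5 (1 + 3 * k) 1 _ (fun _ => True)
      (by
        rintro v v' hv ⟨c, h1, h2⟩
        refine ⟨c, fun s hs => ?_, ?_⟩
        · rw [← h1 s hs, hv _ (by omega) (by omega)]
        · rw [← h2, hv _ (by omega) (by omega)])
      (fun _ _ _ _ => trivial) ih (cf_free _ _ _)
    have h2 := cf_glue a 5 (1 + 3 * k + 1) 1 _ (fun v => v (3 * (k + 2) + 1) = 0)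
      (by
        rintro v v' hv ⟨⟨c, h1, h2⟩, _⟩
        refine ⟨⟨c, fun s hs => ?_, ?_⟩, trivial⟩
        · rw [← h1 s hs, hv _ (by omega) (by omega)]
        · rw [← h2, hv _ (by omega) (by omega)])
      (by
        intro v v' hv h
        rw [← h, hv _ (by omega) (by omega)]) h1
      (by
        have := cf_letter a (5 + (1 + 3 * k + 1)) 0 0
        simp only [zero_mul, add_zero, exists_const] at this
        rw [show 3 * (k + 2) + 1 = 5 + (1 + 3 * k + 1) by ring]
        exact this)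
    have h3 : IsCF (LW a 5 (3 * k + 1 + 2) (fun v => ∃ e x' y',
        ((∃ v' : ℕ → ℕ, (∀ t, 5 < t → t < 5 + (3 * k + 1) + 1 → v' t = v t) ∧ v' 5 = x' ∧
          v' (3 * (k + 2) + 1) = y' ∧ (∃ c : ℕ → ℕ,
          (∀ s, s < k → v' (3 * (s + 2) + 1) = W * c s) ∧
          v' 5 = ∑ s ∈ Finset.range k, w s * c s) ∧ v' (3 * (k + 2) + 1) = 0)) ∧
        v 5 = e * w k + x' ∧ v (5 + (3 * k + 1) + 1) = e * W + y')) := by
      have hw : ∀ v : ℕ → ℕ, wd a v 5 (3 * k + 1 + 2) = List.replicate (v 5) (a 5) ++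
          wd a v (5 + 1) (3 * k + 1) ++ List.replicate (v (5 + (3 * k + 1) + 1))
            (a (5 + (3 * k + 1) + 1)) := by
        intro v
        rw [show 3 * k + 1 + 2 = 1 + (3 * k + 1) + 1 by ring, wd_append, wd_append, wd_one, wd_one]
        rw [show 5 + (1 + (3 * k + 1)) = 5 + (3 * k + 1) + 1 by ring]
      have := cf_wrap2 (a 5) (a (5 + (3 * k + 1) + 1)) (w k) W h2
      convert this using 1
      ext u
      simp only [LW, Set.mem_setOf_eq]
      rw [show 1 + 3 * k + 1 + 1 = 3 * k + 1 + 2 by ring]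
      constructor
      · rintro ⟨v, ⟨e, x', y', ⟨v', hv1, rfl, rfl, hv4, hv5⟩, h1, h2⟩, rfl⟩
        refine ⟨e, _, ⟨v', ⟨⟨hv4, trivial⟩, hv5⟩, rfl⟩, ?_⟩
        rw [hw, hw, h1, h2, List.replicate_add, add_comm (e * W), List.replicate_add]
        rw [wd_congr a v v']
        · rw [show 3 * (k + 2) + 1 = 5 + (3 * k + 1) + 1 by ring]
          simp only [List.append_assoc]
        · intro t ht1 ht2
          exact (hv1 t (by omega) (by omega)).symm
      · rintro ⟨e, _, ⟨v, ⟨⟨hv4, _⟩, hv5⟩, rfl⟩, rfl⟩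
        have hc : ∀ n : ℕ, List.replicate (e * W + n) (a (5 + (3 * k + 1) + 1)) =
            List.replicate n (a (5 + (3 * k + 1) + 1)) ++
              List.replicate (e * W) (a (5 + (3 * k + 1) + 1)) := by
          intro n
          rw [add_comm, List.replicate_add]
        refine ⟨fun t => if t = 5 then e * w k + v 5 else if t = 5 + (3 * k + 1) + 1 then
          e * W + v (5 + (3 * k + 1) + 1) else v t, ⟨e, _, _, ⟨v, ?_, rfl, rfl, hv4, hv5⟩,
            by simp, ?_⟩, ?_⟩
        · intro t ht1 ht2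
          beta_reduce
          rw [if_neg (by omega), if_neg (by omega)]
        · beta_reduce
          rw [if_neg (by omega), if_pos rfl]
          rw [show 3 * (k + 2) + 1 = 5 + (3 * k + 1) + 1 by ring]
        · rw [hw, hw]
          rw [wd_congr a (fun t => if t = 5 then e * w k + v 5 else if t = 5 + (3 * k + 1) + 1 then
            e * W + v (5 + (3 * k + 1) + 1) else v t) v (5 + 1)]
          · simp only [if_true]
            rw [if_neg (by omega), List.replicate_add, hc]
            simp only [List.append_assoc]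
          · intro t ht1 ht2
            rw [if_neg (by omega), if_neg (by omega)]
    -- simplify
    have h4 : IsCF (LW a 5 (1 + 3 * k + 1 + 1) (fun v => ∃ c : ℕ → ℕ,
        (∀ s, s < k + 1 → v (3 * (s + 2) + 1) = W * c s) ∧
        v 5 = ∑ s ∈ Finset.range (k + 1), w s * c s)) := by
      rw [show 1 + 3 * k + 1 + 1 = 3 * k + 1 + 2 by ring]
      rw [LW_congr a 5 (3 * k + 1 + 2) _ _ (fun v => ?_)] at h3
      · exact h3
      · constructor
        · rintro ⟨e, x', y', ⟨v', hv1, rfl, rfl, ⟨c, hc1, hc2⟩, hv5⟩, h1, h2⟩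
          refine ⟨fun s => if s = k then e else c s, ?_, ?_⟩
          · intro s hs
            beta_reduce
            rcases Nat.lt_succ_iff_lt_or_eq.1 hs with h | rfl
            · rw [if_neg (by omega), ← hc1 s h]
              exact (hv1 _ (by omega) (by omega)).symm
            · rw [if_pos rfl, show 3 * (s + 2) + 1 = 5 + (3 * s + 1) + 1 by ring, h2]
              rw [hv5]
              ring
          · rw [Finset.sum_range_succ]
            beta_reduce
            rw [if_pos rfl, h1, hc2, add_comm, mul_comm e]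
            congr 1
            apply Finset.sum_congr rfl
            intro s hs
            rw [Finset.mem_range] at hs
            rw [if_neg (by omega)]
        · rintro ⟨c, hc1, hc2⟩
          refine ⟨c k, _, _, ⟨fun t => if t = 5 then ∑ s ∈ Finset.range k, w s * c s else
            if t = 3 * (k + 2) + 1 then 0 else v t, ?_, rfl, rfl, ⟨c, ?_, by simp⟩, ?_⟩, ?_, ?_⟩
          · intro t ht1 ht2
            beta_reduce
            rw [if_neg (by omega), if_neg (by omega)]
          · intro s hs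
            beta_reduce
            rw [if_neg (by omega), if_neg (by omega)]
            exact hc1 s (by omega)
          · beta_reduce
            rw [if_neg (by omega), if_pos rfl]
          · simp only [if_true]
            rw [hc2, Finset.sum_range_succ]
            ring
          · beta_reduce
            rw [if_neg (by omega), if_pos rfl, show 5 + (3 * k + 1) + 1 = 3 * (k + 2) + 1 by ring,
              hc1 k (by omega)]
            ring
    have h5 := cf_glue a 5 (1 + 3 * k + 1 + 1) 1 _ (fun _ => True)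
      (by
        rintro v v' hv ⟨c, h1, h2⟩
        refine ⟨c, fun s hs => ?_, ?_⟩
        · rw [← h1 s hs, hv _ (by omega) (by omega)]
        · rw [← h2, hv _ (by omega) (by omega)])
      (fun _ _ _ _ => trivial) h4 (cf_free _ _ _)
    rw [show 1 + 3 * (k + 1) = 1 + 3 * k + 1 + 1 + 1 by ring]
    simpa using h5

end Run7.h356
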