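import Mathlib

set_option autoImplicit false
set_option linter.deprecated false

namespace Run7.h356

/-- The variables of the system of the equation with `r` monomials of degree `d` in `m + 1`
variables. -/
inductive Va (m r d : ℕ) : Type
  | P (i : Fin r) (j : Fin (d + 1)) : Va m r d
  | Q (i : Fin r) (j : Fin d) : Va m r d
  | N (i : Fin r) : Va m r d
  | Y (v : Fin (m + 1)) : Va m r d
  | Z : Va m r d
  | D : Va m r d
  deriving DecidableEq, Fintype

/-- The gadgets. -/
inductive Ga (r d : ℕ) : Type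
  | A (i : Fin r) (j : Fin d) : Ga r d
  | B (i : Fin r) (j : Fin d) : Ga r d
  | O (i : Fin r) : Ga r d
  | M (i : Fin r) : Ga r d
  | Z : Ga r d
  | F : Ga r d
  deriving DecidableEq, Fintype

variable {m r d : ℕ}

/-- First distinguished variable. -/
def gp (wd : Fin r → Fin d → Fin (m + 1)) : Ga r d → Va m r d
  | .A i j => .P i j.castSucc
  | _ => .Y 0

/-- Second distinguished variable. -/
def gq (wd : Fin r → Fin d → Fin (m + 1)) : Ga r d → Va m r d
  | .A i j => .Y (wd i j)
  | _ => .D

theorem gpq (wd : Fin r → Fin d → Fin (m + 1)) (g : Ga r d) : gp wd g ≠ gq wd g := by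
  cases g <;> simp [gp, gq]

/-- The weights. -/
def gw (wd : Fin r → Fin d → Fin (m + 1)) (c : Fin r → ℤ) : Ga r d → Va m r d → ℕ
  | .A i j => Pi.single (.Y (wd i j)) 1 + Pi.single (.Q i j) 6
  | .B i j => Pi.single (.P i j.succ) 1 + Pi.single (.P i j.castSucc) 6 +
      Pi.single (.Y (wd i j)) 6 + Pi.single (.Q i j) 6
  | .O i => Pi.single (.P i 0) 4
  | .M i => Pi.single (.P i (Fin.last d)) 1 + Pi.single (.N i) 1
  | .Z => Pi.single (.Y 0) 4 + Pi.single .Z 1
  | .F => ∑ i, (Pi.single (.P i (Fin.last d)) (c i).toNat + Pi.single (.N i) (-c i).toNat) +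
      (Pi.single (.Y 0) 4 + Pi.single .Z 1)

/-- The right sides. -/
def gW (c : Fin r → ℤ) : Ga r d → ℕ
  | .A _ _ => 72
  | .B _ _ => 114
  | .O _ => 25
  | .M _ => 12
  | .Z => 31
  | .F => ∑ i, (6 * (c i).toNat + 6 * (-c i).toNat) + 31

theorem gW_pos (c : Fin r → ℤ) (g : Ga r d) : 1 ≤ gW c g := by
  cases g <;> simp [gW]

/-- The linear form of a weight. -/
def lin {V : Type} [Fintype V] (w : V → ℕ) (F : V → ℚ) : ℚ := ∑ s, (w s : ℚ) * F s

theorem lin_add {V : Type} [Fintype V] (w w' : V → ℕ) (F : V → ℚ) :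
    lin (w + w') F = lin w F + lin w' F := by
  simp only [lin, Pi.add_apply, Nat.cast_add, add_mul, Finset.sum_add_distrib]

theorem lin_single {V : Type} [Fintype V] [DecidableEq V] (a : V) (n : ℕ) (F : V → ℚ) :
    lin (Pi.single a n) F = n * F a := by
  unfold lin
  rw [Finset.sum_eq_single a]
  · simp
  · intro b _ hb
    simp [hb]
  · intro h; exact absurd (Finset.mem_univ _) h

theorem lin_sum {V κ : Type} [Fintype V] [Fintype κ] (w : κ → V → ℕ) (F : V → ℚ) :
    lin (∑ i, w i) F = ∑ i, lin (w i) F := by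
  simp only [lin, Finset.sum_apply, Nat.cast_sum, Finset.sum_mul]
  rw [Finset.sum_comm]

/-- The system in terms of the centred unknowns. -/
def Sol (wd : Fin r → Fin d → Fin (m + 1)) (c : Fin r → ℤ) (t : Va m r d → ℚ) : Prop :=
  ∀ g, ∑ s, (gw wd c g s : ℚ) * (if s = gq wd g then (6 + t (gp wd g)) * (6 + t s) else 6 + t s) =
    gW c g

theorem sol_iff (wd : Fin r → Fin d → Fin (m + 1)) (c : Fin r → ℤ) (t : Va m r d → ℚ) :
    Sol wd c t ↔
      (∀ i j, (6 + t (.P i j.castSucc)) * (6 + t (.Y (wd i j))) + 6 * (6 + t (.Q i j)) = 72) ∧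
      (∀ i j, (6 + t (.P i j.succ)) + 6 * (6 + t (.P i j.castSucc)) + 6 * (6 + t (.Y (wd i j))) +
        6 * (6 + t (.Q i j)) = 114) ∧
      (∀ i, 4 * (6 + t (.P i 0)) = 25) ∧
      (∀ i, (6 + t (.P i (Fin.last d))) + (6 + t (.N i)) = 12) ∧
      (4 * (6 + t (.Y 0)) + (6 + t .Z) = 31) ∧
      (∑ i, (((c i).toNat : ℚ) * (6 + t (.P i (Fin.last d))) +
        ((-c i).toNat : ℚ) * (6 + t (.N i))) + (4 * (6 + t (.Y 0)) + (6 + t .Z)) =
        ∑ i, (6 * ((c i).toNat : ℚ) + 6 * ((-c i).toNat : ℚ)) + 31) := by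
  have key : ∀ g, ∑ s, (gw wd c g s : ℚ) *
      (if s = gq wd g then (6 + t (gp wd g)) * (6 + t s) else 6 + t s) =
      lin (gw wd c g) (fun s => if s = gq wd g then (6 + t (gp wd g)) * (6 + t s) else 6 + t s) :=
    fun g => rfl
  constructor
  · intro h
    refine ⟨?_, ?_, ?_, ?_, ?_, ?_⟩
    · intro i j
      have := h (.A i j)
      rw [key] at this
      simpa [gw, gq, gp, gW, lin_add, lin_single] using this
    · intro i j
      have := h (.B i j)
      rw [key] at this
      simpa [gw, gq, gp, gW, lin_add, lin_single] using this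
    · intro i
      have := h (.O i)
      rw [key] at this
      simpa [gw, gq, gp, gW, lin_add, lin_single] using this
    · intro i
      have := h (.M i)
      rw [key] at this
      simpa [gw, gq, gp, gW, lin_add, lin_single] using this
    · have := h .Z
      rw [key] at this
      simpa [gw, gq, gp, gW, lin_add, lin_single] using this
    · have := h .F
      rw [key] at this
      simpa [gw, gq, gp, gW, lin_add, lin_single, lin_sum] using this
  · rintro ⟨h1, h2, h3, h4, h5, h6⟩ g
    rw [key]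
    cases g with
    | A i j => simpa [gw, gq, gp, gW, lin_add, lin_single] using h1 i j
    | B i j => simpa [gw, gq, gp, gW, lin_add, lin_single] using h2 i j
    | O i => simpa [gw, gq, gp, gW, lin_add, lin_single] using h3 i
    | M i => simpa [gw, gq, gp, gW, lin_add, lin_single] using h4 i
    | Z => simpa [gw, gq, gp, gW, lin_add, lin_single] using h5
    | F => simpa [gw, gq, gp, gW, lin_add, lin_single, lin_sum] using h6

end Run7.h356
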