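import Pool.Agent.Run7.h356.Lang

set_option autoImplicit false
set_option linter.deprecated false

namespace Run7.h356

open Set Pointwise

variable {N : ℕ}

/-- The set presented by a list of bases and periods. -/
def Sem (S : List ((Fin N → ℕ) × List (Fin N → ℕ))) : Set (Fin N → ℕ) :=
  {k | ∃ p ∈ S, ∃ c : Fin p.2.length → ℕ, k = p.1 + ∑ i, c i • p.2.get i}

theorem lin_span (P : List (Fin N → ℕ)) (k : Fin N → ℕ) :
    (∃ c : Fin P.length → ℕ, k = ∑ i, c i • P.get i) ↔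
      k ∈ Submodule.span ℕ {x : Fin N → ℕ | x ∈ P} := by
  have : {x : Fin N → ℕ | x ∈ P} = Set.range P.get := by
    ext x
    simp only [Set.mem_setOf_eq, Set.mem_range, List.mem_iff_get]
  rw [this, Submodule.mem_span_range_iff_exists_fun]
  constructor
  · rintro ⟨c, rfl⟩; exact ⟨c, rfl⟩
  · rintro ⟨c, h⟩; exact ⟨c, h.symm⟩

theorem Sem_nil : Sem ([] : List ((Fin N → ℕ) × List (Fin N → ℕ))) = ∅ := by
  ext k
  simp [Sem]

theorem Sem_append (S S' : List ((Fin N → ℕ) × List (Fin N → ℕ))) :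
    Sem (S ++ S') = Sem S ∪ Sem S' := by
  ext k
  simp only [Sem, List.mem_append, Set.mem_setOf_eq, Set.mem_union]
  constructor
  · rintro ⟨p, hp | hp, h⟩
    · exact Or.inl ⟨p, hp, h⟩
    · exact Or.inr ⟨p, hp, h⟩
  · rintro (⟨p, hp, h⟩ | ⟨p, hp, h⟩)
    · exact ⟨p, Or.inl hp, h⟩
    · exact ⟨p, Or.inr hp, h⟩

theorem Sem_single (b : Fin N → ℕ) (P : List (Fin N → ℕ)) (k : Fin N → ℕ) :
    k ∈ Sem [(b, P)] ↔ ∃ u ∈ Submodule.span ℕ {x : Fin N → ℕ | x ∈ P}, k = b + u := by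
  simp only [Sem, List.mem_singleton, Set.mem_setOf_eq]
  constructor
  · rintro ⟨p, rfl, c, h⟩
    exact ⟨_, (lin_span P _).1 ⟨c, rfl⟩, h⟩
  · rintro ⟨u, hu, rfl⟩
    obtain ⟨c, rfl⟩ := (lin_span P _).2 hu
    exact ⟨_, rfl, c, rfl⟩

theorem exists_list_lin (s : Set (Fin N → ℕ)) (h : IsLinearSet s) :
    ∃ S : List ((Fin N → ℕ) × List (Fin N → ℕ)), Sem S = s := by
  obtain ⟨a, t, ht, rfl⟩ := h
  refine ⟨[(a, ht.toFinset.toList)], ?_⟩
  ext k
  rw [Sem_single]
  have e : {x : Fin N → ℕ | x ∈ ht.toFinset.toList} = t := by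
    ext x; simp
  rw [e, Set.mem_vadd_set]
  have e2 : ∀ u, u ∈ Submodule.span ℕ t ↔ u ∈ AddSubmonoid.closure t := by
    intro u
    rw [← Submodule.span_nat_eq_addSubmonoidClosure]
    rfl
  constructor
  · rintro ⟨u, hu, rfl⟩
    exact ⟨u, (e2 u).1 hu, rfl⟩
  · rintro ⟨u, hu, rfl⟩
    exact ⟨u, (e2 u).2 hu, rfl⟩

theorem exists_list (s : Set (Fin N → ℕ)) (h : IsSemilinearSet s) :
    ∃ S : List ((Fin N → ℕ) × List (Fin N → ℕ)), Sem S = s := by
  obtain ⟨F, hF, hl, rfl⟩ := h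
  induction F, hF using Set.Finite.induction_on with
  | empty => exact ⟨[], by rw [Sem_nil, Set.sUnion_empty]⟩
  | @insert a F _ _ ih =>
    obtain ⟨S1, h1⟩ := ih (fun t ht => hl t (Set.mem_insert_of_mem _ ht))
    obtain ⟨S2, h2⟩ := exists_list_lin a (hl a (Set.mem_insert _ _))
    exact ⟨S2 ++ S1, by rw [Sem_append, h1, h2, Set.sUnion_insert]⟩

/-! ### Definability -/

/-- Predicates on flat vectors defining semilinear sets. -/
def SP (N : ℕ) (A : (ℕ → ℕ) → Prop) : Prop := IsSemilinearSet {v : Fin N → ℕ | A (ext v)}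

/-- Additive functions. -/
def LF (N : ℕ) (φ : (ℕ → ℕ) → ℕ) : Prop := ∃ f : (Fin N → ℕ) →+ ℕ, ∀ v, φ (ext v) = f v

theorem LF_var (t : ℕ) : LF N (fun v => v t) := by
  by_cases h : t < N
  · exact ⟨Pi.evalAddMonoidHom _ ⟨t, h⟩, fun v => by simp [ext, h]⟩
  · exact ⟨0, fun v => by simp [ext, h]⟩

theorem LF_add (φ ψ : (ℕ → ℕ) → ℕ) (h1 : LF N φ) (h2 : LF N ψ) :
    LF N (fun v => φ v + ψ v) := by
  obtain ⟨f, hf⟩ := h1
  obtain ⟨g, hg⟩ := h2
  exact ⟨f + g, fun v => by simp [hf, hg]⟩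

theorem LF_mul (c : ℕ) (φ : (ℕ → ℕ) → ℕ) (h1 : LF N φ) : LF N (fun v => c * φ v) := by
  obtain ⟨f, hf⟩ := h1
  exact ⟨c • f, fun v => by simp [hf]⟩

theorem SP_eq (φ ψ : (ℕ → ℕ) → ℕ) (h1 : LF N φ) (h2 : LF N ψ) :
    SP N (fun v => φ v = ψ v) := by
  obtain ⟨f, hf⟩ := h1
  obtain ⟨g, hg⟩ := h2
  have := isSemilinearSet_setOfPred_eq (M := Fin N → ℕ) (0 : ℕ) 0 f g
  unfold SP
  convert this using 1
  ext v
  simp [hf, hg]

theorem lt_lin : IsLinearSet {p : ℕ × ℕ | p.1 < p.2} := by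
  refine ⟨(0, 1), {(1, 1), (0, 1)}, Set.toFinite _, ?_⟩
  ext ⟨x, y⟩
  rw [Set.mem_vadd_set]
  simp only [SetLike.mem_coe, AddSubmonoid.mem_closure_pair, Set.mem_setOf_eq]
  constructor
  · intro h
    refine ⟨(x, y - 1), ⟨x, y - 1 - x, ?_⟩, ?_⟩
    · simp only [Prod.smul_mk, smul_eq_mul, mul_one, mul_zero, Prod.mk_add_mk, Prod.mk.injEq]
      omega
    · simp only [vadd_eq_add, Prod.mk_add_mk, Prod.mk.injEq]
      omega
  · rintro ⟨_, ⟨a, b, rfl⟩, h⟩
    simp only [Prod.smul_mk, smul_eq_mul, mul_one, mul_zero, Prod.mk_add_mk, vadd_eq_add,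
      Prod.mk.injEq] at h
    omega

theorem SP_lt (φ ψ : (ℕ → ℕ) → ℕ) (h1 : LF N φ) (h2 : LF N ψ) :
    SP N (fun v => φ v < ψ v) := by
  obtain ⟨f, hf⟩ := h1
  obtain ⟨g, hg⟩ := h2
  have := IsSemilinearSet.preimage (M := Fin N → ℕ) lt_lin.isSemilinearSet (f.prod g)
  unfold SP
  convert this using 1
  ext v
  simp [hf, hg]

theorem SP_and (A B : (ℕ → ℕ) → Prop) (h1 : SP N A) (h2 : SP N B) :
    SP N (fun v => A v ∧ B v) := IsSemilinearSet.inter h1 h2

theorem SP_or (A B : (ℕ → ℕ) → Prop) (h1 : SP N A) (h2 : SP N B) :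
    SP N (fun v => A v ∨ B v) := IsSemilinearSet.union h1 h2

theorem SP_not (A : (ℕ → ℕ) → Prop) (h1 : SP N A) : SP N (fun v => ¬ A v) :=
  IsSemilinearSet.compl h1

theorem SP_ne (φ ψ : (ℕ → ℕ) → ℕ) (h1 : LF N φ) (h2 : LF N ψ) :
    SP N (fun v => φ v ≠ ψ v) := SP_not _ (SP_eq φ ψ h1 h2)

theorem SP_const (P : Prop) : SP N (fun _ => P) := by
  unfold SP
  by_cases h : P
  · have : {v : Fin N → ℕ | P} = Set.univ := by
      ext; simp [h]
    rw [this]
    exact IsSemilinearSet.univ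
  · have : {v : Fin N → ℕ | P} = ∅ := by
      ext; simp [h]
    rw [this]
    exact IsSemilinearSet.empty

theorem SP_all {ι : Type} [Finite ι] (A : ι → (ℕ → ℕ) → Prop) (h : ∀ i, SP N (A i)) :
    SP N (fun v => ∀ i, A i v) := by
  have := IsSemilinearSet.iInter (M := Fin N → ℕ) (s := fun i => {v : Fin N → ℕ | A i (ext v)}) h
  unfold SP
  convert this using 1
  ext v
  simp

theorem SP_ex {ι : Type} [Finite ι] (A : ι → (ℕ → ℕ) → Prop) (h : ∀ i, SP N (A i)) :
    SP N (fun v => ∃ i, A i v) := by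
  have := IsSemilinearSet.iUnion (M := Fin N → ℕ) (s := fun i => {v : Fin N → ℕ | A i (ext v)}) h
  unfold SP
  convert this using 1
  ext v
  simp

theorem SP_iff (A B : (ℕ → ℕ) → Prop) (h : ∀ v, A v ↔ B v) (hA : SP N A) : SP N B := by
  have : A = B := funext fun v => propext (h v)
  rw [← this]; exact hA

theorem SP_ball (n : ℕ) (A : ℕ → (ℕ → ℕ) → Prop) (h : ∀ i, i < n → SP N (A i)) :
    SP N (fun v => ∀ i, i < n → A i v) := by
  refine SP_iff (fun v => ∀ i : Fin n, A i v) _ (fun v => ?_) (SP_all _ (fun i => h i i.2))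
  constructor
  · intro h i hi; exact h ⟨i, hi⟩
  · intro h i; exact h i i.2

theorem SP_bex (n : ℕ) (A : ℕ → (ℕ → ℕ) → Prop) (h : ∀ i, i < n → SP N (A i)) :
    SP N (fun v => ∃ i, i < n ∧ A i v) := by
  refine SP_iff (fun v => ∃ i : Fin n, A i v) _ (fun v => ?_) (SP_ex _ (fun i => h i i.2))
  constructor
  · rintro ⟨i, h⟩; exact ⟨i, i.2, h⟩
  · rintro ⟨i, hi, h⟩; exact ⟨⟨i, hi⟩, h⟩

theorem SP_RX (s : ℕ) : SP N (fun v => RX v s) :=
  SP_and _ _ (SP_eq _ _ (LF_var _) (LF_mul 4 _ (LF_var _))) (SP_eq _ _ (LF_var _) (LF_var _))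

theorem SP_HH (s : ℕ) : SP N (fun v => HH v s) :=
  SP_or _ _ (SP_lt _ _ (LF_add _ _ (LF_var _) (LF_mul 3 _ (LF_var _))) (LF_var _))
    (SP_lt _ _ (LF_add _ _ (LF_mul 3 _ (LF_var _)) (LF_var _)) (LF_var _))

theorem SP_VV (s : ℕ) : SP N (fun v => VV v s) :=
  SP_eq _ _ (LF_var _) (LF_add _ _ (LF_mul 2 _ (LF_var _)) (LF_mul 2 _ (LF_var _)))

theorem SP_MX (k : ℕ) : SP N (MX k) := SP_ball _ _ (fun s _ => SP_RX s)

theorem SP_MT1 (k : ℕ) : SP N (MT1 k) := by
  refine SP_and _ _ (SP_eq _ _ (LF_var _) (LF_add _ _ (LF_var _) (LF_mul 3 _ (LF_var _))))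
    (SP_and _ _ (SP_ball _ _ (fun s _ => ?_)) (SP_bex _ _ (fun s _ => ?_)))
  · by_cases h : s ≠ 0
    · refine SP_iff (fun v => HH v s ∨ VV v s) _ (fun v => ?_) (SP_or _ _ (SP_HH s) (SP_VV s))
      constructor
      · intro h1 _; exact h1
      · intro h1; exact h1 h
    · refine SP_iff (fun _ => True) _ (fun v => ?_) (SP_const True)
      constructor
      · intro _ h2; exact absurd h2 h
      · intro _; trivial
  · exact SP_and _ _ (SP_const _) (SP_HH s)

theorem SP_MT2 (G : ℕ) : SP N (MT2 G) := by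
  refine SP_or _ _ (SP_lt _ _ (LF_add _ _ (LF_mul 3 _ (LF_var _)) (LF_var _)) (LF_var _))
    (SP_and _ _ (SP_lt _ _ (LF_add _ _ (LF_var _) (LF_mul 3 _ (LF_var _))) (LF_var _))
      (SP_ball _ _ (fun g _ => ?_)))
  exact SP_ne _ _ (LF_var _) (LF_add _ _ (LF_var _) (LF_mul _ _ (LF_var _)))

theorem SP_MT3 {k G : ℕ} (p q : Fin G → Fin k) : SP N (MT3 p q) := by
  refine SP_ex _ (fun g => SP_and _ _ (SP_eq _ _ (LF_var _)
    (LF_add _ _ (LF_var _) (LF_mul _ _ (LF_var _)))) (SP_or _ _ (SP_ex _ (fun s => ?_))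
      (SP_or _ _ (SP_ex _ (fun s => ?_)) ?_)))
  · exact SP_ne _ _ (LF_var _) (LF_mul 2 _ (LF_var _))
  · exact SP_and _ _ (SP_const _) (SP_ne _ _ (LF_var _) (LF_var _))
  · exact SP_ne _ _ (LF_var _) (LF_var _)

/-! ### The star -/

def lam1 : Fin N → ℕ := fun t => if (t : ℕ) = 0 ∨ (t : ℕ) = 1 then 1 else 0

def lam2 (g : ℕ) : Fin N → ℕ := fun t => if (t : ℕ) = 1 then 4 + g else if (t : ℕ) = 2 then 1 else 0

def pv (s x W : ℕ) : Fin N → ℕ :=
  fun t => if (t : ℕ) = 5 then x else if (t : ℕ) = 3 * (s + 2) + 1 then W else 0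

def unt (K t0 : ℕ) : Fin N → ℕ :=
  fun t => if (t : ℕ) = t0 ∧ t0 < K ∧ 3 ≤ t0 ∧ t0 ≠ 5 ∧ ¬ (6 ≤ t0 ∧ t0 % 3 = 1) then 1 else 0

/-- The periods of the star. -/
def starP (N k g : ℕ) (w : Fin k → ℕ) (W : ℕ) : List (Fin N → ℕ) :=
  [lam1, lam2 g] ++ (List.ofFn (fun s : Fin k => pv s (w s) W) ++
    List.ofFn (fun t : Fin N => unt (3 * (k + 2)) t))

theorem mem_ofFn_set {n : ℕ} (f : Fin n → Fin N → ℕ) :
    {x : Fin N → ℕ | x ∈ List.ofFn f} = Set.range f := by
  ext x
  simp [List.mem_ofFn]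

theorem star_span (k g : ℕ) (w : Fin k → ℕ) (W : ℕ) (v : Fin N → ℕ) :
    v ∈ Submodule.span ℕ {x | x ∈ starP N k g w W} ↔
      ∃ (m1 m2 : ℕ) (c : Fin k → ℕ) (e : Fin N → ℕ), ∀ t,
        v t = m1 * (lam1 : Fin N → ℕ) t + m2 * (lam2 g : Fin N → ℕ) t +
          (∑ s, c s * pv s (w s) W t + ∑ t0 : Fin N, e t0 * unt (3 * (k + 2)) t0 t) := by
  have e0 : {x | x ∈ starP N k g w W} = {lam1, lam2 g} ∪
      (Set.range (fun s : Fin k => pv s (w s) W) ∪
      Set.range (fun t : Fin N => unt (3 * (k + 2)) t)) := by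
    rw [← mem_ofFn_set, ← mem_ofFn_set]
    ext x
    simp only [starP, List.mem_append, Set.mem_setOf_eq, Set.mem_union, List.mem_cons,
      List.not_mem_nil, or_false, Set.mem_insert_iff, Set.mem_singleton_iff]
  rw [e0, Submodule.span_union, Submodule.span_union, Submodule.mem_sup]
  constructor
  · rintro ⟨a, ha, b, hb, rfl⟩
    rw [Submodule.mem_span_pair] at ha
    obtain ⟨m1, m2, rfl⟩ := ha
    rw [Submodule.mem_sup] at hb
    obtain ⟨b1, hb1, b2, hb2, rfl⟩ := hb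
    rw [Submodule.mem_span_range_iff_exists_fun] at hb1 hb2
    obtain ⟨c, rfl⟩ := hb1
    obtain ⟨e, rfl⟩ := hb2
    refine ⟨m1, m2, c, e, fun t => ?_⟩
    simp only [Pi.add_apply, Pi.smul_apply, smul_eq_mul, Finset.sum_apply]
  · rintro ⟨m1, m2, c, e, h⟩
    refine ⟨m1 • lam1 + m2 • lam2 g, ?_, (∑ s, c s • pv s (w s) W) +
      ∑ t0 : Fin N, e t0 • unt (3 * (k + 2)) t0, ?_, ?_⟩
    · rw [Submodule.mem_span_pair]
      exact ⟨m1, m2, rfl⟩
    · rw [Submodule.mem_sup]
      refine ⟨_, ?_, _, ?_, rfl⟩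
      · rw [Submodule.mem_span_range_iff_exists_fun]
        exact ⟨c, rfl⟩
      · rw [Submodule.mem_span_range_iff_exists_fun]
        exact ⟨e, rfl⟩
    · funext t
      rw [h t]
      simp only [Pi.add_apply, Pi.smul_apply, smul_eq_mul, Finset.sum_apply]

theorem star_iff (k g : ℕ) (hN : 3 * (k + 2) ≤ N) (w : Fin k → ℕ) (W : ℕ) (v : Fin N → ℕ) :
    v ∈ Sem [((0 : Fin N → ℕ), starP N k g w W)] ↔
      Star g w W (ext v) ∧ ∀ t, 3 * (k + 2) ≤ t → ext v t = 0 := by
  rw [Sem_single]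
  have e0 : (∃ u ∈ Submodule.span ℕ {x | x ∈ starP N k g w W}, v = 0 + u) ↔
      v ∈ Submodule.span ℕ {x | x ∈ starP N k g w W} := by
    constructor
    · rintro ⟨u, hu, rfl⟩
      rw [zero_add]; exact hu
    · intro h; exact ⟨v, h, by rw [zero_add]⟩
  rw [e0, star_span]
  have hunt : ∀ (e : Fin N → ℕ) (t : Fin N),
      ∑ t0 : Fin N, e t0 * (unt (3 * (k + 2)) (t0 : ℕ) : Fin N → ℕ) t =
        if (t : ℕ) < 3 * (k + 2) ∧ 3 ≤ (t : ℕ) ∧ (t : ℕ) ≠ 5 ∧ ¬ (6 ≤ (t : ℕ) ∧ (t : ℕ) % 3 = 1)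
          then e t else 0 := by
    intro e t
    rw [Finset.sum_eq_single t]
    · unfold unt
      split_ifs with h1 h2 h2
      · rw [mul_one]
      · exact absurd h1.2 h2
      · exact absurd ⟨rfl, h2⟩ h1
      · rw [mul_zero]
    · intro b _ hb
      unfold unt
      rw [if_neg, mul_zero]
      rintro ⟨h, _⟩
      exact hb (Fin.ext h.symm)
    · intro h; exact absurd (Finset.mem_univ _) h
  constructor
  · rintro ⟨m1, m2, c, e, h⟩
    have h5 := h ⟨5, by omega⟩
    rw [hunt] at h5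
    have hs0 : ∀ t : Fin N, (t : ℕ) < 5 ∨ 3 * (k + 2) ≤ (t : ℕ) → ∑ s : Fin k, c s *
        (pv (s : ℕ) (w s) W : Fin N → ℕ) t = 0 := by
      intro t ht
      apply Finset.sum_eq_zero
      intro s _
      have := s.2
      unfold pv
      rw [if_neg (by omega), if_neg (by omega), mul_zero]
    have h0 : ext v 0 = m1 := by
      rw [ext_lt _ _ (by omega), h ⟨0, by omega⟩, hunt, hs0 _ (by simp)]
      simp [lam1, lam2]
    have h1 : ext v 1 = m1 + m2 * (4 + g) := by
      rw [ext_lt _ _ (by omega), h ⟨1, by omega⟩, hunt, hs0 _ (by simp)]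
      simp [lam1, lam2]
    have h2 : ext v 2 = m2 := by
      rw [ext_lt _ _ (by omega), h ⟨2, by omega⟩, hunt, hs0 _ (by simp)]
      simp [lam1, lam2]
    refine ⟨⟨?_, c, ?_, ?_⟩, ?_⟩
    · rw [h0, h1, h2]
      ring
    · intro s
      have hsN : 3 * ((s : ℕ) + 2) + 1 < N := by have := s.2; omega
      rw [ext_lt _ _ hsN, h ⟨_, hsN⟩, hunt, if_neg (by
        simp only
        omega)]
      have : ∑ s', c s' * (pv (s' : ℕ) (w s') W : Fin N → ℕ) ⟨_, hsN⟩ = c s * W := by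
        rw [Finset.sum_eq_single s]
        · unfold pv
          simp only
          rw [if_neg (by omega), if_pos trivial]
        · intro b _ hb
          have hb' : (b : ℕ) ≠ s := fun h => hb (Fin.ext h)
          unfold pv
          simp only
          rw [if_neg (by omega), if_neg (by omega), mul_zero]
        · intro h; exact absurd (Finset.mem_univ _) h
      rw [this]
      unfold lam1 lam2
      simp only
      rw [if_neg (by omega), if_neg (by omega), if_neg (by omega)]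
      ring
    · rw [ext_lt _ _ (by omega), h5]
      have : ∑ s', c s' * (pv (s' : ℕ) (w s') W : Fin N → ℕ) ⟨5, by omega⟩ =
          ∑ s, w s * c s := by
        apply Finset.sum_congr rfl
        intro s _
        unfold pv
        simp only [if_true]
        ring
      rw [this]
      simp [lam1, lam2]
    · intro t ht
      by_cases htN : t < N
      · rw [ext_lt _ _ htN, h ⟨t, htN⟩, hunt, hs0 _ (Or.inr ht), if_neg (by simp only; omega)]
        unfold lam1 lam2
        simp only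
        rw [if_neg (by omega), if_neg (by omega), if_neg (by omega)]
        ring
      · unfold ext
        rw [dif_neg htN]
  · rintro ⟨⟨h1, c, h2, h3⟩, hz⟩
    refine ⟨ext v 0, ext v 2, c, v, fun t => ?_⟩
    rw [hunt]
    have hvt : v t = ext v t := (ext_lt v t t.2).symm
    have ht := t.2
    rw [hvt]
    by_cases t0 : (t : ℕ) < 5
    · have hs0 : ∑ s : Fin k, c s *
          (pv (s : ℕ) (w s) W : Fin N → ℕ) t = 0 := by
        apply Finset.sum_eq_zero
        intro s _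
        unfold pv
        rw [if_neg (by omega), if_neg (by omega), mul_zero]
      rw [hs0]
      unfold lam1 lam2
      have : (t : ℕ) = 0 ∨ (t : ℕ) = 1 ∨ (t : ℕ) = 2 ∨ (t : ℕ) = 3 ∨ (t : ℕ) = 4 := by omega
      rcases this with h | h | h | h | h
      · rw [h]; simp
      · rw [h, h1]; simp; ring
      · rw [h]; simp
      · rw [if_neg (by omega), if_neg (by omega), if_neg (by omega), if_pos (by omega)]; simp
      · rw [if_neg (by omega), if_neg (by omega), if_neg (by omega), if_pos (by omega)]; simp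
    · have hl1 : (lam1 : Fin N → ℕ) t = 0 := by
        unfold lam1; rw [if_neg (by omega)]
      have hl2 : (lam2 g : Fin N → ℕ) t = 0 := by
        unfold lam2; rw [if_neg (by omega), if_neg (by omega)]
      rw [hl1, hl2, mul_zero, mul_zero, zero_add, zero_add]
      by_cases tK : (t : ℕ) < 3 * (k + 2)
      · by_cases t5 : (t : ℕ) = 5
        · rw [if_neg (by omega), t5, h3, add_zero]
          apply Finset.sum_congr rfl
          intro s _
          unfold pv
          rw [if_pos t5]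
          ring
        · by_cases tj : (t : ℕ) % 3 = 1
          · obtain ⟨s, hs⟩ : ∃ s, (t : ℕ) = 3 * (s + 2) + 1 := ⟨(t : ℕ) / 3 - 2, by omega⟩
            have hsk : s < k := by omega
            have := h2 ⟨s, hsk⟩
            simp only at this
            rw [if_neg (by omega), hs, this, add_zero, Finset.sum_eq_single ⟨s, hsk⟩]
            · unfold pv
              rw [if_neg (by omega), if_pos (by simpa using hs)]
              ring
            · intro b _ hb
              have hb' : (b : ℕ) ≠ s := fun h => hb (Fin.ext h)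
              unfold pv
              rw [if_neg (by omega), if_neg (by omega), mul_zero]
            · intro h; exact absurd (Finset.mem_univ _) h
          · rw [if_pos (by omega)]
            have : ∑ s : Fin k, c s *
                (pv (s : ℕ) (w s) W : Fin N → ℕ) t = 0 := by
              apply Finset.sum_eq_zero
              intro s _
              unfold pv
              rw [if_neg (by omega), if_neg (by omega), mul_zero]
            rw [this, zero_add]
      · rw [if_neg (by omega), hz _ (by omega), add_zero]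
        symm
        apply Finset.sum_eq_zero
        intro s _
        have := s.2
        unfold pv
        rw [if_neg (by omega), if_neg (by omega), mul_zero]

theorem SP_tail (K : ℕ) : SP N (fun v => ∀ t, K ≤ t → t < N → v t = 0) := by
  refine SP_iff (fun v => ∀ t, t < N → (if K ≤ t then v t else 0) = 0) _ (fun v => ?_)
    (SP_ball _ _ (fun t _ => ?_))
  · constructor
    · intro h t h1 h2
      have := h t h2
      rwa [if_pos h1] at this
    · intro h t h2
      split_ifs with h1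
      · exact h t h1 h2
      · rfl
  · split_ifs with h
    · exact SP_eq _ (fun _ => 0) (LF_var t) ⟨0, fun v => rfl⟩
    · exact SP_const _

end Run7.h356
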