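import Pool.Agent.Run7.h356.Defs

set_option autoImplicit false
set_option linter.deprecated false

namespace Run7.h356

open Pool.Agent.Helper336.CF

variable {T : Type}

theorem dep_HH (s : ℕ) : Dep (3 * s) 3 (fun v => HH v s) := by
  intro v v' hv h
  unfold HH at h ⊢
  rw [← hv (3 * s) (by omega) (by omega), ← hv (3 * s + 1) (by omega) (by omega),
    ← hv (3 * s + 2) (by omega) (by omega)]
  exact h

theorem dep_VV (s : ℕ) : Dep (3 * s) 3 (fun v => VV v s) := by
  intro v v' hv h
  unfold VV at h ⊢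
  rw [← hv (3 * s) (by omega) (by omega), ← hv (3 * s + 1) (by omega) (by omega),
    ← hv (3 * s + 2) (by omega) (by omega)]
  exact h

theorem cf_HH (a : ℕ → T) (s : ℕ) : IsCF (LW a (3 * s) 3 (fun v => HH v s)) :=
  cf_or a (3 * s) 3 _ _ (cf_H1 a (3 * s)) (cf_H2 a (3 * s))

theorem cf_VV (a : ℕ → T) (s : ℕ) : IsCF (LW a (3 * s) 3 (fun v => VV v s)) :=
  cf_V a (3 * s) 2 2

theorem cf_MT1 (a : ℕ → T) (k : ℕ) : IsCF (LW a 0 (3 * (k + 2)) (MT1 k)) := by
  let Q : ℕ → ℕ → (ℕ → ℕ) → Prop := fun s0 s v =>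
    if s = 0 then v (3 * s + 1) = 1 * v (3 * s) + 3 * v (3 * s + 2)
    else if s = s0 then HH v s else (HH v s ∨ VV v s)
  have key : ∀ s0 : {s0 : Fin (k + 2) // s0 ≠ 0}, IsCF (LW a 0 (3 * (k + 2))
      (fun v => ∀ s, s < k + 2 → Q s0.1 s v)) := by
    intro s0
    refine cf_blocks a (k + 2) (Q s0.1) ?_ ?_
    · intro s v v' hv h
      simp only [Q] at h ⊢
      split_ifs at h ⊢ with h1 h2
      · rw [← hv (3 * s) (by omega) (by omega), ← hv (3 * s + 1) (by omega) (by omega),
          ← hv (3 * s + 2) (by omega) (by omega)]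
        exact h
      · exact dep_HH s v v' hv h
      · rcases h with h | h
        · exact Or.inl (dep_HH s v v' hv h)
        · exact Or.inr (dep_VV s v v' hv h)
    · intro s hs
      simp only [Q]
      split_ifs with h1 h2
      · exact cf_V a (3 * s) 1 3
      · exact cf_HH a s
      · exact cf_or a (3 * s) 3 _ _ (cf_HH a s) (cf_VV a s)
  have := cf_ex a 0 (3 * (k + 2)) _ key
  rw [LW_congr a 0 (3 * (k + 2)) _ (MT1 k)] at this
  · exact this
  · intro v
    constructor
    · rintro ⟨⟨s0, hs0⟩, h⟩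
      have hs0' : (s0 : ℕ) ≠ 0 := fun h => hs0 (Fin.ext h)
      refine ⟨?_, ?_, s0, s0.2, hs0', ?_⟩
      · have := h 0 (by omega)
        simpa [Q] using this
      · intro s hs hs1
        have := h s hs
        simp only [Q, if_neg hs1] at this
        split_ifs at this with h2
        · exact Or.inl this
        · exact this
      · have := h s0 s0.2
        simpa [Q, hs0'] using this
    · rintro ⟨h1, h2, s0, hs0, hs1, h3⟩
      refine ⟨⟨⟨s0, hs0⟩, fun h => hs1 (by simpa using congrArg Fin.val h)⟩, ?_⟩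
      intro s hs
      simp only [Q]
      split_ifs with h4 h5
      · subst h4
        simpa using h1
      · rw [h5]; exact h3
      · exact h2 s hs h4

theorem cf_MT2 (a : ℕ → T) (k G : ℕ) : IsCF (LW a 0 (3 * (k + 2)) (MT2 G)) := by
  have h1 : IsCF (LW a 0 3 (MT2 G)) := cf_or a 0 3 _ _ (cf_H2 a 0) (cf_H1g a 0 G)
  have := cf_glue a 0 3 (3 * (k + 1)) (MT2 G) (fun _ => True)
    (by
      intro v v' hv h
      unfold MT2 at h ⊢
      rw [← hv 0 (by omega) (by omega), ← hv 1 (by omega) (by omega),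
        ← hv 2 (by omega) (by omega)]
      exact h) (fun _ _ _ _ => trivial) h1 (cf_free _ _ _)
  rw [show 3 * (k + 2) = 3 + 3 * (k + 1) by ring]
  simpa using this

/-- Gluing the switch block. -/
theorem cf_switch (a : ℕ → T) (k g : ℕ) (B : (ℕ → ℕ) → Prop) (hB : Dep 3 (3 * (k + 1)) B)
    (h : IsCF (LW a 3 (3 * (k + 1)) B)) :
    IsCF (LW a 0 (3 * (k + 2)) (fun v => v 1 = v 0 + (4 + g) * v 2 ∧ B v)) := by
  have h1 : IsCF (LW a 0 3 (fun v => v 1 = v 0 + (4 + g) * v 2)) := by
    have := cf_V a 0 1 (4 + g)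
    simpa using this
  have := cf_glue a 0 3 (3 * (k + 1)) (fun v => v 1 = v 0 + (4 + g) * v 2) B
    (by
      intro v v' hv h
      rw [← hv 0 (by omega) (by omega), ← hv 1 (by omega) (by omega),
        ← hv 2 (by omega) (by omega)]
      exact h) (by simpa using hB) h1 (by simpa using h)
  rw [show 3 * (k + 2) = 3 + 3 * (k + 1) by ring]
  exact this

theorem cf_MT3 (a : ℕ → T) {k G : ℕ} (p q : Fin G → Fin k) :
    IsCF (LW a 0 (3 * (k + 2)) (MT3 p q)) := by
  refine cf_ex (ι := Fin G) a 0 (3 * (k + 2)) _ (fun g => ?_)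
  refine cf_switch a k g _ ?_ ?_
  · rintro v v' hv (⟨s, h⟩ | ⟨s, hs, h⟩ | h)
    · left
      refine ⟨s, ?_⟩
      have := s.2
      rw [← hv _ (by omega) (by omega), ← hv _ (by omega) (by omega)]
      exact h
    · right; left
      refine ⟨s, hs, ?_⟩
      have := s.2
      rw [← hv _ (by omega) (by omega), ← hv _ (by omega) (by omega)]
      exact h
    · right; right
      have := (p g).2
      have := (q g).2
      rw [← hv _ (by omega) (by omega), ← hv _ (by omega) (by omega)]
      exact h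
  · refine cf_or _ _ _ _ _ ?_ (cf_or _ _ _ _ _ ?_ ?_)
    · refine cf_ex (ι := Fin k) a _ _ _ (fun s => ?_)
      have := s.2
      exact cf_ne a 3 (3 * (k + 1)) (3 * ((s : ℕ) + 2)) (3 * ((s : ℕ) + 2) + 2) 2 (by norm_num)
        (by omega) (by omega) (by omega)
    · have h2 : IsCF (LW a 3 (3 * (k + 1)) (fun v => ∃ s : {s : Fin k // s ≠ q g},
          v (3 * ((s.1 : ℕ) + 2) + 2) ≠ 1 * v 5)) := by
        refine cf_ex a _ _ _ (fun s => ?_)
        have := s.1.2
        exact cf_ne a 3 (3 * (k + 1)) (3 * ((s.1 : ℕ) + 2) + 2) 5 1 (by norm_num)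
          (by omega) (by omega) (by omega)
      rw [LW_congr a 3 (3 * (k + 1)) _ (fun v => ∃ s : Fin k, s ≠ q g ∧
        v (3 * ((s : ℕ) + 2) + 2) ≠ v 5)] at h2
      · exact h2
      · intro v
        constructor
        · rintro ⟨⟨s, hs⟩, h⟩
          exact ⟨s, hs, by simpa using h⟩
        · rintro ⟨s, hs, h⟩
          exact ⟨⟨s, hs⟩, by simpa using h⟩
    · have := (p g).2
      have := (q g).2
      have h3 := cf_ne a 3 (3 * (k + 1)) (3 * ((q g : ℕ) + 2) + 2) (3 * ((p g : ℕ) + 2) + 1) 1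
        (by norm_num) (by omega) (by omega) (by omega)
      simpa using h3

theorem cf_Star (a : ℕ → T) {k : ℕ} (g : ℕ) (w : Fin k → ℕ) (W : ℕ) :
    IsCF (LW a 0 (3 * (k + 2)) (Star g w W)) := by
  refine cf_switch a k g _ ?_ ?_
  · rintro v v' hv ⟨c, h1, h2⟩
    refine ⟨c, fun s => ?_, ?_⟩
    · have := s.2
      rw [← h1 s, hv _ (by omega) (by omega)]
    · rw [← h2, hv _ (by omega) (by omega)]
  · let w' : ℕ → ℕ := fun s => if h : s < k then w ⟨s, h⟩ else 0
    have h1 := cf_star a w' W k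
    have h2 := cf_pad a 3 2 (1 + 3 * k) 0 _ (by
      rintro v v' hv ⟨c, h1, h2⟩
      refine ⟨c, fun s hs => ?_, ?_⟩
      · rw [← h1 s hs, hv _ (by omega) (by omega)]
      · rw [← h2, hv _ (by omega) (by omega)]) h1
    rw [show 3 * (k + 1) = 2 + (1 + 3 * k) + 0 by ring]
    rw [LW_congr a 3 (2 + (1 + 3 * k) + 0) _ (fun v => ∃ c : Fin k → ℕ,
      (∀ s : Fin k, v (3 * ((s : ℕ) + 2) + 1) = W * c s) ∧ v 5 = ∑ s, w s * c s)] at h2
    · exact h2
    · intro v
      constructor
      · rintro ⟨c, h1, h2⟩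
        refine ⟨fun s => c s, fun s => h1 s s.2, ?_⟩
        rw [h2, Finset.sum_range]
        apply Finset.sum_congr rfl
        intro s _
        simp [w']
      · rintro ⟨c, h1, h2⟩
        refine ⟨fun s => if h : s < k then c ⟨s, h⟩ else 0, fun s hs => ?_, ?_⟩
        · have := h1 ⟨s, hs⟩
          simpa [hs] using this
        · rw [h2, Finset.sum_range]
          apply Finset.sum_congr rfl
          intro s _
          simp [w']

/-- The slopes, extended by `2` on the switch and the root. -/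
def UU {k : ℕ} (D : ℕ) (U : Fin k → ℕ) (s : ℕ) : ℕ :=
  if h : 2 ≤ s ∧ s - 2 < k then U ⟨s - 2, h.2⟩ else 2 * D

def My {k : ℕ} (D : ℕ) (U : Fin k → ℕ) (v : ℕ → ℕ) : Prop :=
  ∀ s, s < k + 2 → PB D (UU D U s) (v (3 * s)) (v (3 * s + 1)) (v (3 * s + 2))

theorem UU_bd {k : ℕ} (D : ℕ) (U : Fin k → ℕ) (hD : 0 < D) (hU : ∀ s, D < U s ∧ U s < 3 * D)
    (s : ℕ) : D < UU D U s ∧ UU D U s < 3 * D := by
  unfold UU
  split_ifs with h
  · exact hU _
  · constructor <;> omega

theorem cf_My (a : ℕ → T) {k : ℕ} (D : ℕ) (U : Fin k → ℕ) (hD : 0 < D)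
    (hU : ∀ s, D < U s ∧ U s < 3 * D) : IsCF (LW a 0 (3 * (k + 2)) (My D U)) := by
  refine cf_blocks a (k + 2) (fun s v => PB D (UU D U s) (v (3 * s)) (v (3 * s + 1))
    (v (3 * s + 2))) ?_ ?_
  · intro s v v' hv h
    beta_reduce at h ⊢
    rw [← hv (3 * s) (by omega) (by omega), ← hv (3 * s + 1) (by omega) (by omega),
      ← hv (3 * s + 2) (by omega) (by omega)]
    exact h
  · intro s _
    have := UU_bd D U hD hU s
    exact cf_PB a (3 * s) D (UU D U s) hD (by omega)

theorem PB_cases (D U x y z : ℕ) (hD : 0 < D) (h1 : D < U) (h2 : U < 3 * D) (h : PB D U x y z) :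
    (x = z ∧ y = 4 * x) ∨ (z < x ∧ x + 3 * z < y) ∨ (x < z ∧ 3 * x + z < y) := by
  obtain ⟨-, h⟩ := h
  obtain ⟨P, rfl⟩ : ∃ P, U = D + P := ⟨U - D, by omega⟩
  obtain ⟨Q, hQ⟩ : ∃ Q, 2 * D = P + Q := ⟨2 * D - P, by omega⟩
  have e : 4 * D - (D + P) = D + Q := by omega
  rw [e] at h
  have hP : 0 < P := by omega
  have hQ' : 0 < Q := by omega
  rcases lt_trichotomy x z with hx | hx | hx
  · right; right
    refine ⟨hx, ?_⟩
    by_contra hcon
    push Not at hcon
    have i1 : D * y ≤ D * (3 * x + z) := Nat.mul_le_mul_left _ hcon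
    have i2 : Q * x < Q * z := Nat.mul_lt_mul_of_pos_left hx hQ'
    have i3 : D * (3 * x + z) = D * x + 2 * D * x + D * z := by ring
    rw [i3, hQ] at i1
    nlinarith
  · left
    refine ⟨hx, ?_⟩
    subst hx
    apply Nat.eq_of_mul_eq_mul_left hD
    rw [h]
    have : D * (4 * x) = 2 * D * x + 2 * D * x := by ring
    rw [this]
    nth_rewrite 2 [hQ]
    ring
  · right; left
    refine ⟨hx, ?_⟩
    by_contra hcon
    push Not at hcon
    have i1 : D * y ≤ D * (x + 3 * z) := Nat.mul_le_mul_left _ hcon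
    have i2 : P * z < P * x := Nat.mul_lt_mul_of_pos_left hx hP
    have i3 : D * (x + 3 * z) = D * x + 2 * D * z + D * z := by ring
    rw [i3, hQ] at i1
    nlinarith

theorem My_sub {k G : ℕ} (p q : Fin G → Fin k) (w : Fin G → Fin k → ℕ) (W : Fin G → ℕ)
    (hpq : ∀ g, p g ≠ q g) (hW : ∀ g, 1 ≤ W g) (D : ℕ) (U : Fin k → ℕ) (hD : 0 < D)
    (hU : ∀ s, D < U s ∧ U s < 3 * D) (dU : ∀ g s, W g ∣ U s) (dD : ∀ g, W g ∣ D)
    (rel : ∀ g, ∑ s, w g s * (if s = q g then (4 * D + U (p g)) * (4 * D + U s)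
      else D * (4 * D + U s)) = W g * (D * D)) (v : ℕ → ℕ) (h : My D U v) :
    MM p q w W v := by
  classical
  by_cases hmx : MX k v
  · exact Or.inl hmx
  have hb : ∀ s, s < k + 2 → _ := fun s hs =>
    PB_cases D (UU D U s) _ _ _ hD (UU_bd D U hD hU s).1 (UU_bd D U hD hU s).2 (h s hs)
  rcases hb 0 (by omega) with h0 | h0 | h0
  · -- the first zone
    right; left
    simp only [mul_zero, zero_add] at h0
    have hcase : ∀ s, s < k + 2 → RX v s ∨ HH v s := by
      intro s hs
      rcases hb s hs with h1 | h1 | h1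
      · left; exact ⟨h1.2, h1.1.symm⟩
      · right; exact Or.inl h1.2
      · right; exact Or.inr h1.2
    refine ⟨by omega, ?_, ?_⟩
    · intro s hs _
      rcases hcase s hs with h1 | h1
      · right
        unfold RX at h1
        unfold VV
        omega
      · left; exact h1
    · by_contra hcon
      push Not at hcon
      apply hmx
      intro s hs
      rcases Nat.eq_zero_or_pos s with rfl | hs0
      · exact ⟨by simpa using h0.2, by simpa using h0.1.symm⟩
      · rcases hcase s hs with h1 | h1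
        · exact h1
        · exact absurd h1 (hcon s hs (by omega))
  · -- the second half plane
    simp only [mul_zero, zero_add] at h0
    by_cases hg : ∀ g, g < G → v 1 ≠ v 0 + (4 + g) * v 2
    · right; right; left
      exact Or.inr ⟨h0.2, hg⟩
    · push Not at hg
      obtain ⟨g0, hg0, hg1⟩ := hg
      let g : Fin G := ⟨g0, hg0⟩
      by_cases hm : MT3 p q v
      · exact Or.inr (Or.inr (Or.inr (Or.inl hm)))
      · right; right; right; right
        refine ⟨g, hg1, ?_⟩
        have hm' : ¬ ((∃ s : Fin k, v (3 * ((s : ℕ) + 2)) ≠ 2 * v (3 * ((s : ℕ) + 2) + 2)) ∨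
          (∃ s : Fin k, s ≠ q g ∧ v (3 * ((s : ℕ) + 2) + 2) ≠ v 5) ∨
          v (3 * ((q g : ℕ) + 2) + 2) ≠ v (3 * ((p g : ℕ) + 2) + 1)) :=
          fun hh => hm ⟨g, hg1, hh⟩
        push Not at hm'
        obtain ⟨g1, g2, g3⟩ := hm'
        -- the blocks of the variables
        have hblk : ∀ s : Fin k, ∃ b', v (3 * ((s : ℕ) + 2) + 2) = D * b' ∧
            v (3 * ((s : ℕ) + 2) + 1) = (4 * D + U s) * b' := by
          intro s
          have hs := h ((s : ℕ) + 2) (by have := s.2; omega)
          have eU : UU D U ((s : ℕ) + 2) = U s := by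
            unfold UU
            rw [dif_pos ⟨by omega, by have := s.2; omega⟩]
            congr 1
          rw [eU] at hs
          obtain ⟨hs1, hs2⟩ := hs
          rw [g1 s] at hs1 hs2
          set b := v (3 * ((s : ℕ) + 2) + 2)
          have hdvd : D ∣ b := by
            have h1 : b ≡ 2 * b [MOD D] := hs1.symm
            have := (Nat.modEq_iff_dvd' (by omega)).1 h1
            rwa [show 2 * b - b = b by omega] at this
          obtain ⟨b', hb'⟩ := hdvd
          refine ⟨b', hb', ?_⟩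
          apply Nat.eq_of_mul_eq_mul_left hD
          rw [hs2, hb']
          obtain ⟨E, hE⟩ : ∃ E, 4 * D = U s + E := ⟨4 * D - U s, by have := hU s; omega⟩
          have hE' : 4 * D - U s = E := by omega
          rw [hE', hE]
          ring
        have hj : ∀ s : Fin k, D * v (3 * ((s : ℕ) + 2) + 1) =
            (4 * D + U s) * v (3 * ((s : ℕ) + 2) + 2) := by
          intro s
          obtain ⟨b', h1, h2⟩ := hblk s
          rw [h1, h2]; ring
        have hdv : ∀ s : Fin k, W g ∣ v (3 * ((s : ℕ) + 2) + 1) := by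
          intro s
          obtain ⟨b', h1, h2⟩ := hblk s
          rw [h2]
          exact Dvd.dvd.mul_right (dvd_add (Dvd.dvd.mul_left (dD g) 4) (dU g s)) _
        choose c hc using hdv
        refine ⟨c, hc, ?_⟩
        have hW' : 0 < W g := hW g
        have hDD : 0 < W g * (D * D) := Nat.mul_pos hW' (Nat.mul_pos hD hD)
        apply Nat.eq_of_mul_eq_mul_left hDD
        have hq : D * v (3 * ((q g : ℕ) + 2) + 2) = (4 * D + U (p g)) * v 5 := by
          rw [g3, hj (p g), g2 (p g) (hpq g)]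
        calc W g * (D * D) * v 5 = ∑ s, (w g s * (if s = q g then
              (4 * D + U (p g)) * (4 * D + U s) else D * (4 * D + U s))) * v 5 := by
              rw [← Finset.sum_mul, rel g]
          _ = ∑ s, W g * (D * D) * (w g s * c s) := by
              apply Finset.sum_congr rfl
              intro s _
              have e1 : W g * (D * D) * (w g s * c s) =
                w g s * (D * (D * v (3 * ((s : ℕ) + 2) + 1))) := by
                rw [hc s]; ring
              rw [e1, hj s]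
              split_ifs with hs
              · subst hs
                have : w g (q g) * (D * ((4 * D + U (q g)) * v (3 * ((q g : ℕ) + 2) + 2))) =
                  w g (q g) * ((4 * D + U (q g)) * (D * v (3 * ((q g : ℕ) + 2) + 2))) := by ring
                rw [this, hq]
                ring
              · rw [g2 s hs]
                ring
          _ = W g * (D * D) * ∑ s, w g s * c s := by rw [Finset.mul_sum]
  · -- the third half plane
    right; right; left
    left
    simpa using h0.2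

theorem suff (a : ℕ → T) {k G : ℕ} (p q : Fin G → Fin k) (w : Fin G → Fin k → ℕ)
    (W : Fin G → ℕ)
    (hpq : ∀ g, p g ≠ q g) (hW : ∀ g, 1 ≤ W g) (D : ℕ) (U : Fin k → ℕ) (hD : 0 < D)
    (hU : ∀ s, D < U s ∧ U s < 3 * D) (dU : ∀ g s, W g ∣ U s) (dD : ∀ g, W g ∣ D)
    (rel : ∀ g, ∑ s, w g s * (if s = q g then (4 * D + U (p g)) * (4 * D + U s)
      else D * (4 * D + U s)) = W g * (D * D)) :
    IsCF (LW a 0 (3 * (k + 2)) (MM p q w W)) := by
  have h1 : IsCF (LW a 0 (3 * (k + 2)) (fun v => My D U v ∨ MT1 k v ∨ MT2 G v ∨ MT3 p q v ∨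
      ∃ g : Fin G, Star g (w g) (W g) v)) := by
    refine cf_or _ _ _ _ _ (cf_My a D U hD hU) (cf_or _ _ _ _ _ (cf_MT1 a k)
      (cf_or _ _ _ _ _ (cf_MT2 a k G) (cf_or _ _ _ _ _ (cf_MT3 a p q) ?_)))
    exact cf_ex a _ _ _ (fun g => cf_Star a g (w g) (W g))
  rw [LW_congr a 0 (3 * (k + 2)) _ (MM p q w W)] at h1
  · exact h1
  · intro v
    constructor
    · rintro (h | h)
      · exact My_sub p q w W hpq hW D U hD hU dU dD rel v h
      · exact Or.inr h
    · rintro (h | h)
      · left
        intro s hs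
        obtain ⟨h1, h2⟩ := h s hs
        have hb := UU_bd D U hD hU s
        refine ⟨by rw [h2], ?_⟩
        rw [h1, h2]
        obtain ⟨E, hE⟩ : ∃ E, 4 * D = UU D U s + E := ⟨4 * D - UU D U s, by omega⟩
        have hE' : 4 * D - UU D U s = E := by omega
        rw [hE']
        calc D * (4 * v (3 * s)) = 4 * D * v (3 * s) := by ring
          _ = UU D U s * v (3 * s) + E * v (3 * s) := by rw [hE]; ring
      · exact Or.inr h

end Run7.h356
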